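import Pool.Agent.Lib.MP_72e2e6_nt.P4.V.Spec

/-! Equivariant maps on `V[t_j] / (t_j ^ 2)`. -/

set_option autoImplicit false

namespace Pool.Agent.MP72G

open Pool.Agent.MP72P Finset

private lemma asm_assoc {m : ℕ} {L : Type} [CommRing L] (f g h : Finset (Fin m) → L) :
    cv (cv f g) h = cv f (cv g h) := by
  funext I
  unfold cv
  simp only [sum_mul, mul_sum]
  rw [sum_sigma', sum_sigma']
  refine sum_bij' (i := fun x _ => (⟨x.2, x.1 \ x.2⟩ : Σ _ : Finset (Fin m), Finset (Fin m)))
    (j := fun x _ => (⟨x.1 ∪ x.2, x.1⟩ : Σ _ : Finset (Fin m), Finset (Fin m))) ?_ ?_ ?_ ?_ ?_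
  · rintro ⟨A, B⟩ hx
    simp only [mem_sigma, mem_powerset] at hx ⊢
    exact ⟨hx.2.trans hx.1, sdiff_subset_sdiff hx.1 (Subset.refl B)⟩
  · rintro ⟨B, C⟩ hx
    simp only [mem_sigma, mem_powerset] at hx ⊢
    exact ⟨union_subset hx.1 (hx.2.trans sdiff_subset), subset_union_left⟩
  · rintro ⟨A, B⟩ hx
    simp only [mem_sigma, mem_powerset] at hx
    simp only [union_sdiff_of_subset hx.2]
  · rintro ⟨B, C⟩ hx
    simp only [mem_sigma, mem_powerset] at hx
    have hd : Disjoint B C := (disjoint_of_subset_left hx.2 sdiff_disjoint).symm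
    simp only [union_sdiff_cancel_left hd]
  · rintro ⟨A, B⟩ hx
    simp only [mem_sigma, mem_powerset] at hx
    have e : (I \ B) \ (A \ B) = I \ A := by
      ext x
      simp only [mem_sdiff]
      constructor
      · rintro ⟨⟨h1, h2⟩, h3⟩
        exact ⟨h1, fun h4 => h3 ⟨h4, h2⟩⟩
      · rintro ⟨h1, h2⟩
        exact ⟨⟨h1, fun h3 => h2 (hx.2 h3)⟩, fun h3 => h2 h3.1⟩
    simp only [e, mul_assoc]

private lemma asm_add {m : ℕ} {L : Type} [CommRing L] (a b : Fin m → L) :
    cv (prE a) (prE b) = prE (a + b) := by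
  funext I
  unfold cv prE
  simp only [Pi.add_apply]
  exact (prod_add _ _ _).symm

private lemma asm_zero {m : ℕ} {L : Type} [CommRing L] (f : Finset (Fin m) → L) :
    cv (prE (0 : Fin m → L)) f = f := by
  funext I
  unfold cv
  rw [sum_eq_single ∅]
  · rw [sdiff_empty]
    unfold prE
    rw [prod_empty, one_mul]
  · intro A _ hA
    obtain ⟨j, hj⟩ := nonempty_iff_ne_empty.2 hA
    have : prE (0 : Fin m → L) A = 0 := prod_eq_zero hj rfl
    rw [this, zero_mul]
  · intro h
    exact absurd (empty_mem_powerset I) h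

/-- the element of the prime field -/
private lemma asm_op (p : ℕ) [Fact p.Prime] (L : Type) [Field L] [CharP L p] :
    ∃ e : ZMod p →+* L, ∀ c : ZMod p, e c = op L c := by
  refine ⟨ZMod.castHom (dvd_refl p) L, fun c => ?_⟩
  rw [ZMod.castHom_apply]
  exact (ZMod.natCast_val c).symm

/-- the action on the element `v t_I`, `I` the complement of `J` -/
private lemma asm_act {p m : ℕ} {G V : Type} [AddCommGroup V] (ρV : G → V → V)
    (d : Fin m → G → ZMod p) (g : G) (hg : ∀ v, ρV g v = v) (J : Finset (Fin m)) (v : V) :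
    rV ρV d g (sgE (univ \ J) v) =
      ∑ J' ∈ J.powerset, (∏ j ∈ J \ J', d j g).val • sgE (univ \ J') v := by
  classical
  funext I'
  have hL : rV ρV d g (sgE (univ \ J) v) I' =
      if univ \ J ⊆ I' then (∏ j ∈ I' \ (univ \ J), d j g).val • v else 0 := by
    unfold rV
    simp only [hg]
    by_cases h : univ \ J ⊆ I'
    · rw [if_pos h, sum_eq_single (I' \ (univ \ J))]
      · rw [Finset.sdiff_sdiff_eq_self h]
        unfold sgE
        rw [if_pos rfl]
      · intro A hA hne
        have : I' \ A ≠ univ \ J := by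
          intro he
          apply hne
          rw [← he, Finset.sdiff_sdiff_eq_self (mem_powerset.1 hA)]
        unfold sgE
        rw [if_neg this, smul_zero]
      · intro h2
        exact absurd (mem_powerset.2 sdiff_subset) h2
    · rw [if_neg h]
      refine sum_eq_zero fun A _ => ?_
      have : I' \ A ≠ univ \ J := by
        intro he
        apply h
        rw [← he]
        exact sdiff_subset
      unfold sgE
      rw [if_neg this, smul_zero]
  have hR : (∑ J' ∈ J.powerset, (∏ j ∈ J \ J', d j g).val • sgE (univ \ J') v) I' =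
      if univ \ J ⊆ I' then (∏ j ∈ I' \ (univ \ J), d j g).val • v else 0 := by
    rw [Finset.sum_apply]
    by_cases h : univ \ J ⊆ I'
    · have hsub : univ \ I' ⊆ J := by
        intro x hx
        by_contra hc
        exact (mem_sdiff.1 hx).2 (h (mem_sdiff.2 ⟨mem_univ x, hc⟩))
      rw [if_pos h, sum_eq_single (univ \ I')]
      · have e1 : univ \ (univ \ I') = I' := Finset.sdiff_sdiff_eq_self (subset_univ I')
        have e2 : J \ (univ \ I') = I' \ (univ \ J) := by
          ext x
          simp only [mem_sdiff, mem_univ, true_and, not_not]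
          exact and_comm
        rw [Pi.smul_apply, e1, e2]
        unfold sgE
        rw [if_pos rfl]
      · intro A _ hne
        have : I' ≠ univ \ A := by
          intro he
          apply hne
          rw [he, Finset.sdiff_sdiff_eq_self (subset_univ A)]
        rw [Pi.smul_apply]
        unfold sgE
        rw [if_neg this, smul_zero]
      · intro h2
        exact absurd (mem_powerset.2 hsub) h2
    · rw [if_neg h]
      refine sum_eq_zero fun A hA => ?_
      have : I' ≠ univ \ A := by
        intro he
        apply h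
        rw [he]
        exact sdiff_subset_sdiff (Subset.refl _) (mem_powerset.1 hA)
      rw [Pi.smul_apply]
      unfold sgE
      rw [if_neg this, smul_zero]
  rw [hL, hR]

theorem tAsm (h1 : S_Hst) (h2 : S_Has) (h3 : S_Asl) : S_Asm := by
  intro p _ K _ _ hK J av α h hHS V _ _ ρV hρ hpV m δ hδ lam hlam D hD
  classical
  obtain ⟨-, -, hGal, -, -, -, -, -, -, -, hroot, -⟩ := h1 p K hK J av α h hHS
  have hcL : CharP (OmS p av α) p :=
    charP_of_injective_algebraMap (algebraMap K (OmS p av α)).injective p
  obtain ⟨e, he⟩ := asm_op p (OmS p av α)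
  -- the roots
  have hϑ : ∀ j, ∃ x : OmS p av α, x ^ p - x = algebraMap K (OmS p av α) (δ j : K) ∧
      ∀ g : GS p av α, g x = x + op (OmS p av α) (hS p av α (δ j : K) g) := by
    intro j
    obtain ⟨-, -, h4, -⟩ := h2 p K (OmS p av α) 1 1 one_ne_zero (by rw [one_pow, map_one])
    obtain ⟨-, x, hx, hgx⟩ := h4 (δ j : K) (by
      rw [map_one]
      exact hroot _ (δ j).2)
    refine ⟨x, ?_, fun g => ?_⟩
    · rw [← hx, map_one]
      unfold Ph
      rw [one_mul]
    · rw [hgx g, mul_one]
      rfl
  choose ϑ hϑ1 hϑ2 using hϑ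
  -- the fixed field
  let G' : Subgroup (GS p av α) :=
    { carrier := {g | ∀ v, ρV g v = v}
      mul_mem' := fun {a b} ha hb v => by rw [hρ.mul, hb v, ha v]
      one_mem' := fun v => hρ.one v
      inv_mem' := fun {a} ha v => by
        have h5 := hρ.mul a⁻¹ a v
        rw [inv_mul_cancel, hρ.one, ha v] at h5
        exact h5.symm }
  let k : IntermediateField K (OmS p av α) := IntermediateField.fixedField G'
  have hck : CharP k p := charP_of_injective_algebraMap (algebraMap K k).injective p
  have hkmem : ∀ x : OmS p av α, x ∈ k ↔ ∀ g ∈ G', g x = x := by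
    intro x
    constructor
    · intro hx g hg
      exact hx ⟨g, hg⟩
    · intro hx g
      exact hx g.1 g.2
  -- the linear forms
  let F : V → Finset (Fin m) → OmS p av α := fun v I => lam (sgE (univ \ I) v)
  have hF : ∀ g ∈ G', ∀ v I, g (F v I) =
      cv (prE fun j => op (OmS p av α) (hS p av α (δ j : K) g)) (F v) I := by
    intro g hg v I
    have h5 := hlam g (sgE (univ \ I) v)
    rw [asm_act ρV _ g hg, map_sum] at h5
    show g (lam (sgE (univ \ I) v)) = _
    rw [← h5]
    unfold cv
    refine sum_bij' (i := fun A _ => I \ A) (j := fun A _ => I \ A) ?_ ?_ ?_ ?_ ?_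
    · intro A _
      exact mem_powerset.2 sdiff_subset
    · intro A _
      exact mem_powerset.2 sdiff_subset
    · intro A hA
      exact Finset.sdiff_sdiff_eq_self (mem_powerset.1 hA)
    · intro A hA
      exact Finset.sdiff_sdiff_eq_self (mem_powerset.1 hA)
    · intro A hA
      rw [map_nsmul, Finset.sdiff_sdiff_eq_self (mem_powerset.1 hA), nsmul_eq_mul]
      congr 1
      show op (OmS p av α) (∏ j ∈ I \ A, hS p av α (δ j : K) g) = _
      rw [← he, map_prod]
      unfold prE
      exact prod_congr rfl fun j _ => he _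
  let u : V → Finset (Fin m) → OmS p av α := fun v => cv (prE (-ϑ)) (F v)
  have hu : ∀ v I, u v I ∈ k := by
    intro v I
    rw [hkmem]
    intro g hg
    have e1 : g (u v I) = cv (fun A => g (prE (-ϑ) A)) (fun A => g (F v A)) I := by
      show g (∑ A ∈ I.powerset, prE (-ϑ) A * F v (I \ A)) = _
      rw [map_sum]
      exact sum_congr rfl fun A _ => map_mul g _ _
    have e2 : (fun A => g (prE (-ϑ) A)) =
        prE (-ϑ - fun j => op (OmS p av α) (hS p av α (δ j : K) g)) := by
      funext A
      unfold prE
      rw [map_prod]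
      refine prod_congr rfl fun j _ => ?_
      rw [Pi.neg_apply, map_neg, hϑ2 j g, Pi.sub_apply, Pi.neg_apply]
      ring
    have e3 : (fun A => g (F v A)) =
        cv (prE fun j => op (OmS p av α) (hS p av α (δ j : K) g)) (F v) :=
      funext fun A => hF g hg v A
    rw [e1, e2, e3, ← asm_assoc, asm_add, sub_add_cancel]
  have hFu : ∀ v, F v = cv (prE ϑ) (u v) := by
    intro v
    show F v = cv (prE ϑ) (cv (prE (-ϑ)) (F v))
    rw [← asm_assoc, asm_add, add_neg_cancel, asm_zero]
  -- the relation
  have hsum : ∑ I : Finset (Fin m), F (D (univ \ I)) I = 0 := by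
    have e1 : D = ∑ I : Finset (Fin m), sgE I (D I) := by
      funext I'
      rw [Finset.sum_apply]
      unfold sgE
      rw [sum_ite_eq univ I', if_pos (mem_univ I')]
    rw [← hD]
    conv_rhs => rw [e1]
    rw [map_sum]
    refine sum_bij' (i := fun I _ => univ \ I) (j := fun I _ => univ \ I) ?_ ?_ ?_ ?_ ?_
    · intro I _
      exact mem_univ _
    · intro I _
      exact mem_univ _
    · intro I _
      exact Finset.sdiff_sdiff_eq_self (subset_univ I)
    · intro I _
      exact Finset.sdiff_sdiff_eq_self (subset_univ I)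
    · intro I _
      rfl
  let c : Finset (Fin m) → OmS p av α := fun A =>
    ∑ I : Finset (Fin m), if A ⊆ I then u (D (univ \ I)) (I \ A) else 0
  have hc : ∀ A, c A ∈ k := by
    intro A
    refine sum_mem fun I _ => ?_
    by_cases hA : A ⊆ I
    · rw [if_pos hA]
      exact hu _ _
    · rw [if_neg hA]
      exact zero_mem _
  have hrel : ∑ A : Finset (Fin m), c A * ∏ j ∈ A, ϑ j = 0 := by
    rw [← hsum]
    have e1 : ∀ I : Finset (Fin m), F (D (univ \ I)) I =
        ∑ A : Finset (Fin m), (if A ⊆ I then u (D (univ \ I)) (I \ A) else 0) *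
          ∏ j ∈ A, ϑ j := by
      intro I
      rw [hFu]
      unfold cv
      have e2 : I.powerset = univ.filter (· ⊆ I) := by
        ext A
        simp only [mem_powerset, mem_filter, mem_univ, true_and]
      rw [e2, sum_filter]
      refine sum_congr rfl fun A _ => ?_
      by_cases hA : A ⊆ I
      · rw [if_pos hA, if_pos hA, mul_comm]
        rfl
      · rw [if_neg hA, if_neg hA, zero_mul]
    rw [sum_congr rfl fun I _ => e1 I, sum_comm]
    exact sum_congr rfl fun A _ => sum_mul _ _ _
  have hfin := h3 p k (OmS p av α) m ϑ (fun j => algebraMap K k (δ j : K)) (fun j => hϑ1 j) (by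
    rintro b ⟨x, hx⟩
    apply hδ b
    refine ⟨(x : OmS p av α), fun g hg => (hkmem _).1 x.2 g hg, ?_⟩
    have h5 := congrArg (algebraMap k (OmS p av α)) hx
    rw [map_sub, map_pow, map_sum] at h5
    have h6 : ((∑ i, (b i).val • δ i : OS av) : K) = ∑ i, (b i).val • (δ i : K) := by
      rw [AddSubmonoidClass.coe_finsetSum]
      exact sum_congr rfl fun i _ => rfl
    rw [h6, map_sum]
    refine h5.trans (sum_congr rfl fun i _ => ?_)
    rw [map_nsmul, map_nsmul]
    rfl) (fun A => ⟨c A, hc A⟩) hrel
  have h7 : c univ = 0 := congrArg (fun f : Finset (Fin m) → k => ((f univ : k) : OmS p av α)) hfin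
  have h8 : c univ = u (D ∅) ∅ := by
    show (∑ I : Finset (Fin m), if univ ⊆ I then u (D (univ \ I)) (I \ univ) else 0) = _
    rw [sum_eq_single univ]
    · rw [if_pos (Subset.refl _), sdiff_self]
      rfl
    · intro I _ hI
      rw [if_neg fun h' => hI (univ_subset_iff.1 h')]
    · intro h'
      exact absurd (mem_univ _) h'
  have h9 : u (D ∅) ∅ = lam (sgE univ (D ∅)) := by
    show (∑ A ∈ (∅ : Finset (Fin m)).powerset, prE (-ϑ) A * F (D ∅) (∅ \ A)) = _
    rw [powerset_empty, sum_singleton]
    unfold prE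
    rw [prod_empty, one_mul]
    show lam (sgE (univ \ (∅ \ ∅)) (D ∅)) = _
    rw [sdiff_empty, sdiff_empty]
  rw [← h9, ← h8, h7]

end Pool.Agent.MP72G
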