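import Pool.Agent.Lib.MP_72e2e6_nt.P4.V.Spec

/-!
# MP_72e2e6_nt, theorem T4, part V: module Bgz
-/

namespace Pool.Agent.MP72G

open Finset Pool.Agent.MP72P IntermediateField

private lemma fiber_count {α β : Type} (s : Set α) (hs : s.Finite) (t : Set β) (ht : t.Finite)
    (f : α → β) (hf : ∀ a ∈ s, f a ∈ t) (n : ℕ) (hn : ∀ b ∈ t, {a | a ∈ s ∧ f a = b}.ncard ≤ n) :
    s.ncard ≤ n * t.ncard := by
  classical
  rw [Set.ncard_eq_toFinset_card s hs, Set.ncard_eq_toFinset_card t ht]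
  apply Finset.card_le_mul_card_image_of_maps_to (f := f)
  · intro a ha
    rw [Set.Finite.mem_toFinset] at ha ⊢
    exact hf a ha
  · intro b hb
    rw [Set.Finite.mem_toFinset] at hb
    refine le_trans (le_of_eq ?_) (hn b hb)
    rw [← Set.ncard_coe_finset]
    congr 1
    ext a
    simp

private lemma subgroup_count {X : Type} [AddCommGroup X] (A B N : AddSubgroup X)
    (hA : (A : Set X).Finite) (C : ℕ)
    (h : C * {x | x ∈ A ∧ x ∈ B ∧ x ∈ N}.ncard ≤ {x | x ∈ A ∧ x ∈ B}.ncard) :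
    C * {x | x ∈ A ∧ x ∈ N}.ncard ≤ {x | x ∈ A}.ncard := by
  have h1 : ({x | x ∈ A ∧ x ∈ B} ×ˢ {x | x ∈ A ∧ x ∈ N} : Set (X × X)).ncard ≤
      {x | x ∈ A ∧ x ∈ B ∧ x ∈ N}.ncard * {x | x ∈ A}.ncard := by
    apply fiber_count _ ((hA.subset fun x hx => hx.1).prod (hA.subset fun x hx => hx.1)) _ hA
      (fun q => q.1 + q.2)
    · rintro ⟨a, b⟩ ⟨ha, hb⟩
      exact A.add_mem ha.1 hb.1
    · intro c _
      rcases Set.eq_empty_or_nonempty {q : X × X | q ∈ ({x | x ∈ A ∧ x ∈ B} ×ˢ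
        {x | x ∈ A ∧ x ∈ N} : Set (X × X)) ∧ q.1 + q.2 = c} with h2 | ⟨⟨a0, b0⟩, h0, h0'⟩
      · rw [h2, Set.ncard_empty]
        exact Nat.zero_le _
      · refine Set.ncard_le_ncard_of_injOn (fun q : X × X => q.1 - a0) ?_ ?_
          (ht := hA.subset fun x hx => hx.1)
        · rintro ⟨a, b⟩ ⟨⟨ha, hb⟩, hab⟩
          obtain ⟨ha0, hb0⟩ := h0
          simp only at hab h0'
          refine ⟨A.sub_mem ha.1 ha0.1, B.sub_mem ha.2 ha0.2, ?_⟩
          have h3 : a - a0 = b0 - b := by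
            have h4 : a + b = a0 + b0 := by rw [hab, h0']
            have h5 : a = a0 + b0 - b := eq_sub_of_add_eq h4
            rw [h5]
            abel
          rw [h3]
          exact N.sub_mem hb0.2 hb.2
        · rintro ⟨a, b⟩ ⟨_, hab⟩ ⟨a', b'⟩ ⟨_, hab'⟩ hh
          simp only at hab hab' hh
          have h3 : a = a' := sub_left_injective hh
          subst h3
          have h4 : b = b' := add_left_cancel (hab.trans hab'.symm)
          rw [h4]
  rw [Set.ncard_prod] at h1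
  have h2 : 0 < {x | x ∈ A ∧ x ∈ B ∧ x ∈ N}.ncard := by
    rw [Set.ncard_pos (hA.subset fun x hx => hx.1)]
    exact ⟨0, A.zero_mem, B.zero_mem, N.zero_mem⟩
  apply Nat.le_of_mul_le_mul_left _ h2
  calc {x | x ∈ A ∧ x ∈ B ∧ x ∈ N}.ncard * (C * {x | x ∈ A ∧ x ∈ N}.ncard)
      = (C * {x | x ∈ A ∧ x ∈ B ∧ x ∈ N}.ncard) * {x | x ∈ A ∧ x ∈ N}.ncard := by ring
    _ ≤ {x | x ∈ A ∧ x ∈ B}.ncard * {x | x ∈ A ∧ x ∈ N}.ncard := Nat.mul_le_mul_right _ h
    _ ≤ _ := h1

theorem tBgz (h1 : S_Hst) (h2 : S_Bgl) : S_Bgz := by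
  classical
  intro p _ K _ _ hG J av α h hH hFin V _ _ ρV hρ C
  have hGal : IsGalois K (OmS p av α) := (h1 p K hG J av α h hH).2.2.1
  have hFJ : Finite J := hH.fin
  obtain ⟨b⟩ := hH.nem
  have hp1 : 1 < p := (Fact.out : p.Prime).one_lt
  have hch : CharP (OmS p av α) p :=
    charP_of_injective_algebraMap (algebraMap K (OmS p av α)).injective p
  -- the prime field
  let R : Set (OmS p av α) := {c | c ^ p - c = 0}
  have hR : R.Finite := by
    have h3 := Polynomial.finite_setOfPred_isRoot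
      (FiniteField.X_pow_card_sub_X_ne_zero (OmS p av α) hp1)
    refine h3.subset ?_
    intro c hc
    have hc' : c ^ p - c = 0 := hc
    simp [Polynomial.IsRoot, hc']
  let t : Set ((V → V) → OmS p av α) := {φ | ∀ f, φ f ∈ R}
  have ht : t.Finite := Set.Finite.pi' fun _ => hR
  have hYex : ∀ x : OS av, ∃ y : OmS p av α, x ∈ NV p av α ρV →
      (∀ g, (∀ v, ρV g v = v) → g y = y) ∧
        y ^ p - y = algebraMap K (OmS p av α) (x : K) := by
    intro x
    by_cases hx : x ∈ NV p av α ρV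
    · obtain ⟨y, hy⟩ := hx
      exact ⟨y, fun _ => hy⟩
    · exact ⟨0, fun h => absurd h hx⟩
  choose Y hY using hYex
  let Φ : OS av → (V → V) → OmS p av α := fun x f =>
    if h : ∃ g : GS p av α, ρV g = f then h.choose (Y x) - Y x else 0
  have hgg : ∀ x ∈ NV p av α ρV, ∀ g g' : GS p av α, ρV g = ρV g' → g (Y x) = g' (Y x) := by
    intro x hx g g' hgg
    have h3 : (g'⁻¹ * g) (Y x) = Y x := by
      apply (hY x hx).1
      intro v
      rw [hρ.mul, hgg, ← hρ.mul, inv_mul_cancel, hρ.one]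
    have h4 : g = g' * (g'⁻¹ * g) := by group
    rw [h4, AlgEquiv.mul_apply, h3]
  have hΦ : ∀ x ∈ NV p av α ρV, ∀ g, Φ x (ρV g) = g (Y x) - Y x := by
    intro x hx g
    have hex : ∃ g' : GS p av α, ρV g' = ρV g := ⟨g, rfl⟩
    simp only [Φ]
    rw [dif_pos hex, hgg x hx _ _ hex.choose_spec]
  have hΦt : ∀ x ∈ NV p av α ρV, Φ x ∈ t := by
    intro x hx f
    by_cases hex : ∃ g : GS p av α, ρV g = f
    · obtain ⟨g, rfl⟩ := hex
      rw [hΦ x hx]
      show (g (Y x) - Y x) ^ p - (g (Y x) - Y x) = 0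
      have h3 := (hY x hx).2
      have h4 : g (Y x) ^ p - g (Y x) = algebraMap K (OmS p av α) (x : K) := by
        rw [← map_pow, ← map_sub, h3, AlgEquiv.commutes]
      rw [sub_pow_char]
      linear_combination h4 - h3
    · show Φ x f ∈ R
      simp only [Φ]
      rw [dif_neg hex]
      show (0 : OmS p av α) ^ p - 0 = 0
      rw [zero_pow (Fact.out : p.Prime).ne_zero, sub_zero]
  have hdiff : ∀ x ∈ NV p av α ρV, ∀ x' ∈ NV p av α ρV, Φ x = Φ x' → x - x' ∈ NS p av := by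
    intro x hx x' hx' hΦΦ
    have h3 : ∀ g : GS p av α, g (Y x - Y x') = Y x - Y x' := by
      intro g
      have h4 := congrFun hΦΦ (ρV g)
      rw [hΦ x hx, hΦ x' hx'] at h4
      rw [map_sub]
      linear_combination h4
    rw [← InfiniteGalois.mem_bot_iff_fixed, IntermediateField.mem_bot] at h3
    obtain ⟨w, hw⟩ := h3
    refine ⟨w, ?_⟩
    apply (algebraMap K (OmS p av α)).injective
    have h5 : ((x - x' : OS av) : K) = x - x' := rfl
    rw [h5, map_sub, map_sub, map_pow, hw, ← (hY x hx).2, ← (hY x' hx').2, sub_pow_char]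
    ring
  obtain ⟨e, he⟩ := h2 p K hG J av hH.pls b (t.ncard * C)
  refine ⟨e, ?_⟩
  have h6 := subgroup_count (FS av e) (BS p av b) (NS p av) (hFin e) (t.ncard * C) he
  have h7 : {x | x ∈ FS av e ∧ x ∈ NV p av α ρV}.ncard ≤
      {x | x ∈ FS av e ∧ x ∈ NS p av}.ncard * t.ncard := by
    apply fiber_count _ ((hFin e).subset fun x hx => hx.1) t ht Φ
    · intro x hx
      exact hΦt x hx.2
    · intro φ _
      rcases Set.eq_empty_or_nonempty {a | a ∈ {x | x ∈ FS av e ∧ x ∈ NV p av α ρV} ∧ Φ a = φ}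
        with h8 | ⟨x0, hx0, hx0'⟩
      · rw [h8, Set.ncard_empty]
        exact Nat.zero_le _
      · refine Set.ncard_le_ncard_of_injOn (fun x => x - x0) ?_ ?_
          (ht := (hFin e).subset fun x hx => hx.1)
        · rintro x ⟨hx, hx'⟩
          exact ⟨(FS av e).sub_mem hx.1 hx0.1, hdiff x hx.2 x0 hx0.2 (by rw [hx', hx0'])⟩
        · intro x _ x' _ hxx
          exact sub_left_injective hxx
  calc C * {x | x ∈ FS av e ∧ x ∈ NV p av α ρV}.ncard
      ≤ C * ({x | x ∈ FS av e ∧ x ∈ NS p av}.ncard * t.ncard) := Nat.mul_le_mul_left _ h7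
    _ = t.ncard * C * {x | x ∈ FS av e ∧ x ∈ NS p av}.ncard := by ring
    _ ≤ _ := h6

end Pool.Agent.MP72G
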