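import Pool.Agent.Lib.MP_72e2e6_nt.P4.V.Spec

/-! Bases of finite groups of exponent `p`. -/

namespace Pool.Agent.MP72G

open Pool.Agent.MP72P

private theorem bsx_aux (p : ℕ) [Fact p.Prime] (M : Type) [AddCommGroup M] [Finite M]
    [Module (ZMod p) M] : ∃ n : ℕ, Nonempty (M ≃+ (Fin n → ZMod p)) := by
  have : Module.Finite (ZMod p) M := Module.Finite.of_finite
  exact ⟨Module.finrank (ZMod p) M, ⟨(Module.finBasis (ZMod p) M).equivFun.toAddEquiv⟩⟩

theorem tBsx : S_Bsx := by
  intro p _ M _ _ h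
  exact @bsx_aux p _ M _ _ (AddCommGroup.zmodModule h)

end Pool.Agent.MP72G
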