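import Pool.Agent.Lib.MP_72e2e6_nt.P4.V.Spec

/-!
# MP_72e2e6_nt, theorem T4, part V: closed directions (Cdx)
-/

set_option autoImplicit false

namespace Pool.Agent.MP72G

open Finset Pool.Agent.MP72P IntermediateField

private theorem Cdx_empty {p m : ℕ} [Fact p.Prime] {G V : Type} [AddCommGroup V] (ρV : G → V → V)
    (δ : Fin m → G → ZMod p) (g : G) (f : Finset (Fin m) → V) :
    rV ρV δ g f ∅ = ρV g (f ∅) := by
  have hp1 : Fact (1 < p) := ⟨(Fact.out : p.Prime).one_lt⟩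
  unfold rV
  rw [Finset.powerset_empty, Finset.sum_singleton, Finset.prod_empty, ZMod.val_one, one_smul]
  rfl

theorem tCdx (h1 : S_Lin3) (h2 : S_Act3) (h3 : S_The3) : S_Cdx := by
  intro p _ G _ _ _ S d ω D T hω hH2 hOk V _ _ r hr hpv ρV hact m δ hδ hcl
  classical
  obtain ⟨hactE, hcardE⟩ := h2 p G ω hω V r hr hpv ρV hact m δ hδ
  obtain ⟨-, L2, -, L4, L5, -, -, -⟩ := h1 p G S d ω D T hω hH2 hOk (Finset (Fin m) → V)
    (r * 2 ^ m) hcardE (rV ρV δ) hactE
  obtain ⟨-, -, -, hT4, hT5⟩ := h3 p G S d ω D T hω hH2 hOk V r hr hpv ρV hact m δ hδ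
  have hpair : ∀ c : Fin (d + 1) → V,
      (∀ g, (Zs T (rV ρV δ) (fun k => sgE ∅ (c k))).1 g ∅ = (Zs T ρV c).1 g) ∧
      (∀ w, (Zs T (rV ρV δ) (fun k => sgE ∅ (c k))).2 w ∅ = (Zs T ρV c).2 w) := by
    intro c
    have h4 := (L4 V r hr ρV hact (Pi.evalAddMonoidHom (fun _ : Finset (Fin m) => V) ∅)
      (fun g x => Cdx_empty ρV δ g x) (fun k => sgE ∅ (c k))).1
    have h5 : (fun k : Fin (d + 1) => Pi.evalAddMonoidHom (fun _ : Finset (Fin m) => V) ∅
        (sgE (∅ : Finset (Fin m)) (c k))) = c := by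
      funext k
      rw [Pi.evalAddMonoidHom_apply]
      unfold sgE
      rw [if_pos rfl]
    rw [h5] at h4
    rw [h4]
    exact ⟨fun g => rfl, fun w => rfl⟩
  refine ⟨?_, ?_, ?_⟩
  · intro C j
    rw [hT5 C j, Finset.sum_eq_single univ]
    · rw [Finset.sdiff_self]
      exact hT4 _ _
    · intro I _ hI
      apply hcl
      intro h
      apply hI
      rw [Finset.sdiff_eq_empty_iff_subset] at h
      exact Finset.univ_subset_iff.1 h
    · intro h
      exact absurd (Finset.mem_univ _) h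
  · intro c hc
    have hTs : (fun k => sgE ∅ (c k) : Fin (d + 1) → Finset (Fin m) → V) ∈
        {y | ∀ j, Ts T (rV ρV δ) y j = 0} := by
      intro j
      funext I
      by_cases hI : I = ∅
      · rw [hI, hT4 c j, hc j]
        rfl
      · exact hcl c j I hI
    obtain ⟨z, hz, hzc⟩ := L5.surjOn hTs
    have h6 : z = Zs T (rV ρV δ) (fun k => sgE ∅ (c k)) := by
      refine L2 _ _ ⟨hz.1, fun i => hz.2 _ _ (hOk.ti i), fun k => ?_⟩
      exact congrFun hzc k
    rw [← h6]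
    exact hz
  · intro c
    refine ⟨(hpair c).1, (hpair c).2, fun g w => ?_⟩
    unfold dif
    rw [Pi.add_apply, (hpair c).1, Cdx_empty, (hpair c).2]

end Pool.Agent.MP72G
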