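import Pool.Agent.Lib.MP_72e2e6_nt.P4.V.Spec

/-!
# MP_72e2e6_nt, theorem T4, part V: Fnm, the functional
-/

namespace Pool.Agent.MP72G

open Finset Pool.Agent.MP72P IntermediateField

private theorem Fnm_abs {p d : ℕ} {J G M : Type} [Group G] [TopologicalSpace G] [AddCommGroup M]
    {Γ : J → Type} [∀ j, Group (Γ j)] {X : J → Type} [∀ j, AddCommGroup (X j)]
    (r : ∀ j, Γ j →* G) (ρ : G → M → M)
    (hadd : ∀ g x y, ρ g (x + y) = ρ g x + ρ g y)
    (R : ∀ j, (Γ j → M) → X j → Prop)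
    (hR : ∀ j f f' Y Y', R j f Y → R j f' Y' → R j (f + f') (Y + Y') ∧ R j (f - f') (Y - Y'))
    (hR0 : ∀ j f, R j f 0 → ∃ ε, ∀ g, f g = ε - ρ (r j g) ε)
    (T : J → Type) (t : ∀ j, T j → Γ j) (w₀ : J) (e : Fin d → Γ w₀)
    (hex : ∀ Y : ∀ j, X j, ∃ (f : ∀ j, Γ j → M) (ζ : (G → M) × (J → M)),
      (∀ j, R j (f j) (Y j)) ∧ Coc ρ ζ.1 ∧ ∀ j i, psi ρ ζ j (r j (t j i)) = f j (t j i))
    (η : (Fin d → M) →+ ZMod p)
    (hT : ∀ ζ : (G → M) × (J → M), Coc ρ ζ.1 →
      (∀ j i, psi ρ ζ j (r j (t j i)) = 0) → η (fun i => psi ρ ζ w₀ (r w₀ (e i))) = 0) :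
    ∃ lam : (∀ j, X j) →+ ZMod p, ∀ (Y : ∀ j, X j) (f : ∀ j, Γ j → M)
      (ζ : (G → M) × (J → M)),
      (∀ j, R j (f j) (Y j)) → Coc ρ ζ.1 →
      (∀ j i, psi ρ ζ j (r j (t j i)) = f j (t j i)) →
      lam Y = η fun i => f w₀ (e i) - psi ρ ζ w₀ (r w₀ (e i)) := by
  have hsub : ∀ g x y, ρ g (x - y) = ρ g x - ρ g y := fun g x y => by
    have h1 := hadd g (x - y) y
    rw [sub_add_cancel] at h1
    rw [h1, add_sub_cancel_right]
  have hpa : ∀ (ζ ζ' : (G → M) × (J → M)) w g,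
      psi ρ (ζ + ζ') w g = psi ρ ζ w g + psi ρ ζ' w g := fun ζ ζ' w g => by
    simp only [psi, Prod.fst_add, Prod.snd_add, Pi.add_apply, hadd]
    abel
  have hps : ∀ (ζ ζ' : (G → M) × (J → M)) w g,
      psi ρ (ζ - ζ') w g = psi ρ ζ w g - psi ρ ζ' w g := fun ζ ζ' w g => by
    simp only [psi, Prod.fst_sub, Prod.snd_sub, Pi.sub_apply, hsub]
    abel
  have hca : ∀ Z Z' : G → M, Coc ρ Z → Coc ρ Z' → Coc ρ (Z + Z') :=
    fun Z Z' hZ hZ' => ⟨hZ.loc.add hZ'.loc, fun g h => by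
      simp only [Pi.add_apply, hZ.mul, hZ'.mul, hadd]
      abel⟩
  have hcs : ∀ Z Z' : G → M, Coc ρ Z → Coc ρ Z' → Coc ρ (Z - Z') :=
    fun Z Z' hZ hZ' => ⟨hZ.loc.sub hZ'.loc, fun g h => by
      simp only [Pi.sub_apply, hZ.mul, hZ'.mul, hsub]
      abel⟩
  -- independence of the choices
  have hV : ∀ (Y : ∀ j, X j) (f f' : ∀ j, Γ j → M)
      (ζ ζ' : (G → M) × (J → M)),
      (∀ j, R j (f j) (Y j)) → (∀ j, R j (f' j) (Y j)) → Coc ρ ζ.1 → Coc ρ ζ'.1 →
      (∀ j i, psi ρ ζ j (r j (t j i)) = f j (t j i)) →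
      (∀ j i, psi ρ ζ' j (r j (t j i)) = f' j (t j i)) →
      (η fun i => f w₀ (e i) - psi ρ ζ w₀ (r w₀ (e i))) =
        η fun i => f' w₀ (e i) - psi ρ ζ' w₀ (r w₀ (e i)) := by
    intro Y f f' ζ ζ' hf hf' hζ hζ' ht ht'
    have h1 : ∀ j, ∃ ε : M, ∀ g, (f j - f' j) g = ε - ρ (r j g) ε := by
      intro j
      have h2 := (hR j _ _ _ _ (hf j) (hf' j)).2
      rw [sub_self] at h2
      exact hR0 j _ h2
    choose ε hε using h1
    have h3 : ∀ j g, psi ρ (ζ - ζ' + (0, ε)) j (r j g) =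
        psi ρ ζ j (r j g) - psi ρ ζ' j (r j g) - (f j g - f' j g) := by
      intro j g
      rw [hpa, hps]
      have h4 : psi ρ ((0, ε) : (G → M) × (J → M)) j
          (r j g) = -(ε j - ρ (r j g) (ε j)) := by
        simp only [psi, Pi.zero_apply, zero_sub]
      rw [h4, ← hε j g, Pi.sub_apply]
      abel
    have h5 : Coc ρ (ζ - ζ' + (0, ε)).1 := by
      have h6 := hcs _ _ hζ hζ'
      have h7 : (ζ - ζ' + ((0, ε) : (G → M) × (J → M))).1 = ζ.1 - ζ'.1 := by
        simp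
      rw [h7]
      exact h6
    have h8 := hT _ h5 (fun j i => by
      rw [h3, ht, ht']
      abel)
    have h9 : (fun i => psi ρ (ζ - ζ' + (0, ε)) w₀ (r w₀ (e i))) =
        (fun i => f' w₀ (e i) - psi ρ ζ' w₀ (r w₀ (e i))) -
          fun i => f w₀ (e i) - psi ρ ζ w₀ (r w₀ (e i)) := by
      funext i
      rw [h3, Pi.sub_apply]
      abel
    rw [h9, map_sub, sub_eq_zero] at h8
    exact h8.symm
  choose f ζ hf hζ ht using hex
  obtain ⟨V, hVd⟩ : ∃ V : (∀ j, X j) → ZMod p, ∀ Y, V Y =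
    η fun i => f Y w₀ (e i) - psi ρ (ζ Y) w₀ (r w₀ (e i)) := ⟨_, fun _ => rfl⟩
  have hV1 : ∀ (Y : ∀ j, X j) (f' : ∀ j, Γ j → M) (ζ' : (G → M) × (J → M)),
      (∀ j, R j (f' j) (Y j)) → Coc ρ ζ'.1 →
      (∀ j i, psi ρ ζ' j (r j (t j i)) = f' j (t j i)) →
      V Y = η fun i => f' w₀ (e i) - psi ρ ζ' w₀ (r w₀ (e i)) := by
    intro Y f' ζ' hf' hζ' ht'
    rw [hVd]
    exact hV Y (f Y) f' (ζ Y) ζ' (hf Y) hf' (hζ Y) hζ' (ht Y) ht'
  refine ⟨AddMonoidHom.mk' V fun Y Y' => ?_, hV1⟩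
  rw [hV1 (Y + Y') (f Y + f Y') (ζ Y + ζ Y') (fun j => (hR j _ _ _ _ (hf Y j) (hf Y' j)).1)
    (hca _ _ (hζ Y) (hζ Y')) (fun j i => by
      rw [hpa, ht, ht]
      rfl), hVd, hVd, ← map_add]
  refine congrArg η (funext fun i => ?_)
  rw [hpa]
  simp only [Pi.add_apply]
  abel

/-- Linear combinations of fixed vectors with coefficients in the base field are fixed. -/
private theorem Fnm_fx {p : ℕ} {k L I M : Type} [Field k] [Field L] [Algebra k L] [Fintype I]
    [DecidableEq I] [AddCommGroup M] (B : M ≃+ (I → ZMod p)) (ρ : Gal(L/k) → M → M)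
    (P : I → I → L) (hP : ∀ i, FxV B ρ fun a => P a i) (c : I → k) :
    FxV B ρ fun a => ∑ i, P a i * algebraMap k L (c i) := by
  intro g
  funext a
  have h1 : ∀ i, ∑ x, op L (B (ρ g (bs B x)) a) * g (P x i) = P a i := fun i =>
    congrFun (hP i g) a
  change ∑ x, op L (B (ρ g (bs B x)) a) * g (∑ i, P x i * algebraMap k L (c i)) = _
  have h2 : ∀ x, op L (B (ρ g (bs B x)) a) * g (∑ i, P x i * algebraMap k L (c i)) =
      ∑ i, op L (B (ρ g (bs B x)) a) * g (P x i) * algebraMap k L (c i) := by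
    intro x
    rw [map_sum, Finset.mul_sum]
    refine Finset.sum_congr rfl fun i _ => ?_
    rw [map_mul, AlgEquiv.commutes, mul_assoc]
  rw [Finset.sum_congr rfl fun x _ => h2 x, Finset.sum_comm]
  refine Finset.sum_congr rfl fun i _ => ?_
  rw [← Finset.sum_mul, h1]

theorem tFnm (h1 : S_Uni2) (h2 : S_Dsc) (h3 : S_Sep) (h4 : S_Hst) (h5 : S_Rgo) (h6 : S_Lin3)
    (h7 : S_Sac) (h8 : S_Rlm) (h9 : S_Rls) : S_Fnm := by
  classical
  intro p _ K _ _ hG J av α h ι d T t w₀ e y b hT I M _ _ _ _ B ρ hρ η hη P Q _ hP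
  have _ := h2
  have _ := h5
  obtain ⟨-, -, -, -, -, -, hch, hh2, -⟩ := h4 p K hG J av α h hT.hs
  have hnz : NeZero p := ⟨(Fact.out : p.Prime).ne_zero⟩
  have hcard : Nat.card M = p ^ Fintype.card I := by
    rw [Nat.card_congr B.toEquiv, Nat.card_eq_fintype_card, Fintype.card_fun, ZMod.card]
  have hL : ActL ρ := ⟨hρ.add, hρ.one, hρ.mul, hρ.loc⟩
  obtain ⟨hu, -⟩ := h1 p (GS p av α) J d (omS p av α) (DS p av α ι) (tsH p av α ι t w₀ e y) hch hh2
    hT.ok M (Fintype.card I) hcard ρ hρ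
  obtain ⟨-, hl2, -⟩ := h6 p (GS p av α) J d (omS p av α) (DS p av α ι) (tsH p av α ι t w₀ e y) hch
    hh2 hT.ok M (Fintype.card I) hcard ρ hρ
  have hchp : ∀ j, CharP (av j).Completion p := fun j =>
    charP_of_injective_algebraMap (algebraMap K (av j).Completion).injective p
  have hchk : ∀ j, CharP (Kvs (av j)) p := fun j =>
    charP_of_injective_algebraMap (algebraMap (av j).Completion (Kvs (av j))).injective p
  have hrls := fun j => h9 p K hG J av α h hT.hs (av j) (hchk j) (ι j) I M B ρ hL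
  have hrl := fun j => h8 p (av j).Completion (Kvs (av j)) I M B
    (fun g => ρ (rOm p av α (ι j) g)) (hrls j).1
  have hfb : ∀ j, ∀ z z' : I → Kvs (av j), fb p (z + z') = fb p z + fb p z' := fun j =>
    (h7 p (Kvs (av j)) I M B).1.2.2.2.2.1
  have hfs : ∀ j, ∀ z z' : I → Kvs (av j), fb p (z - z') = fb p z - fb p z' := fun j z z' => by
    have h10 := hfb j (z - z') z'
    rw [sub_add_cancel] at h10
    rw [h10, add_sub_cancel_right]
  suffices hmain : ∃ lam : (∀ j, I → (av j).Completion) →+ ZMod p,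
      ∀ (Y : ∀ j, I → (av j).Completion) (f : ∀ j, Gal(Kvs (av j)/(av j).Completion) → M)
        (ζ : (GS p av α → M) × (J → M)),
        (∀ j, ∃ yy : I → Kvs (av j), RlM B (fun g => ρ (rOm p av α (ι j) g)) (f j) yy ∧
          ∀ a, fb p yy a =
            ∑ i, ι j (P a i : Kgs K) * algebraMap (av j).Completion (Kvs (av j)) (Y j i)) →
        Coc ρ ζ.1 →
        (∀ j (i : T j), psi ρ ζ j (rOm p av α (ι j) (t j i)) = f j (t j i)) →
        lam Y = η fun i => f w₀ (e i) - psi ρ ζ w₀ (rOm p av α (ι w₀) (e i)) by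
    obtain ⟨lam, hlam⟩ := hmain
    exact ⟨lam, fun Y yy f ζ hf1 hf2 hζ1 hζ2 =>
      hlam Y f ζ (fun j => ⟨yy j, hf1 j, hf2 j⟩) hζ1 hζ2⟩
  refine Fnm_abs (p := p) (d := d) (M := M) (X := fun j => I → (av j).Completion)
    (fun j => rOm p av α (ι j)) ρ hρ.add
    (fun j f Y => ∃ yy : I → Kvs (av j), RlM B (fun g => ρ (rOm p av α (ι j) g)) f yy ∧
      ∀ a, fb p yy a = ∑ i, ι j (P a i : Kgs K) * algebraMap (av j).Completion (Kvs (av j)) (Y i))
    (fun j f f' Y Y' => by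
      rintro ⟨z, hz1, hz2⟩ ⟨z', hz1', hz2'⟩
      obtain ⟨h10, h11⟩ := (hrl j).2.2.1 f f' z z' hz1 hz1'
      refine ⟨⟨z + z', h10, fun a => ?_⟩, ⟨z - z', h11, fun a => ?_⟩⟩
      · rw [hfb, Pi.add_apply, hz2, hz2', ← Finset.sum_add_distrib]
        refine Finset.sum_congr rfl fun i _ => ?_
        rw [Pi.add_apply, map_add, mul_add]
      · rw [hfs, Pi.sub_apply, hz2, hz2', ← Finset.sum_sub_distrib]
        refine Finset.sum_congr rfl fun i _ => ?_
        rw [Pi.sub_apply, map_sub, mul_sub])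
    (fun j f => by
      rintro ⟨z, hz1, hz2⟩
      have h10 : fb p z = 0 := by
        funext a
        rw [hz2]
        refine Finset.sum_eq_zero fun i _ => ?_
        rw [Pi.zero_apply, map_zero, mul_zero]
      obtain ⟨m, hm⟩ := (hrl j).2.2.2.1 f z hz1 h10
      refine ⟨-m, fun g => ?_⟩
      have h11 : ρ (rOm p av α (ι j) g) (-m) = - ρ (rOm p av α (ι j) g) m := by
        have h12 := hρ.add (rOm p av α (ι j) g) (-m) m
        have h13 := hρ.add (rOm p av α (ι j) g) 0 0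
        rw [add_zero] at h13
        rw [neg_add_cancel, left_eq_add.1 h13] at h12
        exact eq_neg_of_add_eq_zero_left h12.symm
      rw [hm g, h11]
      abel) T t w₀ e (fun Y => ?_) η (fun ζ hζ1 hζ2 => ?_)
  · have h10 : ∀ j, ∃ (f : Gal(Kvs (av j)/(av j).Completion) → M) (yy : I → Kvs (av j)),
        RlM B (fun g => ρ (rOm p av α (ι j) g)) f yy ∧
        ∀ a, fb p yy a =
          ∑ i, ι j (P a i : Kgs K) * algebraMap (av j).Completion (Kvs (av j)) (Y j i) := by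
      intro j
      have h11 := (h3 p (av j).Completion 1 1 one_ne_zero (by rw [one_pow, map_one])).2.1
      have h12 : ∀ a, ∃ x : Kvs (av j), x ^ p - x =
          ∑ i, ι j (P a i : Kgs K) * algebraMap (av j).Completion (Kvs (av j)) (Y j i) := by
        intro a
        obtain ⟨x, hx⟩ := h11 (∑ i, ι j (P a i : Kgs K) *
          algebraMap (av j).Completion (Kvs (av j)) (Y j i))
        rw [Ph, one_pow, one_mul] at hx
        exact ⟨x, hx⟩
      choose yy hyy using h12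
      have h13 : FxV B (fun g => ρ (rOm p av α (ι j) g)) (fb p yy) := by
        have h14 : fb p yy = fun a =>
            ∑ i, ι j (P a i : Kgs K) * algebraMap (av j).Completion (Kvs (av j)) (Y j i) :=
          funext fun a => hyy a
        rw [h14]
        exact Fnm_fx B (fun g => ρ (rOm p av α (ι j) g)) (fun a i => ι j (P a i : Kgs K))
          (fun i => (hrls j).2.2.1 (fun a => P a i) (hP i)) (Y j)
      obtain ⟨f, hf⟩ := (hrl j).1 yy h13
      exact ⟨f, yy, hf, hyy⟩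
    choose f yy hf1 hf2 using h10
    have hcf : ∀ j, Coc (fun g => ρ (rOm p av α (ι j) g)) (f j) := fun j =>
      ((hrl j).2.1 (f j) (yy j) (hf1 j)).2
    have hfin : {i : (w : J) × T w | f i.1 (t i.1 i.2) ≠ 0}.Finite := by
      have := hT.hs.fin
      have h11 : ∀ j, {i : T j | f j (t j i) ≠ 0}.Finite := by
        intro j
        have h12 : f j 1 = 0 := by
          have h13 := (hcf j).mul 1 1
          rw [mul_one, map_one, hρ.one] at h13
          exact left_eq_add.1 h13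
        exact hT.lt.conv j {g | f j g = 0} ((hcf j).loc.isOpen_fiber 0) h12
      have h13 : {i : (w : J) × T w | f i.1 (t i.1 i.2) ≠ 0} =
          ⋃ j, (fun i : T j => (⟨j, i⟩ : (w : J) × T w)) '' {i : T j | f j (t j i) ≠ 0} := by
        ext ⟨j, i⟩
        simp only [Set.mem_ofPred_eq, Set.mem_iUnion, Set.mem_image]
        constructor
        · intro h14
          exact ⟨j, i, h14, rfl⟩
        · rintro ⟨j', i', h14, h15⟩
          obtain ⟨rfl, h16⟩ := Sigma.mk.inj h15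
          obtain rfl := eq_of_heq h16
          exact h14
      rw [h13]
      exact Set.finite_iUnion fun j => (h11 j).image _
    obtain ⟨ζ, ⟨hζ1, hζ2, -⟩, -⟩ := hu (fun i => f i.1 (t i.1 i.2)) hfin fun _ => 0
    exact ⟨f, ζ, fun j => ⟨yy j, hf1 j, hf2 j⟩, hζ1, fun j i => hζ2 ⟨j, i⟩⟩
  · have h10 : IsS (tsH p av α ι t w₀ e y) ρ ((tsH p av α ι t w₀ e y).co ζ) ζ :=
      ⟨hζ1, fun i => hζ2 i.1 i.2, fun k => rfl⟩
    have h11 := hl2 _ ζ h10
    have h12 := hη ((tsH p av α ι t w₀ e y).co ζ)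
    have h13 : (Ts (tsH p av α ι t w₀ e y) ρ ((tsH p av α ι t w₀ e y).co ζ)) =
        fun i => psi ρ ζ w₀ (rOm p av α (ι w₀) (e i)) := by
      funext i
      rw [Ts, ← h11]
      rfl
    rw [h13] at h12
    exact h12

end Pool.Agent.MP72G
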