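import Pool.Agent.Lib.MP_72e2e6_nt.P4.V.Spec

/-!
# MP_72e2e6_nt, theorem T4, part V: Fnp (properties of the functional)
-/

set_option autoImplicit false

namespace Pool.Agent.MP72G

open Finset Pool.Agent.MP72P IntermediateField

private theorem fnp_sac0 {p : ℕ} {I M L : Type} [Fintype I] [DecidableEq I] [AddCommGroup M]
    [Field L] (B : M ≃+ (I → ZMod p)) (f : M → M) (σ : L → L) (h : σ 0 = 0) :
    sac B f σ (0 : I → L) = 0 := by
  funext i
  unfold sac mpt
  refine sum_eq_zero fun k _ => ?_
  show op L _ * σ 0 = 0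
  rw [h, mul_zero]

private theorem fnp_em0 {p : ℕ} [Fact p.Prime] {I M : Type} [Fintype I] [DecidableEq I]
    [AddCommGroup M] (L : Type) [Field L] (B : M ≃+ (I → ZMod p)) : em B L (0 : M) = 0 := by
  funext i
  unfold em op
  rw [map_zero, Pi.zero_apply, Pi.zero_apply, ZMod.val_zero, Nat.cast_zero]

/-- The semilinear action on a combination of fixed columns. -/
private theorem fnp_sac (h5 : S_Sac) (p : ℕ) [Fact p.Prime] (L : Type) [Field L] [CharP L p]
    (I M : Type) [Fintype I] [DecidableEq I] [AddCommGroup M] (B : M ≃+ (I → ZMod p))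
    (f : M → M) (hf : ∀ m m', f (m + m') = f m + f m') (σ : L →+* L) (P : Matrix I I L)
    (hP : ∀ i, sac B f σ (fun a => P a i) = fun a => P a i) (u : I → L) :
    sac B f σ (fun a => ∑ i, P a i * u i) = fun a => ∑ i, P a i * σ (u i) := by
  obtain ⟨-, -, -, h4, -⟩ := h5 p L I M B
  obtain ⟨hadd, hsm, -⟩ := h4 f hf σ
  have h0 : sac B f σ (0 : I → L) = 0 := by
    have := hadd 0 0
    rw [add_zero] at this
    exact left_eq_add.mp this
  let Φ : (I → L) →+ (I → L) :=
    { toFun := sac B f σ
      map_zero' := h0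
      map_add' := hadd }
  have e1 : (fun a => ∑ i, P a i * u i) = ∑ i, u i • fun a => P a i := by
    funext a
    rw [Finset.sum_apply]
    refine Finset.sum_congr rfl fun i _ => ?_
    rw [Pi.smul_apply, smul_eq_mul, mul_comm]
  have e2 : sac B f σ (∑ i, u i • fun a => P a i) = ∑ i, sac B f σ (u i • fun a => P a i) :=
    map_sum Φ _ _
  rw [e1, e2]
  funext a
  rw [Finset.sum_apply]
  refine Finset.sum_congr rfl fun i _ => ?_
  rw [hsm, hP i, Pi.smul_apply, smul_eq_mul, mul_comm]

/-- The equation `U φ(u) - u = Y` for small `Y`. -/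
private theorem fnp_con {L I : Type} [NormedField L] [CompleteSpace L] [Fintype I]
    (p : ℕ) [Fact p.Prime] [CharP L p] (U : I → I → L) :
    ∃ r : ℝ, 0 < r ∧ ∀ Y : I → L, (∀ i, ‖Y i‖ ≤ r) → ∃ u : I → L,
      ∀ l, ∑ i, U l i * u i ^ p - u l = Y l := by
  have hp2 : 2 ≤ p := (Fact.out : p.Prime).two_le
  set C : ℝ := ∑ l, ∑ i, ‖U l i‖ with hC
  have hC0 : 0 ≤ C := Finset.sum_nonneg fun l _ => Finset.sum_nonneg fun i _ => norm_nonneg _
  have hU : ∀ (l : I) (w : I → L) (s : ℝ), 0 ≤ s → (∀ i, ‖w i‖ ≤ s) →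
      ‖∑ i, U l i * w i‖ ≤ C * s := by
    intro l w s hs hw
    calc ‖∑ i, U l i * w i‖ ≤ ∑ i, ‖U l i * w i‖ := norm_sum_le _ _
      _ ≤ ∑ i, ‖U l i‖ * s := Finset.sum_le_sum fun i _ => by
          rw [norm_mul]
          exact mul_le_mul_of_nonneg_left (hw i) (norm_nonneg _)
      _ = (∑ i, ‖U l i‖) * s := by rw [Finset.sum_mul]
      _ ≤ C * s := by
          refine mul_le_mul_of_nonneg_right ?_ hs
          exact Finset.single_le_sum (f := fun l => ∑ i, ‖U l i‖)
            (fun l _ => Finset.sum_nonneg fun i _ => norm_nonneg _) (Finset.mem_univ l)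
  obtain ⟨r, hr⟩ : ∃ r : ℝ, r = 1 / (4 * (C + 1)) := ⟨_, rfl⟩
  have hr0 : 0 < r := by rw [hr]; positivity
  have hCr : C * r ≤ 1 / 4 := by
    rw [hr, mul_one_div, div_le_div_iff₀ (by positivity) (by norm_num)]
    linarith
  have hr1 : r ≤ 1 / 4 := by
    rw [hr, div_le_div_iff₀ (by positivity) (by norm_num)]
    linarith
  have hpow : ∀ x s : ℝ, 0 ≤ x → x ≤ s → s ≤ 1 → x ^ p ≤ s * x := by
    intro x s hx hxs hs
    calc x ^ p ≤ x ^ 2 := pow_le_pow_of_le_one hx (hxs.trans hs) hp2
      _ = x * x := sq x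
      _ ≤ s * x := mul_le_mul_of_nonneg_right hxs hx
  refine ⟨r / 2, by positivity, fun Y hY => ?_⟩
  let F : (I → L) → (I → L) := fun u l => ∑ i, U l i * u i ^ p - Y l
  have hmaps : Set.MapsTo F (Metric.closedBall 0 r) (Metric.closedBall 0 r) := by
    intro u hu
    rw [mem_closedBall_zero_iff, pi_norm_le_iff_of_nonneg hr0.le] at hu ⊢
    intro l
    have e1 : ‖∑ i, U l i * u i ^ p‖ ≤ C * (r * r) := by
      refine hU l (fun i => u i ^ p) (r * r) (by positivity) fun i => ?_
      rw [norm_pow]
      refine (hpow _ r (norm_nonneg _) (hu i) (by linarith)).trans ?_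
      exact mul_le_mul_of_nonneg_left (hu i) hr0.le
    have e2 : C * (r * r) ≤ 1 / 4 * r := by
      rw [← mul_assoc]
      exact mul_le_mul_of_nonneg_right hCr hr0.le
    calc ‖F u l‖ ≤ ‖∑ i, U l i * u i ^ p‖ + ‖Y l‖ := norm_sub_le _ _
      _ ≤ 1 / 4 * r + r / 2 := add_le_add (e1.trans e2) (hY l)
      _ ≤ r := by linarith
  have hlip : ContractingWith (1 / 2)
      (hmaps.restrict F (Metric.closedBall 0 r) (Metric.closedBall 0 r)) := by
    refine ⟨by norm_num, LipschitzWith.of_dist_le_mul fun x y => ?_⟩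
    obtain ⟨u, hu⟩ := x
    obtain ⟨w, hw⟩ := y
    change dist (F u) (F w) ≤ ((1 / 2 : NNReal) : ℝ) * dist u w
    rw [mem_closedBall_zero_iff, pi_norm_le_iff_of_nonneg hr0.le] at hu hw
    rw [dist_eq_norm, dist_eq_norm, pi_norm_le_iff_of_nonneg (by positivity)]
    intro l
    have e1 : (F u - F w) l = ∑ i, U l i * (u i - w i) ^ p := by
      change (∑ i, U l i * u i ^ p - Y l) - (∑ i, U l i * w i ^ p - Y l) = _
      rw [sub_sub_sub_cancel_right, ← Finset.sum_sub_distrib]
      refine Finset.sum_congr rfl fun i _ => ?_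
      rw [sub_pow_char, mul_sub]
    rw [e1]
    have e2 : ∀ i, ‖(u i - w i) ^ p‖ ≤ 2 * r * ‖u - w‖ := by
      intro i
      rw [norm_pow]
      have e3 : ‖u i - w i‖ ≤ 2 * r := by
        refine (norm_sub_le _ _).trans ?_
        linarith [hu i, hw i]
      refine (hpow _ (2 * r) (norm_nonneg _) e3 (by linarith)).trans ?_
      exact mul_le_mul_of_nonneg_left (norm_le_pi_norm (u - w) i) (by positivity)
    refine (hU l _ _ (by positivity) e2).trans ?_
    have e4 : C * (2 * r * ‖u - w‖) = 2 * (C * r) * ‖u - w‖ := by ring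
    rw [e4]
    refine mul_le_mul_of_nonneg_right ?_ (norm_nonneg _)
    push_cast
    linarith
  obtain ⟨u, -, hu, -⟩ := hlip.exists_fixedPoint'
    (Metric.isClosed_closedBall.isComplete) hmaps (x := 0)
    (Metric.mem_closedBall_self hr0.le) (edist_ne_top _ _)
  refine ⟨u, fun l => ?_⟩
  have e1 : ∑ i, U l i * u i ^ p - Y l = u l := congrFun hu l
  rw [← e1]
  ring

theorem tFnp (h1 : S_Dsc) (h2 : S_Lc1) (h3 : S_Sep) (h4 : S_Hst) (h5 : S_Rgo) (h6 : S_Sac)
    (h7 : S_Spe) (h8 : S_Trc) (h9 : S_Oin) (h10 : S_Rlm) (h11 : S_Rls) (h12 : S_Lcu) : S_Fnp := by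
  have _ := h1
  have _ := h2
  have _ := h3
  have _ := h5
  intro p _ K _ _ hK J av α h ι d T t w₀ e y b HT I M _ _ _ _ B ρ hρ η P Q hPQ hPf lam hlam
  classical
  have hh := HT.hs
  have hL : ActL ρ := ⟨hρ.add, hρ.one, hρ.mul, hρ.loc⟩
  obtain ⟨-, -, hgal, -⟩ := h4 p K hK J av α h hh
  have hchO : CharP (OmS p av α) p :=
    charP_of_injective_algebraMap (algebraMap K (OmS p av α)).injective p
  have hch : ∀ j, CharP (av j).Completion p := fun j =>
    charP_of_injective_algebraMap (algebraMap K (av j).Completion).injective p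
  have hch' : ∀ j, CharP (Kvs (av j)) p := fun j => by
    have := hch j
    exact charP_of_injective_algebraMap (algebraMap (av j).Completion (Kvs (av j))).injective p
  have hρ0 : ∀ g, ρ g 0 = 0 := by
    intro g
    have := hρ.add g 0 0
    rw [add_zero] at this
    exact left_eq_add.mp this
  have hcoc0 : Coc ρ (0 : GS p av α → M) :=
    ⟨IsLocallyConstant.const 0, fun g g' => by simp [hρ0]⟩
  -- the embeddings
  let τ : ∀ j, OmS p av α →+* Kvs (av j) := fun j =>
    ((ι j).comp (OmS p av α).val : OmS p av α →ₐ[K] Kvs (av j))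
  have hτK : ∀ j (x : K), τ j (algebraMap K (OmS p av α) x) =
      algebraMap (av j).Completion (Kvs (av j)) (algebraMap K (av j).Completion x) := by
    intro j x
    have : τ j (algebraMap K (OmS p av α) x) = algebraMap K (Kvs (av j)) x :=
      AlgHom.commutes ((ι j).comp (OmS p av α).val) x
    rw [this]
    exact IsScalarTower.algebraMap_apply K (av j).Completion (Kvs (av j)) x
  have hτι : ∀ j (x : OmS p av α), ι j (x : Kgs K) = τ j x := fun j x => rfl
  -- elements `P u` with `u` in `K_j` are fixed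
  have hfixj : ∀ j (u : I → (av j).Completion), FxV B (fun g => ρ (rOm p av α (ι j) g))
      (fun a => ∑ i, τ j (P a i) * algebraMap (av j).Completion (Kvs (av j)) (u i)) := by
    intro j u g
    have := hch j
    have := hch' j
    obtain ⟨r1, -, r3, -⟩ := h11 p K hK J av α h hh (av j) (hch' j) (ι j) I M B ρ hL
    have e1 := fnp_sac h6 p (Kvs (av j)) I M B (ρ (rOm p av α (ι j) g)) (hρ.add _)
      (g : Kvs (av j) →+* Kvs (av j)) (P.map (τ j)) (fun i => r3 (fun a => P a i) (hPf i) g)
      (fun i => algebraMap (av j).Completion (Kvs (av j)) (u i))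
    refine e1.trans ?_
    funext a
    refine Finset.sum_congr rfl fun i _ => ?_
    change (P.map (τ j)) a i * g (algebraMap (av j).Completion (Kvs (av j)) (u i)) = _
    rw [AlgEquiv.commutes]
    rfl
  refine ⟨?_, ?_, ?_⟩
  · -- (1)
    intro Y hY
    obtain ⟨-, -, q3, -⟩ := h9 p K hK J av α h hh
    obtain ⟨z, hz⟩ : ∃ z : I → OmS p av α,
        z = fun a => ∑ i, P a i * algebraMap K (OmS p av α) (Y i) := ⟨_, rfl⟩
    have hzf : FxV B ρ z := by
      intro g
      rw [hz]
      have e1 := fnp_sac h6 p (OmS p av α) I M B (ρ g) (hρ.add g)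
        (g : OmS p av α →+* OmS p av α) P (fun i => hPf i g)
        (fun i => algebraMap K (OmS p av α) (Y i))
      refine e1.trans ?_
      funext a
      refine Finset.sum_congr rfl fun i _ => ?_
      change P a i * g (algebraMap K (OmS p av α) (Y i)) = _
      rw [AlgEquiv.commutes]
    have hθ : ∀ a, ∃ θ : OmS p av α, θ ^ p - θ = z a := by
      intro a
      obtain ⟨θ, -, hθ⟩ := q3 (z a) (by rw [hz]; exact hY a)
      exact ⟨θ, hθ⟩
    choose y' hy' using hθ
    have hfb : fb p y' = z := funext hy'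
    obtain ⟨m1, m2, -⟩ := h10 p K (OmS p av α) I M B ρ hL
    obtain ⟨c, hc⟩ := m1 y' (by rw [hfb]; exact hzf)
    obtain ⟨-, hcoc⟩ := m2 c y' hc
    have hval := hlam (fun j i => algebraMap K (av j).Completion (Y i))
      (fun j i => ι j (y' i : Kgs K)) (fun j g => c (rOm p av α (ι j) g)) (c, 0)
      (fun j => by
        have := hch' j
        obtain ⟨-, -, -, r4, -⟩ := h11 p K hK J av α h hh (av j) (hch' j) (ι j) I M B ρ hL
        exact r4 c y' hc)
      (fun j a => by
        have e1 : fb p (fun i => ι j (y' i : Kgs K)) a = τ j (y' a ^ p - y' a) := by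
          change (τ j (y' a)) ^ p - τ j (y' a) = _
          rw [map_sub, map_pow]
        rw [e1, hy' a, hz, map_sum]
        refine Finset.sum_congr rfl fun i _ => ?_
        rw [map_mul, hτK, hτι])
      hcoc (fun j i => by simp [psi, hρ0])
    rw [hval]
    have e1 : (fun i => c (rOm p av α (ι w₀) (e i)) -
        psi ρ (c, (0 : J → M)) w₀ (rOm p av α (ι w₀) (e i))) = 0 := by
      funext i
      simp [psi, hρ0]
    rw [e1, map_zero]
  · -- (2)
    have hfin := hh.fin
    have hnem := hh.nem
    -- the matrix `U`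
    obtain ⟨-, -, -, hsac, -⟩ := h6 p (OmS p av α) I M B
    obtain ⟨-, s2⟩ := h7 p K (OmS p av α) I M B ρ hL
    have hPp : ∀ i, ∃ c : I → K, ∀ a, P a i ^ p = ∑ l, P a l * algebraMap K (OmS p av α) (c l) := by
      intro i
      refine (s2 P Q hPQ hPf fun a => P a i ^ p).mp fun g => ?_
      obtain ⟨-, -, -, -, t5, -⟩ := hsac (ρ g) (hρ.add g) (g : OmS p av α →+* OmS p av α)
      have e1 := t5 fun a => P a i
      refine e1.symm.trans ?_
      have e2 : sac B (ρ g) g (fun a => P a i) = fun a => P a i := hPf i g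
      funext a
      change (sac B (ρ g) g (fun a => P a i) a) ^ p = _
      rw [e2]
    choose U hU using hPp
    have hb : ∀ j, ∃ r : ℝ, 0 < r ∧ ∀ Y : I → (av j).Completion,
        (∀ i, ‖Y i‖ ≤ r) → ∃ u : I → (av j).Completion,
          ∀ l, ∑ i, algebraMap K (av j).Completion (U i l) * u i ^ p - u l = Y l := by
      intro j
      have := hch j
      exact fnp_con p fun l i => algebraMap K (av j).Completion (U i l)
    choose r hr0 hr using hb
    obtain ⟨j₀, hj₀⟩ := Finite.exists_min r
    refine ⟨r j₀, hr0 j₀, fun Y hY => ?_⟩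
    have hu : ∀ j, ∃ u : I → (av j).Completion,
        ∀ l, ∑ i, algebraMap K (av j).Completion (U i l) * u i ^ p - u l = Y j l :=
      fun j => hr j (Y j) fun i => (hY j i).trans (hj₀ j)
    choose u hu using hu
    have hval := hlam Y
      (fun j a => ∑ i, τ j (P a i) * algebraMap (av j).Completion (Kvs (av j)) (u j i))
      (fun j _ => 0) 0
      (fun j => by
        have := hch j
        have := hch' j
        obtain ⟨r1, -⟩ := h11 p K hK J av α h hh (av j) (hch' j) (ι j) I M B ρ hL
        obtain ⟨-, -, -, -, -, s6, -⟩ := h10 p (av j).Completion (Kvs (av j)) I M B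
          (fun g => ρ (rOm p av α (ι j) g)) r1
        exact s6 _ (hfixj j (u j)))
      (fun j a => by
        have := hch j
        have := hch' j
        have e1 : (∑ i, τ j (P a i) * algebraMap (av j).Completion (Kvs (av j)) (u j i)) ^ p =
            ∑ l, τ j (P a l) * algebraMap (av j).Completion (Kvs (av j))
              (∑ i, algebraMap K (av j).Completion (U i l) * u j i ^ p) := by
          rw [sum_pow_char]
          have e2 : ∀ i, (τ j (P a i) * algebraMap (av j).Completion (Kvs (av j)) (u j i)) ^ p =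
              ∑ l, τ j (P a l) * (algebraMap (av j).Completion (Kvs (av j))
                (algebraMap K (av j).Completion (U i l) * u j i ^ p)) := by
            intro i
            rw [mul_pow, ← map_pow, hU i a, map_sum, Finset.sum_mul]
            refine Finset.sum_congr rfl fun l _ => ?_
            rw [map_mul, hτK, map_mul, map_pow, mul_assoc]
          rw [Finset.sum_congr rfl fun i _ => e2 i, Finset.sum_comm]
          refine Finset.sum_congr rfl fun l _ => ?_
          rw [map_sum, Finset.mul_sum]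
        change (∑ i, τ j (P a i) * algebraMap (av j).Completion (Kvs (av j)) (u j i)) ^ p -
          ∑ i, τ j (P a i) * algebraMap (av j).Completion (Kvs (av j)) (u j i) = _
        rw [e1, ← Finset.sum_sub_distrib]
        refine Finset.sum_congr rfl fun l _ => ?_
        rw [← mul_sub, ← map_sub, hu j l, hτι])
      hcoc0 (fun j i => by simp [psi, hρ0])
    rw [hval]
    have e1 : (fun i : Fin d => (0 : M) -
        psi ρ (0 : (GS p av α → M) × (J → M)) w₀ (rOm p av α (ι w₀) (e i))) = 0 := by
      funext i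
      simp [psi, hρ0]
    rw [e1, map_zero]
  · -- (3)
    intro hη
    obtain ⟨m, hm⟩ := DFunLike.ne_iff.mp hη
    have hcard : Nat.card M = p ^ Fintype.card I := by
      rw [Nat.card_congr B.toEquiv, Nat.card_fun, Nat.card_zmod, Nat.card_eq_fintype_card]
    obtain ⟨f, hf1, hf2, hf3⟩ :=
      h12 p K hK J av α h ι d T t w₀ e y b HT M (Fintype.card I) hcard ρ hρ m
    have := hch w₀
    have := hch' w₀
    obtain ⟨r1, -, r3, -⟩ := h11 p K hK J av α h hh (av w₀) (hch' w₀) (ι w₀) I M B ρ hL
    obtain ⟨-, m2, -, -, -, -, m7⟩ := h10 p (av w₀).Completion (Kvs (av w₀)) I M B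
      (fun g => ρ (rOm p av α (ι w₀) g)) r1
    obtain ⟨yV, -, hyV⟩ := m7 ⊤ (h8 _ _) f hf1
    obtain ⟨hyf, -⟩ := m2 f yV hyV
    obtain ⟨-, s4⟩ := h7 p (av w₀).Completion (Kvs (av w₀)) I M B
      (fun g => ρ (rOm p av α (ι w₀) g)) r1
    have hτ : P.map (τ w₀) * Q.map (τ w₀) = 1 := by
      rw [← Matrix.map_mul, hPQ, Matrix.map_one (τ w₀) (map_zero _) (map_one _)]
    obtain ⟨c, hc⟩ := (s4 (P.map (τ w₀)) (Q.map (τ w₀)) hτ
      (fun i => r3 (fun a => P a i) (hPf i)) (fb p yV)).mp hyf
    -- the families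
    let yy : ∀ j, I → Kvs (av j) := Function.update (fun j => 0) w₀ yV
    let f' : ∀ j, Gal(Kvs (av j)/(av j).Completion) → M := Function.update (fun j => 0) w₀ f
    let Y : ∀ j, I → (av j).Completion := Function.update (fun j => 0) w₀ c
    have hyy : yy w₀ = yV := Function.update_self _ _ _
    have hff : f' w₀ = f := Function.update_self _ _ _
    have hYY : Y w₀ = c := Function.update_self _ _ _
    have hyy' : ∀ j, j ≠ w₀ → yy j = 0 := fun j hj => Function.update_of_ne hj _ _
    have hff' : ∀ j, j ≠ w₀ → f' j = 0 := fun j hj => Function.update_of_ne hj _ _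
    have hYY' : ∀ j, j ≠ w₀ → Y j = 0 := fun j hj => Function.update_of_ne hj _ _
    have hval := hlam Y yy f' 0
      (fun j => by
        by_cases hj : j = w₀
        · subst hj
          rw [hyy, hff]
          exact hyV
        · rw [hyy' j hj, hff' j hj]
          intro g
          rw [fnp_sac0 _ _ _ (map_zero g)]
          show (0 : I → Kvs (av j)) = 0 + em B (Kvs (av j)) 0
          rw [fnp_em0, add_zero])
      (fun j a => by
        by_cases hj : j = w₀
        · subst hj
          rw [hyy, hYY]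
          exact hc a
        · rw [hyy' j hj, hYY' j hj]
          unfold fb
          rw [Pi.zero_apply, zero_pow (Fact.out : p.Prime).ne_zero, sub_zero]
          refine (Finset.sum_eq_zero fun i _ => ?_).symm
          rw [Pi.zero_apply, map_zero, mul_zero])
      hcoc0
      (fun j i => by
        have e0 : f' j (t j i) = 0 := by
          by_cases hj : j = w₀
          · subst hj
            rw [hff]
            exact hf2 i
          · rw [hff' j hj]
            rfl
        rw [e0]
        simp [psi, hρ0])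
    have e1 : (fun i => f' w₀ (e i) -
        psi ρ (0 : (GS p av α → M) × (J → M)) w₀ (rOm p av α (ι w₀) (e i))) = m := by
      funext i
      rw [hff, hf3]
      simp [psi, hρ0]
    rw [e1] at hval
    intro h0
    rw [h0] at hval
    exact hm (by rw [← hval]; rfl)

end Pool.Agent.MP72G
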