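import Pool.Agent.Lib.MP_72e2e6_nt.P4.V.Spec

/-! Hilbert 90 for `M ⊗ O`. -/

set_option autoImplicit false

namespace Pool.Agent.MP72G

open Pool.Agent.MP72P

/-- shift of the summation -/
private theorem had_shift {G A : Type} [Group G] [AddCommMonoid A] {U : Subgroup G}
    [Fintype (G ⧸ U)] (F : G → A) (hF : ∀ g, ∀ u ∈ U, F (g * u) = F g) (γ : G) :
    ∑ q : G ⧸ U, F (γ * Quotient.out q) = ∑ q : G ⧸ U, F (Quotient.out q) := by
  have h1 : ∀ q : G ⧸ U, F (γ * Quotient.out q) = F (Quotient.out (γ • q)) := by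
    intro q
    have h2 : γ • q = ((γ * Quotient.out q : G) : G ⧸ U) := by
      conv_lhs => rw [← QuotientGroup.out_eq' q]
      rfl
    obtain ⟨u, hu⟩ := QuotientGroup.mk_out_eq_mul U (γ * Quotient.out q)
    rw [h2, hu]
    exact (hF _ _ u.2).symm
  simp only [h1]
  exact Equiv.sum_comp (MulAction.toPerm γ : Equiv.Perm (G ⧸ U)) fun q => F (Quotient.out q)

/-- open normal subgroups acting trivially -/
private theorem had_open {k L M : Type} [Field k] [Field L] [Algebra k L] [IsGalois k L]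
    [AddCommGroup M] [Finite M] {ρ : Gal(L/k) → M → M} (hρ : ActL ρ) (A : Set Gal(L/k))
    (hA : A ∈ nhds (1 : Gal(L/k))) :
    ∃ E : IntermediateField k L, FiniteDimensional k E ∧ Normal k E ∧
      (∀ g ∈ E.fixingSubgroup, g ∈ A) ∧ ∀ g ∈ E.fixingSubgroup, ∀ m, ρ g m = m := by
  have h1 : (⋂ m : M, {g : Gal(L/k) | ρ g m = m}) ∈ nhds (1 : Gal(L/k)) := by
    rw [Filter.iInter_mem]
    intro m
    exact ((hρ.loc m).isOpen_fiber m).mem_nhds (hρ.one m)
  obtain ⟨E, hE1, hE2, hE⟩ := (krullTopology_mem_nhds_one_iff_of_normal k L _).1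
    (Filter.inter_mem hA h1)
  refine ⟨E, hE1, hE2, fun g hg => (hE hg).1, fun g hg m => ?_⟩
  exact Set.mem_iInter.1 (hE hg).2 m

theorem tHad (h1 : S_Sac) : S_Had := by
  intro p _ k L _ _ _ _ _ _ O hO I M _ _ _ _ B ρ hρ b hbO hbc hU0
  classical
  obtain ⟨U₀, hU₀, hb0⟩ := hU0
  obtain ⟨-, -, -, hS, -⟩ := h1 p L I M B
  have hadd : ∀ (g : Gal(L/k)) (y y' : I → L), sac B (ρ g) g (y + y') =
      sac B (ρ g) g y + sac B (ρ g) g y' := fun g => (hS (ρ g) (hρ.add g) (g : L →+* L)).1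
  have hsmul : ∀ (g : Gal(L/k)) (c : L) (y : I → L), sac B (ρ g) g (c • y) =
      g c • sac B (ρ g) g y := fun g => (hS (ρ g) (hρ.add g) (g : L →+* L)).2.1
  let S : Gal(L/k) → (I → L) →+ (I → L) := fun g => AddMonoidHom.mk' (sac B (ρ g) g) (hadd g)
  obtain ⟨E, hE1, hE2, hE3, hE4⟩ := had_open hρ (U₀ : Set Gal(L/k)) (hU₀.mem_nhds U₀.one_mem)
  have hUo : IsOpen (E.fixingSubgroup : Set Gal(L/k)) := E.fixingSubgroup_isOpen
  have : IsGalois k E := ⟨⟩
  have hUn : E.fixingSubgroup.Normal := inferInstance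
  obtain ⟨x, hxO, hxU, hx1⟩ := hO.tr E.fixingSubgroup hUo hUn
  have : Finite (Gal(L/k) ⧸ E.fixingSubgroup) := Subgroup.quotient_finite_of_isOpen _ hUo
  have : Fintype (Gal(L/k) ⧸ E.fixingSubgroup) := Fintype.ofFinite _
  rw [finsum_eq_sum_of_fintype] at hx1
  have hXinv : ∀ g : Gal(L/k), ∀ u ∈ E.fixingSubgroup, (g * u) x = g x := by
    intro g u hu
    rw [AlgEquiv.mul_apply, hxU u hu]
  have hbU : ∀ g : Gal(L/k), ∀ u ∈ E.fixingSubgroup, b (g * u) = b g := by
    intro g u hu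
    rw [hbc, hb0 u (hE3 u hu)]
    have : sac B (ρ g) g (0 : I → L) = 0 := map_zero (S g)
    rw [this, add_zero]
  let y : I → L := -∑ q : Gal(L/k) ⧸ E.fixingSubgroup, (Quotient.out q : Gal(L/k)) x •
    b (Quotient.out q)
  refine ⟨y, fun i => ?_, fun g => ?_⟩
  · have h2 : y i = -∑ q : Gal(L/k) ⧸ E.fixingSubgroup, (Quotient.out q : Gal(L/k)) x *
        b (Quotient.out q) i := by
      show (-∑ q : Gal(L/k) ⧸ E.fixingSubgroup, (Quotient.out q : Gal(L/k)) x •
        b (Quotient.out q)) i = _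
      rw [Pi.neg_apply, Finset.sum_apply]
      rfl
    rw [h2]
    exact O.neg_mem (O.sum_mem fun q _ => O.mul_mem (hO.stab _ _ hxO) (hbO _ _))
  · have e1 : sac B (ρ g) g y = -∑ q : Gal(L/k) ⧸ E.fixingSubgroup,
        ((g * Quotient.out q : Gal(L/k)) x • b (g * Quotient.out q) -
          (g * Quotient.out q : Gal(L/k)) x • b g) := by
      show S g (-∑ q : Gal(L/k) ⧸ E.fixingSubgroup, (Quotient.out q : Gal(L/k)) x •
        b (Quotient.out q)) = _
      rw [map_neg, map_sum]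
      refine congrArg Neg.neg (Finset.sum_congr rfl fun q _ => ?_)
      show sac B (ρ g) g ((Quotient.out q : Gal(L/k)) x • b (Quotient.out q)) = _
      rw [hsmul, ← smul_sub, AlgEquiv.mul_apply]
      congr 1
      rw [hbc g, add_sub_cancel_left]
    have e2 := had_shift (U := E.fixingSubgroup) (fun γ : Gal(L/k) => γ x • b γ)
      (fun γ u hu => by
        show (γ * u) x • b (γ * u) = γ x • b γ
        rw [hXinv γ u hu, hbU γ u hu]) g
    have e3 := had_shift (U := E.fixingSubgroup) (fun γ : Gal(L/k) => γ x) hXinv g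
    rw [e1, Finset.sum_sub_distrib, e2, ← Finset.sum_smul, e3, hx1, one_smul, neg_sub,
      sub_eq_add_neg, add_comm]

end Pool.Agent.MP72G
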