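import Pool.Agent.Lib.MP_72e2e6_nt.P4.V.Spec

/-!
# MP_72e2e6_nt, theorem T4, part V: Ndm (if all values are `0`)
-/

set_option autoImplicit false

namespace Pool.Agent.MP72G

open Finset Pool.Agent.MP72P IntermediateField

/-- The functional `y ↦ μ₀ (s y)`, and the constant `κ` with `s j = κ` for all `j`. -/
private lemma nm_kap (hRk1 : S_Rk1) (hLnz : S_Lnz) {p : ℕ} [Fact p.Prime] {K : Type} [Field K]
    [CharP K p] (hK : GFld p K) {J : Type} [Fintype J] [Nonempty J]
    {av : J → AbsoluteValue K ℝ} (hav : Pls av)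
    (μ₀ : (∀ j, (av j).Completion) →+ ZMod p) (hF : Fnc p av μ₀) (hμ : μ₀ ≠ 0)
    (s : ∀ j, (av j).Completion)
    (hs : ∀ x ∈ OS av, μ₀ (fun j => algebraMap K (av j).Completion x * s j) = 0) :
    ∃ κ : K, ∀ j, s j = algebraMap K (av j).Completion κ := by
  classical
  let μ : (∀ j, (av j).Completion) →+ ZMod p := μ₀.comp (AddMonoidHom.mulLeft s)
  have hμv : ∀ y, μ y = μ₀ fun j => s j * y j := fun y => rfl
  have hμF : Fnc p av μ := by
    refine ⟨?_, fun a ha => ?_⟩
    · obtain ⟨r, hr, hY⟩ := hF.con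
      have hM : 0 < 1 + ∑ j, ‖s j‖ := by
        have : 0 ≤ ∑ j, ‖s j‖ := Finset.sum_nonneg fun j _ => norm_nonneg _
        linarith
      refine ⟨r / (1 + ∑ j, ‖s j‖), div_pos hr hM, fun y hy => ?_⟩
      rw [hμv]
      refine hY _ fun j => ?_
      rw [norm_mul]
      have h6 : ‖s j‖ ≤ 1 + ∑ j, ‖s j‖ := by
        have := Finset.single_le_sum (f := fun j => ‖s j‖) (fun j _ => norm_nonneg (s j))
          (Finset.mem_univ j)
        linarith
      calc ‖s j‖ * ‖y j‖ ≤ (1 + ∑ j, ‖s j‖) * (r / (1 + ∑ j, ‖s j‖)) :=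
            mul_le_mul h6 (hy j) (norm_nonneg _) hM.le
        _ = r := by field_simp
    · rw [hμv, ← hs a ha]
      refine congrArg μ₀ ?_
      funext j
      rw [mul_comm]
  obtain ⟨c, hc⟩ := hRk1 p K hK J av hav μ₀ μ hF hμF hμ
  refine ⟨c, fun j => ?_⟩
  by_contra hne
  have hne' : s j - algebraMap K (av j).Completion c ≠ 0 := sub_ne_zero.mpr hne
  obtain ⟨y, hy⟩ := hLnz p K hK J av hav μ₀ hF hμ j _ hne'
  apply hy
  have h7 := hc (Pi.single j y)
  rw [hμv] at h7
  have h8 : (Pi.single j ((s j - algebraMap K (av j).Completion c) * y) :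
      ∀ j, (av j).Completion) =
      (fun i => s i * (Pi.single j y : ∀ j, (av j).Completion) i) -
      fun i => algebraMap K (av i).Completion c * (Pi.single j y : ∀ j, (av j).Completion) i := by
    funext i
    by_cases hi : i = j
    · subst hi
      simp [sub_mul]
    · simp [Pi.single_eq_of_ne hi]
  rw [h8, map_sub, h7, sub_self]

theorem tNdm (h1 : S_Dsc) (h2 : S_Hst) (h3 : S_Rk1) (h4 : S_Lnz) (h5 : S_Sac) (h6 : S_Rls) :
    S_Ndm := by
  have _ := h1
  intro p _ K _ _ hK J av α h hh ι I M _ _ _ _ B ρ hρ μ₀ lam hF hμ heqv z u s hz hsj hall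
  have hL : ActL ρ := ⟨hρ.add, hρ.one, hρ.mul, hρ.loc⟩
  obtain ⟨-, -, hgal, -⟩ := h2 p K hK J av α h hh
  have hchO : CharP (OmS p av α) p :=
    charP_of_injective_algebraMap (algebraMap K (OmS p av α)).injective p
  have hch : ∀ j, CharP (av j).Completion p := fun j =>
    charP_of_injective_algebraMap (algebraMap K (av j).Completion).injective p
  have hch' : ∀ j, CharP (Kvs (av j)) p := fun j => by
    have := hch j
    exact charP_of_injective_algebraMap (algebraMap (av j).Completion (Kvs (av j))).injective p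
  have hfin := hh.fin
  have hnem := hh.nem
  have hft : Fintype J := Fintype.ofFinite J
  obtain ⟨κ, hκ⟩ := nm_kap h3 h4 hK hh.pls μ₀ hF hμ s hall
  obtain ⟨⟨-, -, -, -, -, -, hemp⟩, -, hprO, hsac, -⟩ := h5 p (OmS p av α) I M B
  obtain ⟨hpa, -, hpe, hps⟩ := hprO lam (fun m m' => map_add lam m m')
  -- the element `P = pr B lam (φ(u))`
  set P : OmS p av α := pr B lam (fun i => u i ^ p) with hP
  have hX : ∀ j, P + lam (z.2 j) = algebraMap K (OmS p av α) κ := by
    intro j
    have hcj := hch' j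
    obtain ⟨-, -, -, -, hrl⟩ := h6 p K hK J av α h hh (av j) (hch' j) (ι j) I M B ρ hL
    obtain ⟨-, hrl⟩ := hrl lam heqv
    obtain ⟨⟨-, -, -, -, -, -, hemj⟩, -, hprj, -⟩ := h5 p (Kvs (av j)) I M B
    obtain ⟨hja, -, hje, -⟩ := hprj (fun m => ι j (lam m : Kgs K)) (fun m m' => by
      rw [map_add lam]
      show ι j (((lam m : OmS p av α) : Kgs K) + ((lam m' : OmS p av α) : Kgs K)) = _
      rw [map_add])
    have e1 : (fun i => (ι j (u i : Kgs K) + em B (Kvs (av j)) (z.2 j) i) ^ p) =
        (fun i => ι j (((fun i => u i ^ p) i : OmS p av α) : Kgs K)) +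
          em B (Kvs (av j)) (z.2 j) := by
      funext i
      rw [Pi.add_apply, add_pow_char, hemj]
      congr 1
      show _ = ι j (((u i ^ p : OmS p av α)) : Kgs K)
      rw [← map_pow]
      rfl
    have e2 := hsj j
    rw [e1, hja, hje, hrl, hκ j] at e2
    have e3 : algebraMap (av j).Completion (Kvs (av j))
        (algebraMap K (av j).Completion κ) = ι j (algebraMap K (Kgs K) κ) := by
      rw [(ι j).commutes]
      exact (IsScalarTower.algebraMap_apply K (av j).Completion (Kvs (av j)) κ).symm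
    rw [e3, ← map_add] at e2
    have e4 := (ι j).injective e2
    apply Subtype.ext
    exact e4.symm
  have hg : ∀ (g : GS p av α) j, lam (dif ρ z g j) = algebraMap K (OmS p av α) κ - P := by
    intro g j
    obtain ⟨hsadd, -, -, -, hsp, -⟩ := hsac (ρ g) (hρ.add g) (g : OmS p av α →+* OmS p av α)
    have e1 : g P = P + lam (z.1 g) := by
      have e2 := hps (ρ g) (hρ.add g) (g : OmS p av α →+* OmS p av α)
        (fun m => (heqv g m).symm) (fun i => u i ^ p)
      have e3 : sac B (ρ g) (g : OmS p av α →+* OmS p av α) (fun i => u i ^ p) =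
          (fun i => u i ^ p) + em B (OmS p av α) (z.1 g) := by
        rw [← hsp u]
        funext i
        have e4 : sac B (ρ g) (g : OmS p av α →+* OmS p av α) u = u + em B (OmS p av α) (z.1 g) :=
          hz g
        rw [e4, Pi.add_apply, Pi.add_apply, add_pow_char, hemp]
      rw [e3, hpa, hpe] at e2
      exact e2.symm
    rw [dif, map_add, heqv g (z.2 j)]
    have e5 : lam (z.2 j) = algebraMap K (OmS p av α) κ - P := by
      rw [← hX j]
      ring
    rw [e5, map_sub, e1, AlgEquiv.commutes]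
    ring
  intro g j g' j'
  rw [map_sub, hg, hg, sub_self]

end Pool.Agent.MP72G
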