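import Pool.Agent.Lib.MP_72e2e6_nt.P4.V.Spec

/-!
# MP_72e2e6_nt, theorem T4, part V: the first direction split off (Ndx)
-/

set_option autoImplicit false

namespace Pool.Agent.MP72G

open Finset Pool.Agent.MP72P IntermediateField

section

variable {p m : ℕ} {G V : Type} [AddCommGroup V]

private theorem ndxCong (hV : ∀ v : V, p • v = 0) {a b : ℕ} (h : (a : ZMod p) = b) (v : V) :
    a • v = b • v := by
  have h1 : ∀ c : ℕ, c • v = (c % p) • v := by
    intro c
    conv_lhs => rw [← Nat.mod_add_div c p, add_smul, mul_smul, hV, add_zero]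
  have h2 : a % p = b % p := (ZMod.natCast_eq_natCast_iff a b p).1 h
  rw [h1 a, h2, ← h1 b]

private theorem ndxMul [NeZero p] (hV : ∀ v : V, p • v = 0) (a b : ZMod p) (v : V) :
    (a * b).val • v = a.val • b.val • v := by
  rw [← mul_smul]
  refine ndxCong hV ?_ v
  rw [ZMod.natCast_zmod_val, Nat.cast_mul, ZMod.natCast_zmod_val, ZMod.natCast_zmod_val]

/-- The coefficients without the first variable. -/
private def ndxS0 : (Finset (Fin (m + 1)) → V) →+ (Finset (Fin m) → V) where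
  toFun f I := f (I.map (Fin.succEmb m))
  map_zero' := rfl
  map_add' _ _ := rfl

/-- The coefficients with the first variable. -/
private def ndxS1 : (Finset (Fin (m + 1)) → V) →+ (Finset (Fin m) → V) where
  toFun f I := f (insert 0 (I.map (Fin.succEmb m)))
  map_zero' := rfl
  map_add' _ _ := rfl

private theorem ndx0 (I : Finset (Fin m)) : (0 : Fin (m + 1)) ∉ I.map (Fin.succEmb m) := by
  intro h
  obtain ⟨i, _, hi⟩ := Finset.mem_map.1 h
  exact Fin.succ_ne_zero i hi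

private theorem ndxSum (I : Finset (Fin m)) (F : Finset (Fin (m + 1)) → V) :
    ∑ t ∈ (I.map (Fin.succEmb m)).powerset, F t = ∑ A ∈ I.powerset, F (A.map (Fin.succEmb m)) := by
  symm
  refine Finset.sum_nbij (fun A => A.map (Fin.succEmb m)) (fun A hA => ?_) (fun A _ B _ h => ?_)
    (fun A hA => ?_) (fun A _ => rfl)
  · exact Finset.mem_powerset.2 (Finset.map_subset_map.2 (Finset.mem_powerset.1 hA))
  · exact Finset.map_injective _ h
  · obtain ⟨B, hB, hAB⟩ := Finset.subset_map_iff.1 (Finset.mem_powerset.1 hA)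
    exact ⟨B, Finset.mem_coe.2 (Finset.mem_powerset.2 hB), hAB.symm⟩

private theorem ndxProd (a : G → ZMod p) (D : Fin m → G → ZMod p) (g : G) (A : Finset (Fin m)) :
    ∏ j ∈ A.map (Fin.succEmb m), (Fin.cons a D : Fin (m + 1) → G → ZMod p) j g =
      ∏ j ∈ A, D j g := by
  rw [Finset.prod_map]
  rfl

private theorem ndxR0 (ρV : G → V → V) (a : G → ZMod p) (D : Fin m → G → ZMod p)
    (g : G) (f : Finset (Fin (m + 1)) → V) :
    ndxS0 (rV ρV (Fin.cons a D : Fin (m + 1) → G → ZMod p) g f) = rV ρV D g (ndxS0 f) := by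
  funext I
  change ∑ A ∈ (I.map (Fin.succEmb m)).powerset,
      (∏ j ∈ A, (Fin.cons a D : Fin (m + 1) → G → ZMod p) j g).val •
      ρV g (f (I.map (Fin.succEmb m) \ A)) =
    ∑ A ∈ I.powerset, (∏ j ∈ A, D j g).val • ρV g (f ((I \ A).map (Fin.succEmb m)))
  rw [ndxSum]
  refine Finset.sum_congr rfl fun A _ => ?_
  rw [ndxProd, ← Finset.map_sdiff]

private theorem ndxR1 [NeZero p] (hV : ∀ v : V, p • v = 0) (ρV : G → V → V) (a : G → ZMod p)
    (D : Fin m → G → ZMod p) (g : G) (f : Finset (Fin (m + 1)) → V) :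
    ndxS1 (rV ρV (Fin.cons a D : Fin (m + 1) → G → ZMod p) g f) =
      rV ρV D g (ndxS1 f) + (a g).val • rV ρV D g (ndxS0 f) := by
  funext I
  rw [Pi.add_apply, Pi.smul_apply]
  change ∑ A ∈ (insert 0 (I.map (Fin.succEmb m))).powerset,
      (∏ j ∈ A, (Fin.cons a D : Fin (m + 1) → G → ZMod p) j g).val •
      ρV g (f (insert 0 (I.map (Fin.succEmb m)) \ A)) =
    ∑ A ∈ I.powerset, (∏ j ∈ A, D j g).val •
        ρV g (f (insert 0 ((I \ A).map (Fin.succEmb m)))) +
      (a g).val • ∑ A ∈ I.powerset, (∏ j ∈ A, D j g).val •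
        ρV g (f ((I \ A).map (Fin.succEmb m)))
  rw [Finset.sum_powerset_insert (ndx0 I), ndxSum, ndxSum, Finset.smul_sum]
  congr 1
  · refine Finset.sum_congr rfl fun A _ => ?_
    rw [ndxProd, Finset.insert_sdiff_of_notMem _ (ndx0 A), ← Finset.map_sdiff]
  · refine Finset.sum_congr rfl fun A _ => ?_
    have e3 : insert 0 (I.map (Fin.succEmb m)) \ insert 0 (A.map (Fin.succEmb m)) =
        (I \ A).map (Fin.succEmb m) := by
      rw [Finset.map_sdiff]
      ext i
      simp only [Finset.mem_sdiff, Finset.mem_insert, not_or]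
      constructor
      · rintro ⟨h1 | h1, h2, h3⟩
        · exact absurd h1 h2
        · exact ⟨h1, h3⟩
      · rintro ⟨h1, h2⟩
        exact ⟨Or.inr h1, fun h => ndx0 I (h ▸ h1), h2⟩
    rw [Finset.prod_insert (ndx0 A), ndxProd, e3, ← ndxMul hV]
    rfl

private theorem ndxSg (v : V) :
    ndxS0 (sgE (∅ : Finset (Fin (m + 1))) v) = sgE (∅ : Finset (Fin m)) v := by
  funext I
  change (if I.map (Fin.succEmb m) = ∅ then v else 0) = if I = ∅ then v else 0
  by_cases h : I = ∅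
  · rw [if_pos h, if_pos (by rw [h, Finset.map_empty])]
  · rw [if_neg h, if_neg (fun h' => h (Finset.map_eq_empty.1 h'))]

end

theorem tNdx (h1 : S_Lin3) (h2 : S_Act3) : S_Ndx := by
  intro p _ G _ _ _ S d ω D T hω hH2 hOk V _ _ r hr hpv ρV hact m δ hδ x hx c Z hZ
  classical
  have hne : NeZero p := ⟨(Fact.out : p.Prime).ne_zero⟩
  have hδ' : ∀ i, HomP p ((Fin.cons x δ : Fin (m + 1) → G → ZMod p) i) := by
    intro i
    refine Fin.cases ?_ (fun j => ?_) i
    · exact hx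
    · exact hδ j
  obtain ⟨hactE, hcardE⟩ := h2 p G ω hω V r hr hpv ρV hact m δ hδ
  obtain ⟨hactE', hcardE'⟩ := h2 p G ω hω V r hr hpv ρV hact (m + 1) _ hδ'
  obtain ⟨L1, -, -, L4, -, -, -, -⟩ := h1 p G S d ω D T hω hH2 hOk
    (Finset (Fin (m + 1)) → V) _ hcardE' _ hactE'
  obtain ⟨Z', hZ'⟩ : ∃ Z', Z' = Zs T (rV ρV (Fin.cons x δ : Fin (m + 1) → G → ZMod p))
      (fun k => sgE ∅ (c k)) := ⟨_, rfl⟩
  have hS := L1 (fun k => sgE ∅ (c k))
  rw [← hZ'] at hS
  have h4 := (L4 (Finset (Fin m) → V) _ hcardE (rV ρV δ) hactE ndxS0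
    (fun g f => ndxR0 ρV x δ g f) (fun k => sgE ∅ (c k))).1
  rw [← hZ'] at h4
  have h5 : (fun k : Fin (d + 1) => ndxS0 (sgE (∅ : Finset (Fin (m + 1))) (c k))) =
      fun k => sgE (∅ : Finset (Fin m)) (c k) := funext fun k => ndxSg (c k)
  rw [h5, ← hZ] at h4
  have hZ1 : ∀ g, Z.1 g = ndxS0 (Z'.1 g) := fun g => by rw [h4]
  have hZ2 : ∀ w, Z.2 w = ndxS0 (Z'.2 w) := fun w => by rw [h4]
  have key : ∀ w g, ndxS1 (Z'.1 g) - (ndxS1 (Z'.2 w) - rV ρV δ g (ndxS1 (Z'.2 w))) +
      (x g).val • rV ρV δ g (Z.2 w) =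
        ndxS1 (psi (rV ρV (Fin.cons x δ : Fin (m + 1) → G → ZMod p)) Z' w g) := by
    intro w g
    unfold psi
    rw [map_sub, map_sub, ndxR1 hpv, hZ2]
    abel
  refine ⟨fun g => ndxS1 (Z'.1 g), fun w => ndxS1 (Z'.2 w), hS.coc.loc.comp _, ?_, ?_, ?_⟩
  · intro g g'
    change ndxS1 (Z'.1 (g * g')) = _
    rw [hS.coc.mul, map_add, ndxR1 hpv, hZ1, add_assoc]
  · intro i
    rw [key, hS.ts, map_zero]
  · intro j
    rw [key]
    change psi (rV ρV (Fin.cons x δ : Fin (m + 1) → G → ZMod p)) Z' (T.u j) (T.e j)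
      (insert 0 ((univ : Finset (Fin m)).map (Fin.succEmb m))) = _
    have h6 : insert 0 ((univ : Finset (Fin m)).map (Fin.succEmb m)) = univ := by
      ext i
      simp only [Finset.mem_insert, Finset.mem_map, Finset.mem_univ, true_and, iff_true]
      refine Fin.cases ?_ (fun j => ?_) i
      · left; rfl
      · right; exact ⟨j, rfl⟩
    rw [h6, hZ']
    rfl

end Pool.Agent.MP72G
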