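import Pool.Agent.Lib.MP_72e2e6_nt.P4.V.Spec

/-!
# MP_72e2e6_nt, theorem T4, part V: nondegeneracy (Ndz)
-/

set_option autoImplicit false

namespace Pool.Agent.MP72G

open Finset Pool.Agent.MP72P IntermediateField

/-- The map `v ↦ v t_univ`. -/
private def epsN (m : ℕ) (V : Type) [AddCommGroup V] : V →+ (Finset (Fin m) → V) where
  toFun v := sgE univ v
  map_zero' := by
    funext I
    unfold sgE
    simp
  map_add' v w := by
    funext I
    rw [Pi.add_apply]
    unfold sgE
    split_ifs <;> simp

private theorem epsN_apply (m : ℕ) (V : Type) [AddCommGroup V] (v : V) :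
    epsN m V v = sgE univ v := rfl

private theorem rV_epsN {p m : ℕ} {G V : Type} [AddCommGroup V] (hp : 1 < p) (ρV : G → V → V)
    (h0 : ∀ g, ρV g 0 = 0) (δ : Fin m → G → ZMod p) (g : G) (v : V) :
    rV ρV δ g (sgE univ v) = sgE univ (ρV g v) := by
  classical
  have hp1 : Fact (1 < p) := ⟨hp⟩
  funext I
  unfold rV
  rw [Finset.sum_eq_single ∅]
  · rw [Finset.prod_empty, ZMod.val_one, one_smul, Finset.sdiff_empty]
    unfold sgE
    split_ifs
    · rfl
    · exact h0 g
  · intro A hA hAne
    have h2 : I \ A ≠ univ := by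
      intro h3
      apply hAne
      rw [Finset.eq_empty_iff_forall_notMem]
      intro a ha
      have h4 : a ∈ I \ A := by rw [h3]; exact Finset.mem_univ a
      exact (Finset.mem_sdiff.mp h4).2 ha
    unfold sgE
    rw [if_neg h2, h0, smul_zero]
  · intro h
    exact absurd (Finset.empty_mem_powerset I) h

/-- The map `m ↦ (j ↦ m j univ)`. -/
private def topN (m d : ℕ) (V : Type) [AddCommGroup V] :
    (Fin d → Finset (Fin m) → V) →+ (Fin d → V) where
  toFun f j := f j univ
  map_zero' := rfl
  map_add' _ _ := rfl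

private theorem actP_zero {p : ℕ} {G M : Type} [Group G] [TopologicalSpace G] [AddCommGroup M]
    {ω : G → ZMod p} {ρ : G → M → M} (h : ActP p ω ρ) (g : G) : ρ g 0 = 0 := by
  have h1 := h.add g 0 0
  rw [add_zero] at h1
  exact left_eq_add.mp h1

theorem tNdz (h1 : S_Hst) (h2 : S_Act3) (h3 : S_Rep) (h4 : S_Vaf) (h5 : S_Ndx) (h6 : S_Ndm)
    (h7 : S_Asm) (h8 : S_Bgz) (h9 : S_Bsx) (h10 : S_Cdx) (h11 : S_Nnz) : S_Ndz := by
  intro p hpF K _ _ hK J av α h ι d T t w₀ e y b hT hFS V _ _ r hr hpv ρV hact
  classical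
  obtain ⟨-, -, -, -, -, -, hω, hH2, -, -, -, -, -, hHom, -⟩ := h1 p K hK J av α h hT.hs
  have hp1 : 1 < p := hpF.out.one_lt
  refine ⟨NV p av α ρV, ?_, h8 p K hK J av α h hT.hs hFS V ρV hact, ?_⟩
  · intro x
    have hx : p • x = 0 := by
      apply Subtype.ext
      have h12 : ((p • x : OS av) : K) = p • (x : K) := rfl
      rw [h12, nsmul_eq_mul, CharP.cast_eq_zero, zero_mul]
      rfl
    rw [hx]
    exact AddSubgroup.zero_mem _
  · intro m δ hIpd hCld η hη hηT c hc hGen
    by_contra hcon
    push Not at hcon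
    obtain ⟨dd, hdd⟩ : ∃ dd : Fin m → GS p av α → ZMod p, dd = fun i => hS p av α (δ i : K) :=
      ⟨_, rfl⟩
    have hddH : ∀ i, HomP p (dd i) := by
      intro i
      rw [hdd]
      exact hHom _ (δ i).2
    obtain ⟨hactM, hcardM⟩ := h2 p (GS p av α) (omS p av α) hω V r hr hpv ρV hact m dd hddH
    have hpM : ∀ f : Finset (Fin m) → V, p • f = 0 := by
      intro f
      funext I
      exact hpv (f I)
    obtain ⟨n, ⟨B⟩⟩ := h9 p (Finset (Fin m) → V) hpM
    have hCd := h10 p (GS p av α) J d (omS p av α) (DS p av α ι) (tsH p av α ι t w₀ e y) hω hH2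
      hT.ok V r hr hpv ρV hact m dd hddH (by
        intro c' j I hI
        rw [hdd]
        exact hCld c' j I hI)
    obtain ⟨hCd1, hCd2, hCd3⟩ := hCd
    have hηMz : ∀ C, (η.comp (topN m d V)) (Ts (tsH p av α ι t w₀ e y) (rV ρV dd) C) = 0 := by
      intro C
      have h12 : (η.comp (topN m d V)) (Ts (tsH p av α ι t w₀ e y) (rV ρV dd) C) =
          η (fun j => Ts (tsH p av α ι t w₀ e y) (rV ρV dd) C j univ) := rfl
      have h13 : (fun j => Ts (tsH p av α ι t w₀ e y) (rV ρV dd) C j univ) =
          Ts (tsH p av α ι t w₀ e y) ρV (fun k => C k univ) := by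
        funext j
        exact hCd1 C j
      rw [h12, h13]
      exact hηT _
    have hηtop : ∀ v : Fin d → V, (η.comp (topN m d V)) (fun i => epsN m V (v i)) = η v := by
      intro v
      have h12 : (η.comp (topN m d V)) (fun i => epsN m V (v i)) =
          η (fun j => sgE (univ : Finset (Fin m)) (v j) univ) := rfl
      rw [h12]
      congr 1
      funext j
      unfold sgE
      rw [if_pos rfl]
    have hηM : η.comp (topN m d V) ≠ 0 := by
      intro h0
      apply hη
      refine AddMonoidHom.ext fun v => ?_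
      have h12 := hηtop v
      rw [h0] at h12
      exact h12.symm
    obtain ⟨μ₀, lam, hrep⟩ := h3 p K hK J av α h ι d T t w₀ e y b hT (Fin n)
      (Finset (Fin m) → V) B (rV ρV dd) hactM (η.comp (topN m d V)) hηM hηMz
    have hZ := hCd2 c hc
    obtain ⟨u, s, hRl, hsf, hval⟩ := h4 p K hK J av α h ι d T t w₀ e y b hT (Fin n)
      (Finset (Fin m) → V) B (rV ρV dd) hactM (η.comp (topN m d V)) μ₀ lam hrep _ hZ
    have hvan : ∀ x ∈ OS av, μ₀ (fun j => algebraMap K (av j).Completion x * s j) = 0 := by
      intro x hx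
      obtain ⟨c', a', hloc, hmul, htest, hext⟩ := h5 p (GS p av α) J d (omS p av α) (DS p av α ι)
        (tsH p av α ι t w₀ e y) hω hH2 hT.ok V r hr hpv ρV hact m dd hddH (hS p av α x) (hHom x hx)
        c _ rfl
      rw [hval x hx c' a' hloc hmul (fun j i => htest ⟨j, i⟩)]
      have h12 := hcon ⟨x, hx⟩
      have h13 : (fun i => (fzS p av α ι).h ((Fin.cons (⟨x, hx⟩ : OS av) δ : Fin (m + 1) → OS av) i))
          = (Fin.cons (hS p av α x) dd : Fin (m + 1) → GS p av α → ZMod p) := by
        funext i
        refine Fin.cases ?_ (fun i => ?_) i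
        · rfl
        · rw [hdd]
          rfl
      unfold Tx at h12
      rw [h13] at h12
      have h14 : (fun j => Ts (tsH p av α ι t w₀ e y)
          (rV ρV (Fin.cons (hS p av α x) dd : Fin (m + 1) → GS p av α → ZMod p))
          (fun k => sgE ∅ (c k)) j univ) = fun j => (c' ((tsH p av α ι t w₀ e y).e j) -
            (a' ((tsH p av α ι t w₀ e y).u j) - rV ρV dd ((tsH p av α ι t w₀ e y).e j)
              (a' ((tsH p av α ι t w₀ e y).u j))) +
            (hS p av α x ((tsH p av α ι t w₀ e y).e j)).val • rV ρV dd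
              ((tsH p av α ι t w₀ e y).e j)
              ((Zs (tsH p av α ι t w₀ e y) (rV ρV dd) fun k => sgE ∅ (c k)).2
                ((tsH p av α ι t w₀ e y).u j))) univ := by
        funext j
        exact (hext j).symm
      rw [h14] at h12
      exact h12
    have hlam := h6 p K hK J av α h hT.hs ι (Fin n) (Finset (Fin m) → V) B (rV ρV dd) hactM μ₀ lam
      hrep.fnc hrep.ne hrep.eqv _ u s hRl hsf hvan
    have heqv : ∀ g f, lam (rV ρV (fun i => hS p av α (δ i : K)) g f) = g (lam f) := by
      intro g f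
      have := hrep.eqv g f
      rw [hdd] at this
      exact this
    have hAsm := h7 p K hK J av α h hT.hs V ρV hact hpv m δ hIpd lam heqv
    -- the additive map vanishes on the differences
    have hdif : ∀ g j g' j', (lam.comp (epsN m V))
        (dif ρV (Zs (tsH p av α ι t w₀ e y) ρV c) g j -
          dif ρV (Zs (tsH p av α ι t w₀ e y) ρV c) g' j') = 0 := by
      intro g j g' j'
      have h12 := hAsm _ (hlam g j g' j')
      rw [Pi.sub_apply, (hCd3 c).2.2, (hCd3 c).2.2] at h12
      exact h12
    have hall : ∀ v : V, lam (epsN m V v) = 0 := by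
      intro v
      have hle : spz ρV (Zs (tsH p av α ι t w₀ e y) ρV c) ≤ (lam.comp (epsN m V)).ker := by
        unfold spz
        rw [AddSubgroup.closure_le]
        rintro x ⟨g, w, g', w', rfl⟩
        exact hdif g w g' w'
      have hv : v ∈ spz ρV (Zs (tsH p av α ι t w₀ e y) ρV c) := by
        rw [show spz ρV (Zs (tsH p av α ι t w₀ e y) ρV c) = ⊤ from hGen]
        exact AddSubgroup.mem_top v
      exact hle hv
    have hfin := h11 p K hK J av α h ι d T t w₀ e y b hT (Fin n)
      (Finset (Fin m) → V) B (rV ρV dd) hactM (η.comp (topN m d V)) μ₀ lam hrep V r hr hpv ρV hact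
      (epsN m V) (fun g v => rV_epsN hp1 ρV (actP_zero hact) dd g v) hall
    apply hη
    refine AddMonoidHom.ext fun v => ?_
    have h12 := hfin v
    rw [hηtop v] at h12
    exact h12

end Pool.Agent.MP72G
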