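import Pool.Agent.Lib.MP_72e2e6_nt.P4.V.Spec

/-!
# MP_72e2e6_nt, part V: the map `lam` is not `0` on the submodules on which `η` is not `0`
-/

namespace Pool.Agent.MP72G

open Finset Pool.Agent.MP72P IntermediateField

private theorem nnz_actL {p : ℕ} {G M : Type} [Group G] [TopologicalSpace G] [AddCommGroup M]
    {ω : G → ZMod p} {ρ : G → M → M} (h : ActP p ω ρ) : ActL ρ := ⟨h.add, h.one, h.mul, h.loc⟩

private theorem nnz_sac0 {p : ℕ} {I M L : Type} [Fintype I] [DecidableEq I] [AddCommGroup M]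
    [Field L] (B : M ≃+ (I → ZMod p)) (f : M → M) (σ : L → L) (h : σ 0 = 0) :
    sac B f σ (0 : I → L) = 0 := by
  funext i
  unfold sac mpt
  refine sum_eq_zero fun k _ => ?_
  show op L _ * σ 0 = 0
  rw [h, mul_zero]

private theorem nnz_em0 {p : ℕ} [Fact p.Prime] {I M : Type} [Fintype I] [DecidableEq I] [AddCommGroup M]
    (L : Type) [Field L] (B : M ≃+ (I → ZMod p)) : em B L (0 : M) = 0 := by
  funext i
  unfold em op
  rw [map_zero, Pi.zero_apply, Pi.zero_apply, ZMod.val_zero, Nat.cast_zero]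

/-- The relation `RlM` and an equivariant map. -/
private theorem nnz_rlm (hS : S_Sac) (p : ℕ) [Fact p.Prime] (k L : Type) [Field k] [Field L]
    [Algebra k L] [CharP L p] (I M n V : Type) [Fintype I] [DecidableEq I] [AddCommGroup M] [Fintype n]
    [DecidableEq n] [AddCommGroup V] (B : M ≃+ (I → ZMod p)) (BV : V ≃+ (n → ZMod p))
    (ρ : Gal(L/k) → M → M) (ρV : Gal(L/k) → V → V) (hρ : ∀ g x y, ρ g (x + y) = ρ g x + ρ g y)
    (hρV : ∀ g x y, ρV g (x + y) = ρV g x + ρV g y)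
    (ε : V →+ M) (hε : ∀ g v, ρ g (ε v) = ε (ρV g v)) (f : Gal(L/k) → V) (y : n → L)
    (h : RlM BV ρV f y) : RlM B ρ (fun g => ε (f g)) (mpt BV B ε y) := by
  intro g
  have hVe := hS p L n V BV
  have a1 := hVe.2.1 I M B ε ε.map_add
  have e0 : (fun i => g (mpt BV B ε y i)) = mpt BV B ε fun k => g (y k) :=
    a1.2.2.2.2.2.1 (g : L →+* L) y
  have e1 : sac B (ρ g) g (mpt BV B ε y) = mpt B B (ρ g) (mpt BV B ε fun k => g (y k)) := by
    unfold sac
    rw [e0]
  have e2 := a1.2.2.2.2.2.2.1 I M B (ρ g) (hρ g) fun k => g (y k)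
  have e3 := (hVe.2.1 n V BV (ρV g) (hρV g)).2.2.2.2.2.2.1 I M B ε ε.map_add fun k => g (y k)
  have e4 : (fun m => ρ g (ε m)) = fun m => ε (ρV g m) := funext fun m => hε g m
  have e5 : mpt BV BV (ρV g) (fun k => g (y k)) = y + em BV L (f g) := h g
  rw [e1, e2, e4, ← e3, e5, a1.1, a1.2.2.1]

theorem tNnz (_h1 : S_Hst) (_h2 : S_Rgo) (h3 : S_Sac) (h4 : S_Trc) (h5 : S_Rlm) (h6 : S_Rls)
    (h7 : S_Lcu) (h8 : S_Bsx) : S_Nnz := by
  intro p _ K _ _ hG J av α h ι d T t w₀ e y b hT I M _ _ _ _ B ρ hρ η μ₀ lam hR V _ _ r hr hpV ρV hρV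
    ε hε hlam m
  classical
  have hch : ∀ j, CharP (av j).Completion p := fun j =>
    charP_of_injective_algebraMap (algebraMap K (av j).Completion).injective p
  have hch' : ∀ j, CharP (Kvs (av j)) p := fun j => by
    have := hch j
    exact charP_of_injective_algebraMap (algebraMap (av j).Completion (Kvs (av j))).injective p
  have := hch w₀
  have := hch' w₀
  obtain ⟨f, hf1, hf2, hf3⟩ := h7 p K hG J av α h ι d T t w₀ e y b hT V r hr ρV hρV m
  obtain ⟨n, ⟨BV⟩⟩ := h8 p V hpV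
  obtain ⟨hAL, -⟩ := h6 p K hG J av α h hT.hs (av w₀) (hch' w₀) (ι w₀) (Fin n) V BV ρV (nnz_actL hρV)
  obtain ⟨yV, -, hyV⟩ := (h5 p (av w₀).Completion (Kvs (av w₀)) (Fin n) V BV _ hAL).2.2.2.2.2.2 ⊤
    (h4 _ _) f hf1
  have hrl : RlM B (fun g => ρ (rOm p av α (ι w₀) g)) (fun g => ε (f g)) (mpt BV B ε yV) :=
    nnz_rlm h3 p (av w₀).Completion (Kvs (av w₀)) I M (Fin n) V B BV _ _ (fun g => hρ.add _)
      (fun g => hρV.add _) ε (fun g v => hε _ v) f yV hyV
  let yy : ∀ j, I → Kvs (av j) := Function.update (fun j => 0) w₀ (mpt BV B ε yV)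
  let f' : ∀ j, Gal(Kvs (av j)/(av j).Completion) → M :=
    Function.update (fun j => 0) w₀ fun g => ε (f g)
  have hyy : yy w₀ = mpt BV B ε yV := Function.update_self _ _ _
  have hff : f' w₀ = fun g => ε (f g) := Function.update_self _ _ _
  have hyy' : ∀ j, j ≠ w₀ → yy j = 0 := fun j hj => Function.update_of_ne hj _ _
  have hff' : ∀ j, j ≠ w₀ → f' j = 0 := fun j hj => Function.update_of_ne hj _ _
  obtain ⟨s, hs1, hs2⟩ := hR.val yy f' (fun j => by
    by_cases hj : j = w₀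
    · subst hj
      rw [hyy, hff]
      exact hrl
    · rw [hyy' j hj, hff' j hj]
      intro g
      rw [nnz_sac0 _ _ _ (map_zero g)]
      show (0 : I → Kvs (av j)) = 0 + em B (Kvs (av j)) 0
      rw [nnz_em0, add_zero]) (fun j i => by
    by_cases hj : j = w₀
    · subst hj
      rw [hff]
      show ε (f (t j i)) = 0
      rw [hf2, map_zero]
    · rw [hff' j hj]
      rfl)
  have hs0 : s = 0 := by
    funext j
    rw [Pi.zero_apply, ← map_eq_zero (algebraMap (av j).Completion (Kvs (av j))), hs1]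
    by_cases hj : j = w₀
    · subst hj
      have a1 := (h3 p (Kvs (av j)) (Fin n) V BV).2.1 I M B ε ε.map_add
      rw [hyy, a1.2.2.2.1, a1.2.2.2.2.2.2.2 (fun m => ι j (lam m : Kgs K)) (fun m m' => by
        rw [map_add]
        exact map_add (ι j) _ _)]
      unfold pr
      refine sum_eq_zero fun k _ => ?_
      have e1 : ι j ((lam (ε (bs BV k)) : OmS p av α) : Kgs K) = 0 := by
        rw [hlam]
        exact map_zero _
      show ι j ((lam (ε (bs BV k)) : OmS p av α) : Kgs K) * fb p yV k = 0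
      rw [e1, zero_mul]
    · rw [hyy' j hj]
      unfold pr
      refine sum_eq_zero fun k _ => ?_
      have e1 : fb p (0 : I → Kvs (av j)) k = 0 := by
        unfold fb
        rw [Pi.zero_apply, zero_pow (Fact.out : p.Prime).ne_zero, sub_zero]
      rw [e1, mul_zero]
  rw [hs0, map_zero] at hs2
  rw [hff] at hs2
  have e1 : (fun i => ε (f (e i))) = fun i => ε (m i) := funext fun i => by rw [hf3]
  rw [← e1]
  exact hs2.symm

end Pool.Agent.MP72G
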