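import Pool.Agent.Lib.MP_72e2e6_nt.P4.V.Spec

/-!
# MP_72e2e6_nt, theorem T4, part V: the ring `OIn`
-/

namespace Pool.Agent.MP72G

open Finset Pool.Agent.MP72P IntermediateField

/-- The trace of the fixed field of an open normal subgroup is the sum of the conjugates. -/
private theorem oin_trace {K L : Type} [Field K] [Field L] [Algebra K L] [IsGalois K L]
    (U : Subgroup Gal(L/K)) (hU : IsOpen (U : Set Gal(L/K))) (hn : U.Normal) :
    FiniteDimensional K (fixedField U) ∧
    ∀ x : fixedField U, ∑ᶠ q : Gal(L/K) ⧸ U, (Quotient.out q) • (x : L) =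
      algebraMap K L (Algebra.trace K (fixedField U) x) := by
  let H : ClosedSubgroup Gal(L/K) := ⟨U, U.isClosed_of_isOpen hU⟩
  have hH : (fixedField U).fixingSubgroup = U := InfiniteGalois.fixingSubgroup_fixedField H
  have hfin : FiniteDimensional K (fixedField U) := by
    refine (InfiniteGalois.isOpen_iff_finite (fixedField U)).1 ?_
    have : ((fixedField U).fixingSubgroup.carrier : Set Gal(L/K)) = (U : Set Gal(L/K)) := by
      rw [hH]
      rfl
    rw [this]
    exact hU
  have hgal : IsGalois K (fixedField U) := inferInstance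
  refine ⟨hfin, fun x => ?_⟩
  have hHn : H.Normal := hn
  let e : Gal(L/K) ⧸ H.1 ≃* Gal(fixedField H.1/K) := InfiniteGalois.normalAutEquivQuotient H
  have h1 : ∑ᶠ q : Gal(L/K) ⧸ U, (Quotient.out q) • (x : L) =
      ∑ᶠ σ : Gal(fixedField U/K), ((σ x : fixedField U) : L) := by
    refine finsum_eq_of_bijective (e : Gal(L/K) ⧸ U → Gal(fixedField U/K)) e.bijective ?_
    intro q
    have h2 : e q = AlgEquiv.restrictNormalHom (fixedField U) (Quotient.out q) := by
      conv_lhs => rw [← QuotientGroup.out_eq' q]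
      rfl
    have h3 : ((e q) x : L) = (Quotient.out q) (x : L) := by
      rw [h2]
      exact AlgEquiv.restrictNormalHom_apply (fixedField U) (Quotient.out q) x
    exact h3.symm
  rw [h1, finsum_eq_sum_of_fintype]
  have h4 := trace_eq_sum_automorphisms (K := K) (L := fixedField U) x
  have h5 : algebraMap K L (Algebra.trace K (fixedField U) x) =
      ((algebraMap K (fixedField U) (Algebra.trace K (fixedField U) x) : fixedField U) : L) := rfl
  rw [h5, h4]
  exact (map_sum (fixedField U).val _ _).symm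

/-- A separably closed field of characteristic `p` is closed under Artin-Schreier roots. -/
private theorem oin_as {p : ℕ} [Fact p.Prime] {L : Type} [Field L] [CharP L p] [IsSepClosed L] (m : L) : ∃ θ : L, θ ^ p - θ = m := by
  obtain ⟨x, hx⟩ := IsSepClosed.exists_root_C_mul_X_pow_add_C_mul_X_add_C (n := p) (1 : L) (-1)
    (-m) (CharP.cast_eq_zero L p) (Fact.out : p.Prime).two_le (neg_ne_zero.2 one_ne_zero)
  exact ⟨x, by linear_combination hx⟩

open Polynomial in
private theorem oin_int {p : ℕ} [Fact p.Prime] {A L : Type} [CommRing A] [Field L] [Algebra A L]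
    (θ : L) (h : IsIntegral A (θ ^ p - θ)) : IsIntegral A θ := by
  have hA : Nontrivial A := (algebraMap A L).domain_nontrivial
  have hp1 : 1 < p := (Fact.out : p.Prime).one_lt
  have hX : (X : A[X]).degree < (p : ℕ) := by
    rw [degree_X]
    exact_mod_cast hp1
  have hm : (X ^ p - X : A[X]).Monic := monic_X_pow_sub hX
  have hd : (X ^ p - X : A[X]).natDegree = p := by
    rw [natDegree_sub_eq_left_of_natDegree_lt, natDegree_X_pow]
    rw [natDegree_X, natDegree_X_pow]
    exact hp1
  refine IsIntegral.of_aeval_monic hm (by rw [hd]; exact (Fact.out : p.Prime).ne_zero) ?_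
  rw [map_sub, map_pow, aeval_X]
  exact h

private theorem oin_tr {A K F M : Type} [CommRing A] [Field K] [Field F] [Field M] [Algebra A K]
    [Algebra A F] [Algebra A M] [Algebra K F] [Algebra K M] [IsScalarTower A K F]
    [IsScalarTower A K M] [FiniteDimensional K F] [FiniteDimensional K M] (j : F →ₐ[K] M)
    (y : M) (hy : IsIntegral A y) (ht : Algebra.trace K M y = 1) :
    ∃ x : F, IsIntegral A x ∧ Algebra.trace K F x = 1 := by
  let _ := j.toRingHom.toAlgebra
  have : IsScalarTower K F M := IsScalarTower.of_algebraMap_eq (fun c => (j.commutes c).symm)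
  have : IsScalarTower A F M := by
    apply IsScalarTower.of_algebraMap_eq
    intro a
    rw [IsScalarTower.algebraMap_apply A K M, IsScalarTower.algebraMap_apply A K F]
    exact (j.commutes _).symm
  have : FiniteDimensional F M := FiniteDimensional.right K F M
  refine ⟨Algebra.trace F M y, Algebra.isIntegral_trace hy, ?_⟩
  rw [Algebra.trace_trace, ht]

/-- The ring `OIn`. -/
theorem tOin (_h1 : S_Frc) (h2 : S_Hst) (h3 : S_Twb) (h4 : S_Twt) : S_Oin := by
  intro p _ K _ _ hK J av α h hS
  obtain ⟨hfr, hic, hgal, hα, -⟩ := h2 p K hK J av α h hS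
  have hchp : CharP (Kgs K) p :=
    charP_of_injective_algebraMap (FaithfulSMul.algebraMap_injective K (Kgs K)) p
  obtain ⟨b1, b2, b3, b4, b5, b6, b7⟩ := h3 p (OS av) K (Kgs K) α h hα hS.al
  have hmem : ∀ x : OmS p av α, x ∈ OIn p av α ↔ IsIntegral (OS av) (x : Kgs K) := fun x => Iff.rfl
  have hmem' : ∀ x : OmS p av α, x ∈ OIn p av α ↔ IsIntegral (OS av) x := by
    intro x
    rw [hmem]
    exact isIntegral_algHom_iff ((OmS p av α).val.restrictScalars (OS av)) (OmS p av α).val.injective
  have has : ∀ m : OmS p av α, IsIntegral (OS av) m → ∃ θ : OmS p av α, θ ^ p - θ = m := by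
    intro m hm
    obtain ⟨θ, hθ⟩ := oin_as (p := p) (m : Kgs K)
    have h5 : θ ∈ OmS p av α := by
      apply b6
      · rw [hθ]
        exact m.2
      · rw [hθ]
        exact hm.map ((OmS p av α).val.restrictScalars (OS av))
    exact ⟨⟨θ, h5⟩, Subtype.ext hθ⟩
  have htr : ∀ M : IntermediateField K (OmS p av α), FiniteDimensional K M →
      ∃ x : M, IsIntegral (OS av) (x : OmS p av α) ∧ Algebra.trace K M x = 1 := by
    intro M hM
    have hsep : Algebra.IsSeparable K M :=
      Algebra.isSeparable_tower_bot_of_isSeparable K M (OmS p av α)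
    obtain ⟨β, hβ⟩ := Field.exists_primitive_element K M
    obtain ⟨T, hT, hβT⟩ := (b2 ((β : OmS p av α) : Kgs K)).1 (β : OmS p av α).2
    let φ : M →ₐ[K] Kgs K := (OmS p av α).val.comp M.val
    have hφ : ∀ z, φ z ∈ T := by
      intro z
      have h5 : z ∈ K⟮β⟯ := by
        rw [hβ]
        exact mem_top
      have h6 : φ z ∈ K⟮β⟯.map φ := ⟨z, h5, rfl⟩
      rw [adjoin_map, Set.image_singleton] at h6
      exact (adjoin_simple_le_iff.2 hβT) h6
    let j : M →ₐ[K] T :=
      { toFun := fun z => ⟨φ z, hφ z⟩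
        map_one' := Subtype.ext (map_one φ)
        map_mul' := fun a b => Subtype.ext (map_mul φ a b)
        map_zero' := Subtype.ext (map_zero φ)
        map_add' := fun a b => Subtype.ext (map_add φ a b)
        commutes' := fun c => Subtype.ext (φ.commutes c) }
    obtain ⟨y, hy1, hy2⟩ := h4 p (OS av) K (Kgs K) α h hα hS.al T hT
    have : FiniteDimensional K T := b3 T hT
    have hy3 : IsIntegral (OS av) y := by
      rw [← isIntegral_algHom_iff (T.val.restrictScalars (OS av)) T.val.injective]
      exact hy1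
    obtain ⟨x, hx1, hx2⟩ := oin_tr j y hy3 hy2
    exact ⟨x, hx1.map (M.val.restrictScalars (OS av)), hx2⟩
  refine ⟨fun f hf => ?_, fun f hf => ?_, fun x hx => ?_, fun x => ?_, ?_, ?_⟩
  · rw [hmem]
    exact isIntegral_algebraMap (R := OS av) (A := Kgs K) (x := ⟨f, hf⟩)
  · rw [hmem] at hf
    have h5 : IsIntegral (OS av) (algebraMap K (Kgs K) f) := hf
    rw [isIntegral_algebraMap_iff (algebraMap K (Kgs K)).injective] at h5
    obtain ⟨a, ha⟩ := IsIntegrallyClosed.isIntegral_iff.1 h5
    rw [← ha]
    exact a.2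
  · obtain ⟨θ, hθ⟩ := has x ((hmem' x).1 hx)
    refine ⟨θ, ?_, hθ⟩
    rw [hmem']
    refine oin_int (p := p) θ ?_
    rw [hθ]
    exact (hmem' x).1 hx
  · have h5 : IsAlgebraic K (x : Kgs K) := Algebra.IsAlgebraic.isAlgebraic _
    have h6 : IsAlgebraic (OS av) (x : Kgs K) := (IsFractionRing.isAlgebraic_iff (OS av) K (Kgs K)).2 h5
    obtain ⟨y, hy0, hy⟩ := h6.exists_integral_multiple
    refine ⟨(y : K), y.2, fun h0 => hy0 (Subtype.ext h0), ?_⟩
    rw [hmem]
    rw [Algebra.smul_def] at hy
    exact hy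
  · intro g x hx
    rw [hmem'] at hx ⊢
    exact hx.map (((g : OmS p av α ≃ₐ[K] OmS p av α) : OmS p av α →ₐ[K] OmS p av α).restrictScalars
      (OS av))
  · intro U hU hn
    obtain ⟨hfin, htr'⟩ := oin_trace U hU hn
    obtain ⟨x, hx1, hx2⟩ := htr (fixedField U) hfin
    refine ⟨(x : OmS p av α), (hmem' _).2 hx1, fun g hg => x.2 ⟨g, hg⟩, ?_⟩
    have h5 := htr' x
    rw [hx2, map_one] at h5
    exact h5

end Pool.Agent.MP72G
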