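import Pool.Agent.Lib.MP_72e2e6_nt.P4.V.Spec

/-!
# MP_72e2e6_nt, theorem T4, part V: Rep (the functional in rank one form)
-/

namespace Pool.Agent.MP72G

open Finset Pool.Agent.MP72P IntermediateField

private lemma rp_inv {R I : Type} [CommRing R] [Fintype I] [DecidableEq I] (P Q : Matrix I I R)
    (h : P * Q = 1) (c : I → R) (i : I) : ∑ l, P i l * ∑ k, Q l k * c k = c i := by
  have h1 : P.mulVec (Q.mulVec c) = c := by rw [Matrix.mulVec_mulVec, h, Matrix.one_mulVec]
  exact congrFun h1 i

private lemma rp_inv' {R R' I : Type} [CommRing R] [CommRing R'] [Fintype I] [DecidableEq I]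
    (P Q : Matrix I I R) (h : P * Q = 1) (τ : R →+* R') (c : I → R') (i : I) :
    ∑ l, τ (P i l) * ∑ k, τ (Q l k) * c k = c i := by
  refine rp_inv (P.map τ) (Q.map τ) ?_ c i
  rw [← Matrix.map_mul, h, Matrix.map_one τ (map_zero τ) (map_one τ)]

/-- The functional in terms of the inverse matrix. -/
private lemma rp_pr (h5 : S_Sac) (p : ℕ) [Fact p.Prime] (L L' : Type) [Field L] [CharP L p]
    [Field L'] [CharP L' p] (τ : L →+* L') (I M : Type) [Fintype I] [DecidableEq I]
    [AddCommGroup M] (B : M ≃+ (I → ZMod p)) (P Q : Matrix I I L) (hQP : Q * P = 1)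
    (κ : I → L) (lam : M → L) (hlam : ∀ m, lam m = ∑ i, κ i * ∑ l, Q i l * em B L m l)
    (c : I → L') :
    pr B (fun m => τ (lam m)) (fun a => ∑ i, τ (P a i) * c i) = ∑ i, τ (κ i) * c i := by
  obtain ⟨-, -, -, -, hτ⟩ := h5 p L I M B
  obtain ⟨hτ1, -⟩ := hτ L' τ
  obtain ⟨⟨-, -, -, hspan, -⟩, -⟩ := h5 p L' I M B
  have hz : ∀ z : I → L', pr B (fun m => τ (lam m)) z =
      ∑ i, τ (κ i) * ∑ l, τ (Q i l) * z l := by
    intro z
    have e1 : ∀ l, z l = ∑ k, z k * em B L' (bs B k) l := fun l => by
      have := congrFun (hspan z) l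
      simpa only [Finset.sum_apply, Pi.smul_apply, smul_eq_mul] using this
    have e2 : ∀ k, τ (lam (bs B k)) = ∑ i, τ (κ i) * ∑ l, τ (Q i l) * em B L' (bs B k) l := by
      intro k
      rw [hlam, map_sum]
      refine Finset.sum_congr rfl fun i _ => ?_
      rw [map_mul, map_sum]
      congr 1
      refine Finset.sum_congr rfl fun l _ => ?_
      rw [map_mul]
      congr 1
      exact congrFun (hτ1 (bs B k)) l
    have e3 : ∀ i, ∑ l, τ (Q i l) * z l =
        ∑ k, (∑ l, τ (Q i l) * em B L' (bs B k) l) * z k := by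
      intro i
      calc ∑ l, τ (Q i l) * z l = ∑ l, τ (Q i l) * ∑ k, z k * em B L' (bs B k) l := by
            refine Finset.sum_congr rfl fun l _ => ?_
            rw [← e1 l]
        _ = ∑ l, ∑ k, τ (Q i l) * em B L' (bs B k) l * z k := by
            refine Finset.sum_congr rfl fun l _ => ?_
            rw [Finset.mul_sum]
            refine Finset.sum_congr rfl fun k _ => ?_
            ring
        _ = ∑ k, (∑ l, τ (Q i l) * em B L' (bs B k) l) * z k := by
            rw [Finset.sum_comm]
            refine Finset.sum_congr rfl fun k _ => ?_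
            rw [Finset.sum_mul]
    calc pr B (fun m => τ (lam m)) z =
          ∑ k, (∑ i, τ (κ i) * ∑ l, τ (Q i l) * em B L' (bs B k) l) * z k := by
          unfold pr
          refine Finset.sum_congr rfl fun k _ => ?_
          rw [← e2 k]
      _ = ∑ k, ∑ i, τ (κ i) * ((∑ l, τ (Q i l) * em B L' (bs B k) l) * z k) := by
          refine Finset.sum_congr rfl fun k _ => ?_
          rw [Finset.sum_mul]
          refine Finset.sum_congr rfl fun i _ => ?_
          ring
      _ = ∑ i, τ (κ i) * ∑ l, τ (Q i l) * z l := by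
          rw [Finset.sum_comm]
          refine Finset.sum_congr rfl fun i _ => ?_
          rw [e3 i, Finset.mul_sum]
  rw [hz]
  refine Finset.sum_congr rfl fun i _ => ?_
  rw [rp_inv' Q P hQP τ c i]

/-- The reduction to rank one. -/
private lemma rp_fun (h4 : S_Rk1) (p : ℕ) [Fact p.Prime] (K : Type) [Field K] [CharP K p]
    (hK : GFld p K) (J : Type) (av : J → AbsoluteValue K ℝ) [Fintype J] [Nonempty J]
    (hpls : Pls av) (I : Type) [Fintype I] [DecidableEq I]
    (lam' : (∀ j, I → (av j).Completion) →+ ZMod p) (b : I → K) (hb0 : ∀ i, b i ≠ 0)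
    (hvan : ∀ i, ∀ a ∈ OS av,
      lam' (fun j => Pi.single i (algebraMap K (av j).Completion (b i * a))) = 0)
    (r : ℝ) (hr : 0 < r)
    (hcon : ∀ Y : ∀ j, I → (av j).Completion, (∀ j i, ‖Y j i‖ ≤ r) → lam' Y = 0)
    (hne : lam' ≠ 0) :
    ∃ (μ₀ : (∀ j, (av j).Completion) →+ ZMod p) (κ : I → K), Fnc p av μ₀ ∧ μ₀ ≠ 0 ∧
      ∀ Y : ∀ j, I → (av j).Completion,
        lam' Y = μ₀ fun j => ∑ i, algebraMap K (av j).Completion (κ i) * Y j i := by
  let A : I → ((∀ j, (av j).Completion) →+ ∀ j, I → (av j).Completion) := fun i =>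
    { toFun := fun s j => Pi.single i (algebraMap K (av j).Completion (b i) * s j)
      map_zero' := by
        funext j
        simp
      map_add' := fun s s' => by
        funext j
        simp only [Pi.add_apply, mul_add]
        exact Pi.single_add i _ _ }
  have hA : ∀ i s, A i s = fun j => Pi.single i (algebraMap K (av j).Completion (b i) * s j) :=
    fun i s => rfl
  let μ : I → ((∀ j, (av j).Completion) →+ ZMod p) := fun i => lam'.comp (A i)
  have hμ : ∀ i s, μ i s = lam' (fun j => Pi.single i (algebraMap K (av j).Completion (b i) * s j)) :=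
    fun i s => rfl
  have hb0' : ∀ i j, algebraMap K (av j).Completion (b i) ≠ 0 := fun i j h0 =>
    hb0 i ((map_eq_zero (algebraMap K (av j).Completion)).mp h0)
  have hF : ∀ i, Fnc p av (μ i) := by
    intro i
    refine ⟨?_, ?_⟩
    · set C : ℝ := ∑ j, ‖algebraMap K (av j).Completion (b i)‖ + 1 with hC
      have hC0 : 0 < C := by
        have : 0 ≤ ∑ j, ‖algebraMap K (av j).Completion (b i)‖ :=
          Finset.sum_nonneg fun j _ => norm_nonneg _
        linarith
      refine ⟨r / C, div_pos hr hC0, fun s hs => ?_⟩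
      rw [hμ]
      refine hcon _ fun j i' => ?_
      by_cases hi : i' = i
      · subst hi
        rw [Pi.single_eq_same]
        have h1 : ‖algebraMap K (av j).Completion (b i')‖ ≤ C := by
          have := Finset.single_le_sum (f := fun j => ‖algebraMap K (av j).Completion (b i')‖)
            (fun j _ => norm_nonneg _) (Finset.mem_univ j)
          rw [hC]
          linarith
        calc ‖algebraMap K (av j).Completion (b i') * s j‖
            ≤ ‖algebraMap K (av j).Completion (b i')‖ * ‖s j‖ := norm_mul_le _ _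
          _ ≤ C * (r / C) := mul_le_mul h1 (hs j) (norm_nonneg _) hC0.le
          _ = r := by field_simp
      · rw [Pi.single_eq_of_ne hi, norm_zero]
        exact hr.le
    · intro a ha
      rw [hμ, ← hvan i a ha]
      congr 1
      funext j
      rw [map_mul]
  have hdec : ∀ Y : ∀ j, I → (av j).Completion,
      lam' Y = ∑ i, μ i fun j => (algebraMap K (av j).Completion (b i))⁻¹ * Y j i := by
    intro Y
    have e1 : Y = ∑ i, fun j => (Pi.single i (Y j i) : I → (av j).Completion) := by
      funext j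
      rw [Finset.sum_apply]
      exact (Finset.univ_sum_single (Y j)).symm
    conv_lhs => rw [e1]
    rw [map_sum]
    refine Finset.sum_congr rfl fun i _ => ?_
    rw [hμ]
    congr 1
    funext j
    rw [mul_inv_cancel_left₀ (hb0' i j)]
  obtain ⟨i₀, hi₀⟩ : ∃ i, μ i ≠ 0 := by
    by_contra hcon'
    push Not at hcon'
    apply hne
    ext Y
    rw [hdec Y]
    simp only [hcon', AddMonoidHom.zero_apply, Finset.sum_const_zero]
  have hκ : ∀ i, ∃ κ : K, ∀ y, μ i y = μ i₀ fun j => algebraMap K (av j).Completion κ * y j :=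
    fun i => h4 p K hK J av hpls (μ i₀) (μ i) (hF i₀) (hF i) hi₀
  choose κ hκ using hκ
  refine ⟨μ i₀, fun i => κ i * (b i)⁻¹, hF i₀, hi₀, fun Y => ?_⟩
  rw [hdec Y]
  have e2 : (fun j => ∑ i, algebraMap K (av j).Completion (κ i * (b i)⁻¹) * Y j i) =
      ∑ i, fun j => algebraMap K (av j).Completion (κ i * (b i)⁻¹) * Y j i := by
    funext j
    rw [Finset.sum_apply]
  rw [e2, map_sum]
  refine Finset.sum_congr rfl fun i _ => ?_
  rw [hκ i]
  congr 1
  funext j
  rw [map_mul, map_inv₀, mul_assoc]

/-- Common denominators. -/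
private lemma rp_den (h7 : S_Oin) (p : ℕ) [Fact p.Prime] (K : Type) [Field K] [CharP K p]
    (hK : GFld p K) (J : Type) (av : J → AbsoluteValue K ℝ) (α : Kgs K) (h : K)
    (hh : HS p av α h) (I : Type) [Fintype I] [DecidableEq I] (P : Matrix I I (OmS p av α)) :
    ∃ b : I → K, (∀ i, b i ∈ OS av) ∧ (∀ i, b i ≠ 0) ∧
      ∀ a i, algebraMap K (OmS p av α) (b i) * P a i ∈ OIn p av α := by
  obtain ⟨q1, -, -, q4, -⟩ := h7 p K hK J av α h hh
  have hq : ∀ a i, ∃ b ∈ OS av, b ≠ 0 ∧ algebraMap K (OmS p av α) b * P a i ∈ OIn p av α :=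
    fun a i => q4 (P a i)
  choose bb hb1 hb2 hb3 using hq
  refine ⟨fun i => ∏ a, bb a i, fun i => ?_, fun i => ?_, fun a i => ?_⟩
  · exact Subring.prod_mem _ fun a _ => hb1 a i
  · exact Finset.prod_ne_zero_iff.mpr fun a _ => hb2 a i
  · have e1 : ∏ a', bb a' i = (∏ a' ∈ Finset.univ.erase a, bb a' i) * bb a i :=
      (Finset.prod_erase_mul _ _ (Finset.mem_univ a)).symm
    have e2 : algebraMap K (OmS p av α) (∏ a', bb a' i) * P a i ∈ OIn p av α := by
      rw [e1, map_mul, mul_assoc]
      exact Subring.mul_mem _ (q1 _ (Subring.prod_mem _ fun a' _ => hb1 a' i)) (hb3 a i)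
    exact e2

/-- The semilinear action on a combination of fixed columns. -/
private lemma rp_sac (h5 : S_Sac) (p : ℕ) [Fact p.Prime] (L : Type) [Field L] [CharP L p]
    (I M : Type) [Fintype I] [DecidableEq I] [AddCommGroup M] (B : M ≃+ (I → ZMod p))
    (f : M → M) (hf : ∀ m m', f (m + m') = f m + f m') (σ : L →+* L) (P : Matrix I I L)
    (hP : ∀ i, sac B f σ (fun a => P a i) = fun a => P a i) (u : I → L) :
    sac B f σ (fun a => ∑ i, P a i * u i) = fun a => ∑ i, P a i * σ (u i) := by
  obtain ⟨-, -, -, h4, -⟩ := h5 p L I M B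
  obtain ⟨hadd, hsm, -⟩ := h4 f hf σ
  have h0 : sac B f σ (0 : I → L) = 0 := by
    have := hadd 0 0
    rw [add_zero] at this
    exact left_eq_add.mp this
  let Φ : (I → L) →+ (I → L) :=
    { toFun := sac B f σ
      map_zero' := h0
      map_add' := hadd }
  have e1 : (fun a => ∑ i, P a i * u i) = ∑ i, u i • fun a => P a i := by
    funext a
    rw [Finset.sum_apply]
    refine Finset.sum_congr rfl fun i _ => ?_
    rw [Pi.smul_apply, smul_eq_mul, mul_comm]
  have e2 : sac B f σ (∑ i, u i • fun a => P a i) = ∑ i, sac B f σ (u i • fun a => P a i) :=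
    map_sum Φ _ _
  rw [e1, e2]
  funext a
  rw [Finset.sum_apply]
  refine Finset.sum_congr rfl fun i _ => ?_
  rw [hsm, hP i, Pi.smul_apply, smul_eq_mul, mul_comm]

theorem tRep (h1 : S_Dsc) (h2 : S_Hst) (h3 : S_Rgo) (h4 : S_Rk1) (h5 : S_Sac) (h6 : S_Spe)
    (h7 : S_Oin) (h8 : S_Rlm) (h9 : S_Rls) (h10 : S_Fnm) (h11 : S_Fnp) : S_Rep := by
  have _ := h1
  have _ := h3
  intro p _ K _ _ hK J av α h ι d T t w₀ e y b HT I M _ _ _ _ B ρ hρ η hη hker
  have hh := HT.hs
  have hL : ActL ρ := ⟨hρ.add, hρ.one, hρ.mul, hρ.loc⟩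
  obtain ⟨-, -, hgal, -⟩ := h2 p K hK J av α h hh
  have hchO : CharP (OmS p av α) p :=
    charP_of_injective_algebraMap (algebraMap K (OmS p av α)).injective p
  have hch : ∀ j, CharP (av j).Completion p := fun j =>
    charP_of_injective_algebraMap (algebraMap K (av j).Completion).injective p
  have hch' : ∀ j, CharP (Kvs (av j)) p := fun j => by
    have := hch j
    exact charP_of_injective_algebraMap (algebraMap (av j).Completion (Kvs (av j))).injective p
  obtain ⟨⟨P, Q, hPQ, hQP, hPf⟩, hfix⟩ := h6 p K (OmS p av α) I M B ρ hL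
  obtain ⟨lam', hlam'⟩ := h10 p K hK J av α h ι d T t w₀ e y b HT I M B ρ hρ η hker P Q hPQ hPf
  obtain ⟨hvan, ⟨r, hr, hcon⟩, hne⟩ :=
    h11 p K hK J av α h ι d T t w₀ e y b HT I M B ρ hρ η P Q hPQ hPf lam' hlam'
  obtain ⟨q1, -⟩ := h7 p K hK J av α h hh
  obtain ⟨bb, hb1, hb2, hb3⟩ := rp_den h7 p K hK J av α h hh I P
  have hfin := hh.fin
  have hnem := hh.nem
  have hft : Fintype J := Fintype.ofFinite J
  obtain ⟨μ₀, κ, hF, hμ0, hμ⟩ := rp_fun h4 p K hK J av hh.pls I lam' bb hb2 (by
    intro i a ha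
    have e0 := hvan (Pi.single i (bb i * a)) (by
      intro a'
      have e1 : ∑ i', P a' i' * algebraMap K (OmS p av α) ((Pi.single i (bb i * a) : I → K) i') =
          algebraMap K (OmS p av α) a * (algebraMap K (OmS p av α) (bb i) * P a' i) := by
        rw [Finset.sum_eq_single i]
        · rw [Pi.single_eq_same, map_mul]
          ring
        · intro i' _ hi'
          rw [Pi.single_eq_of_ne hi', map_zero, mul_zero]
        · intro hi'
          exact absurd (Finset.mem_univ i) hi'
      rw [e1]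
      exact Subring.mul_mem _ (q1 a ha) (hb3 a' i))
    rw [← e0]
    congr 1
    funext j i'
    by_cases hi : i' = i
    · subst hi
      rw [Pi.single_eq_same, Pi.single_eq_same]
    · rw [Pi.single_eq_of_ne hi, Pi.single_eq_of_ne hi, map_zero]) r hr hcon (hne hη)
  -- the map to `OmS`
  obtain ⟨⟨hem, -⟩, -, -, hsac, -⟩ := h5 p (OmS p av α) I M B
  let lam : M →+ OmS p av α := AddMonoidHom.mk'
    (fun m => ∑ i, algebraMap K (OmS p av α) (κ i) * ∑ l, Q i l * em B (OmS p av α) m l) (by
      intro m m'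
      rw [← Finset.sum_add_distrib]
      refine Finset.sum_congr rfl fun i _ => ?_
      rw [← mul_add, ← Finset.sum_add_distrib]
      congr 1
      refine Finset.sum_congr rfl fun l _ => ?_
      rw [hem m m', Pi.add_apply, mul_add])
  have hlam : ∀ m, lam m =
      ∑ i, algebraMap K (OmS p av α) (κ i) * ∑ l, Q i l * em B (OmS p av α) m l := fun m => rfl
  have hprO : ∀ c : I → OmS p av α, pr B lam (fun a => ∑ i, P a i * c i) =
      ∑ i, algebraMap K (OmS p av α) (κ i) * c i := fun c =>
    rp_pr h5 p (OmS p av α) (OmS p av α) (RingHom.id _) I M B P Q hQP _ lam hlam c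
  have hρ0 : ∀ g, ρ g 0 = 0 := by
    intro g
    have := hρ.add g 0 0
    rw [add_zero] at this
    exact left_eq_add.mp this
  refine ⟨μ₀, lam, hF, hμ0, ?_, ?_, ?_⟩
  · -- eqv
    intro g m
    obtain ⟨-, -, hsem, -⟩ := hsac (ρ g) (hρ.add g) (g : OmS p av α →+* OmS p av α)
    have e1 : em B (OmS p av α) m =
        fun a => ∑ i, P a i * ∑ l, Q i l * em B (OmS p av α) m l := by
      funext a
      exact (rp_inv P Q hPQ (em B (OmS p av α) m) a).symm
    have e2 : em B (OmS p av α) (ρ g m) =
        fun a => ∑ i, P a i * g (∑ l, Q i l * em B (OmS p av α) m l) := by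
      rw [← hsem m, e1]
      have e3 := rp_sac h5 p (OmS p av α) I M B (ρ g) (hρ.add g) (g : OmS p av α →+* OmS p av α)
        P (fun i => hPf i g) (fun i => ∑ l, Q i l * em B (OmS p av α) m l)
      rw [← e1]
      rw [← e1] at e3
      exact e3
    have e4 : lam (ρ g m) = pr B lam (em B (OmS p av α) (ρ g m)) := by
      obtain ⟨-, -, hpr, -⟩ := h5 p (OmS p av α) I M B
      exact ((hpr lam (fun m m' => map_add lam m m')).2.2.1 (ρ g m)).symm
    rw [e4, e2, hprO, hlam m, map_sum]
    refine Finset.sum_congr rfl fun i _ => ?_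
    rw [map_mul, AlgEquiv.commutes]
  · -- val
    intro yy f hrel htest
    have hloc : ∀ j, ∃ Y : I → (av j).Completion, ∀ a, fb p (yy j) a =
        ∑ i, ι j (P a i : Kgs K) * algebraMap (av j).Completion (Kvs (av j)) (Y i) := by
      intro j
      have := hch j
      have := hch' j
      obtain ⟨r1, -, r3, -⟩ := h9 p K hK J av α h hh (av j) (hch' j) (ι j) I M B ρ hL
      obtain ⟨-, s2, -⟩ := h8 p (av j).Completion (Kvs (av j)) I M B
        (fun g => ρ (rOm p av α (ι j) g)) r1
      obtain ⟨s3, -⟩ := s2 (f j) (yy j) (hrel j)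
      obtain ⟨-, s4⟩ := h6 p (av j).Completion (Kvs (av j)) I M B
        (fun g => ρ (rOm p av α (ι j) g)) r1
      let τ : OmS p av α →+* Kvs (av j) := ((ι j).comp (OmS p av α).val : OmS p av α →ₐ[K] Kvs (av j))
      have hτ : P.map τ * Q.map τ = 1 := by
        rw [← Matrix.map_mul, hPQ, Matrix.map_one τ (map_zero τ) (map_one τ)]
      exact (s4 (P.map τ) (Q.map τ) hτ (fun i => r3 (fun a => P a i) (hPf i)) (fb p (yy j))).mp s3
    choose Y hY using hloc
    refine ⟨fun j => ∑ i, algebraMap K (av j).Completion (κ i) * Y j i, fun j => ?_, ?_⟩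
    · have := hch j
      have := hch' j
      let τ : OmS p av α →+* Kvs (av j) := ((ι j).comp (OmS p av α).val : OmS p av α →ₐ[K] Kvs (av j))
      have e1 := rp_pr h5 p (OmS p av α) (Kvs (av j)) τ I M B P Q hQP _ lam hlam
        (fun i => algebraMap (av j).Completion (Kvs (av j)) (Y j i))
      have e2 : fb p (yy j) = fun a => ∑ i, τ (P a i) *
          algebraMap (av j).Completion (Kvs (av j)) (Y j i) := funext (hY j)
      have e3 : ∀ x : K, τ (algebraMap K (OmS p av α) x) =
          algebraMap (av j).Completion (Kvs (av j)) (algebraMap K (av j).Completion x) := by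
        intro x
        have : τ (algebraMap K (OmS p av α) x) = algebraMap K (Kvs (av j)) x :=
          AlgHom.commutes ((ι j).comp (OmS p av α).val) x
        rw [this]
        exact IsScalarTower.algebraMap_apply K (av j).Completion (Kvs (av j)) x
      rw [e2]
      refine Eq.trans ?_ e1.symm
      rw [map_sum]
      refine Finset.sum_congr rfl fun i _ => ?_
      rw [map_mul, e3]
    · rw [← hμ Y, hlam' Y yy f 0 hrel hY ⟨IsLocallyConstant.const 0, fun g g' => by
        simp [hρ0]⟩ (fun j i => by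
          rw [htest j i]
          simp [psi, hρ0])]
      congr 1
      funext i
      simp [psi, hρ0]
  · -- glo
    intro Y hYO hYf
    obtain ⟨c, hc⟩ := (hfix P Q hPQ hPf Y).mp hYf
    refine ⟨∑ i, κ i * c i, ?_, ?_⟩
    · have e1 : Y = fun a => ∑ i, P a i * algebraMap K (OmS p av α) (c i) := funext hc
      rw [e1, hprO, map_sum]
      refine Finset.sum_congr rfl fun i _ => ?_
      rw [map_mul]
    · have e2 := hμ fun j i => algebraMap K (av j).Completion (c i)
      rw [hvan c (fun a => by rw [← hc a]; exact hYO a)] at e2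
      rw [e2]
      congr 1
      funext j
      rw [map_sum]
      refine Finset.sum_congr rfl fun i _ => ?_
      rw [map_mul]

end Pool.Agent.MP72G
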