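import Pool.Agent.Lib.MP_72e2e6_nt.P4.V.Spec

/-!
# MP_72e2e6_nt, theorem T4, part V: Rlm, the relation `RlM`
-/

set_option autoImplicit false

namespace Pool.Agent.MP72G

open Finset Pool.Agent.MP72P IntermediateField

/-- **Rlm.** The relation `RlM`. -/
theorem tRlm (h1 : S_Sac) (h2 : S_Had) : S_Rlm := by
  intro p _ k L _ _ _ _ _ _ I M _ _ _ _ B ρ hρ
  obtain ⟨⟨emadd, eminj, fb0, -, fbadd, mptid, -⟩, -, -, A4, -⟩ := h1 p L I M B
  have sacadd : ∀ (g : Gal(L/k)) (y y' : I → L),
      sac B (ρ g) g (y + y') = sac B (ρ g) g y + sac B (ρ g) g y' := fun g y y' =>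
    (A4 (ρ g) (hρ.add g) (g : L →+* L)).1 y y'
  have sacem : ∀ (g : Gal(L/k)) (m : M), sac B (ρ g) g (em B L m) = em B L (ρ g m) :=
    fun g m => (A4 (ρ g) (hρ.add g) (g : L →+* L)).2.2.1 m
  have sacfb : ∀ (g : Gal(L/k)) (y : I → L), fb p (sac B (ρ g) g y) = sac B (ρ g) g (fb p y) :=
    fun g y => (A4 (ρ g) (hρ.add g) (g : L →+* L)).2.2.2.1 y
  have saccomp : ∀ (g g' : Gal(L/k)) (y : I → L),
      sac B (ρ g) g (sac B (ρ g') g' y) = sac B (ρ (g * g')) (g * g' : Gal(L/k)) y := by
    intro g g' y
    have e := (A4 (ρ g) (hρ.add g) (g : L →+* L)).2.2.2.2.2 (ρ g') (hρ.add g') (g' : L →+* L) y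
    have e2 : ρ (g * g') = fun m => ρ g (ρ g' m) := funext (hρ.mul g g')
    rw [e2]
    exact e
  have emzero : em B L (0 : M) = 0 := by
    have e := emadd 0 0
    rw [add_zero] at e
    exact left_eq_add.1 e
  have emsub : ∀ m m' : M, em B L (m - m') = em B L m - em B L m' := by
    intro m m'
    have e := emadd (m - m') m'
    rw [sub_add_cancel] at e
    rw [e, add_sub_cancel_right]
  have eminj' : ∀ m m' : M, em B L m = em B L m' → m = m' := by
    intro m m' e
    refine sub_eq_zero.1 (eminj _ ?_)
    rw [emsub, e, sub_self]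
  have sacsub : ∀ (g : Gal(L/k)) (y y' : I → L),
      sac B (ρ g) g (y - y') = sac B (ρ g) g y - sac B (ρ g) g y' := by
    intro g y y'
    have e := sacadd g (y - y') y'
    rw [sub_add_cancel] at e
    rw [e, add_sub_cancel_right]
  have fbem : ∀ m : M, fb p (em B L m) = 0 := fun m => (fb0 _).2 ⟨m, rfl⟩
  refine ⟨?_, ?_, ?_, ?_, ?_, ?_, ?_⟩
  · intro y hy
    have key : ∀ g : Gal(L/k), ∃ m : M, sac B (ρ g) g y = y + em B L m := by
      intro g
      have e1 : fb p (sac B (ρ g) g y - y) = 0 := by
        have e := fbadd (sac B (ρ g) g y - y) y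
        rw [sub_add_cancel, sacfb, hy g] at e
        exact right_eq_add.1 e
      obtain ⟨m, hm⟩ := (fb0 _).1 e1
      exact ⟨m, by rw [← hm, add_sub_cancel]⟩
    choose c hc using key
    exact ⟨c, hc⟩
  · intro c y hy
    have hmul : ∀ g h, c (g * h) = c g + ρ g (c h) := by
      intro g h
      refine eminj' _ _ ?_
      have e := hy (g * h)
      rw [← saccomp, hy h, sacadd, hy g, sacem, add_assoc] at e
      rw [emadd]
      exact (add_left_cancel e).symm
    refine ⟨fun g => ?_, ⟨?_, hmul⟩⟩
    · rw [← sacfb, hy g, fbadd, fbem, add_zero]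
    · -- locally constant
      let W : Set Gal(L/k) :=
        (⋂ i : I, (MulAction.stabilizer Gal(L/k) (y i) : Set Gal(L/k))) ∩
          ⋂ m : M, {g | ρ g m = m}
      have hWo : IsOpen W := by
        refine IsOpen.inter (isOpen_iInter_of_finite fun i => ?_)
          (isOpen_iInter_of_finite fun m => (hρ.loc m).isOpen_fiber m)
        exact stabilizer_isOpen_of_isIntegral (K := k) (y i)
      have hcW : ∀ u ∈ W, c u = 0 := by
        intro u hu
        refine eminj _ ?_
        have e := hy u
        have e1 : ρ u = fun m => m := funext fun m => (Set.mem_iInter.1 hu.2) m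
        have e2 : sac B (ρ u) u y = y := by
          rw [sac, e1]
          have e3 : (fun k => u (y k)) = y := by
            funext i
            exact (Set.mem_iInter.1 hu.1) i
          rw [e3]
          exact mptid y
        rw [e2] at e
        exact left_eq_add.1 e
      rw [IsLocallyConstant.iff_exists_open]
      intro g
      refine ⟨{x | g⁻¹ * x ∈ W}, hWo.preimage (continuous_const.mul continuous_id), ?_, ?_⟩
      · show g⁻¹ * g ∈ W
        rw [inv_mul_cancel]
        refine ⟨Set.mem_iInter.2 fun i => Subgroup.one_mem _, Set.mem_iInter.2 fun m => hρ.one m⟩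
      · intro x hx
        have e := hmul g (g⁻¹ * x)
        rw [mul_inv_cancel_left, hcW _ hx] at e
        have e0 : ρ g 0 = 0 := by
          have e1 := hρ.add g 0 0
          rw [add_zero] at e1
          exact left_eq_add.1 e1
        rw [e, e0, add_zero]
  · intro c c' y y' hy hy'
    constructor
    · intro g
      rw [sacadd, hy g, hy' g, Pi.add_apply, emadd]
      abel
    · intro g
      rw [sacsub, hy g, hy' g, Pi.sub_apply, emsub]
      abel
  · intro c y hy h0
    obtain ⟨m, hm⟩ := (fb0 y).1 h0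
    refine ⟨m, fun g => eminj' _ _ ?_⟩
    have e := hy g
    rw [hm, sacem] at e
    rw [emsub, e, add_sub_cancel_left]
  · intro c y hy h0
    funext g
    have e := hy g
    rw [h0 g] at e
    exact eminj _ (left_eq_add.1 e)
  · intro y hy g
    rw [hy g, Pi.zero_apply, emzero, add_zero]
  · intro O hO c hc
    have hc1 : c 1 = 0 := by
      have e := hc.mul 1 1
      rw [mul_one, hρ.one] at e
      exact left_eq_add.1 e
    refine h2 p k L O hO I M B ρ hρ (fun g => em B L (c g)) (fun g i => natCast_mem O _)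
      (fun g g' => ?_) ?_
    · show em B L (c (g * g')) = em B L (c g) + sac B (ρ g) g (em B L (c g'))
      rw [hc.mul, emadd, sacem]
    · have ho : IsOpen {g | c g = 0} := hc.loc.isOpen_fiber 0
      have hn : {g | c g = 0} ∈ nhds (1 : Gal(L/k)) := ho.mem_nhds hc1
      obtain ⟨E, hE, hsub⟩ := (krullTopology_mem_nhds_one_iff k L _).1 hn
      refine ⟨E.fixingSubgroup, IntermediateField.fixingSubgroup_isOpen E, fun g hg => ?_⟩
      show em B L (c g) = 0
      have e : c g = 0 := hsub hg
      rw [e, emzero]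

end Pool.Agent.MP72G
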