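import Pool.Agent.Lib.MP_72e2e6_nt.P4.V.Spec

/-!
# MP_72e2e6_nt, theorem T4, V/Rls: restriction to a local Galois group
-/

set_option autoImplicit false

namespace Pool.Agent.MP72G

open Finset Pool.Agent.MP72P IntermediateField

/-- Restriction to a local Galois group. -/
theorem tRls (_h1 : S_Hst) (h2 : S_Rgo) (h3 : S_Sac) : S_Rls := by
  intro p hp K _ _ hG J av α h hHS v hcv ι I M _ _ _ _ B ρ hρ
  obtain ⟨hcont, -, hι, -⟩ := (h2 p K hG J av α h hHS).2.2.2.2.2.2 v ι
  have hcO : CharP (OmS p av α) p :=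
    charP_of_injective_algebraMap (algebraMap K (OmS p av α)).injective p
  have hcL : CharP (Kvs v) p := hcv
  -- the ring homomorphism
  let τ : (OmS p av α) →+* Kvs v := (ι.comp (OmS p av α).val).toRingHom
  have hτ : ∀ x : OmS p av α, τ x = ι (x : Kgs K) := fun _ => rfl
  obtain ⟨-, -, -, -, hlast⟩ := h3 p (OmS p av α) I M B
  obtain ⟨hem, -, hpr, hsac⟩ := hlast (Kvs v) τ
  obtain ⟨-, -, hlam, -, -⟩ := h3 p (Kvs v) I M B
  have hS : ∀ (g : Gal(Kvs v/v.Completion)) (y : I → OmS p av α),
      sac B (ρ (rOm p av α ι g)) g (fun i => ι (y i : Kgs K)) =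
        fun i => ι ((sac B (ρ (rOm p av α ι g)) (rOm p av α ι g) y i : OmS p av α) : Kgs K) := by
    intro g y
    exact (hsac (ρ (rOm p av α ι g)) (rOm p av α ι g) g (fun x => (hι g x).symm) y).symm
  refine ⟨?_, hS, ?_, ?_, ?_⟩
  · refine ⟨fun g x y => hρ.add _ x y, fun x => ?_, fun g g' x => ?_, fun x => ?_⟩
    · change ρ (rOm p av α ι 1) x = x
      rw [map_one]
      exact hρ.one x
    · change ρ (rOm p av α ι (g * g')) x = _
      rw [map_mul]
      exact hρ.mul _ _ x
    · exact (hρ.loc x).comp_continuous hcont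
  · intro y hy g
    have h4 := hS g y
    rw [hy (rOm p av α ι g)] at h4
    exact h4
  · intro c y hy g
    have h4 := hS g y
    rw [hy (rOm p av α ι g)] at h4
    rw [h4]
    funext i
    have h5 : τ (em B (OmS p av α) (c (rOm p av α ι g)) i) =
        em B (Kvs v) (c (rOm p av α ι g)) i := congrFun (hem (c (rOm p av α ι g))) i
    change τ (y i + em B (OmS p av α) (c (rOm p av α ι g)) i) = τ (y i) + _
    rw [map_add, h5]
  · intro lam heq
    refine ⟨?_, ?_⟩
    · intro g y
      have hadd : ∀ m m', (fun m => ι (lam m : Kgs K)) (m + m') =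
          (fun m => ι (lam m : Kgs K)) m + (fun m => ι (lam m : Kgs K)) m' := by
        intro m m'
        change τ (lam (m + m')) = τ (lam m) + τ (lam m')
        rw [map_add, map_add]
      obtain ⟨-, -, -, h4⟩ := hlam (fun m => ι (lam m : Kgs K)) hadd
      refine (h4 (ρ (rOm p av α ι g)) (fun m m' => hρ.add _ m m') (g : Kvs v →+* Kvs v) ?_ y).symm
      intro m
      change g (ι (lam m : Kgs K)) = ι (lam (ρ (rOm p av α ι g) m) : Kgs K)
      rw [hι, heq]
    · intro y
      exact (hpr (fun m => lam m) y).symm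

end Pool.Agent.MP72G
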