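import Pool.Agent.Lib.MP_72e2e6_nt.P4.V.Spec

/-! Speiser's theorem. -/

set_option autoImplicit false

namespace Pool.Agent.MP72G

open Pool.Agent.MP72P

/-- shift of the summation -/
private theorem spe_shift {G A : Type} [Group G] [AddCommMonoid A] {U : Subgroup G}
    [Fintype (G ⧸ U)] (F : G → A) (hF : ∀ g, ∀ u ∈ U, F (g * u) = F g) (γ : G) :
    ∑ q : G ⧸ U, F (γ * Quotient.out q) = ∑ q : G ⧸ U, F (Quotient.out q) := by
  have h1 : ∀ q : G ⧸ U, F (γ * Quotient.out q) = F (Quotient.out (γ • q)) := by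
    intro q
    have h2 : γ • q = ((γ * Quotient.out q : G) : G ⧸ U) := by
      conv_lhs => rw [← QuotientGroup.out_eq' q]
      rfl
    obtain ⟨u, hu⟩ := QuotientGroup.mk_out_eq_mul U (γ * Quotient.out q)
    rw [h2, hu]
    exact (hF _ _ u.2).symm
  simp only [h1]
  exact Equiv.sum_comp (MulAction.toPerm γ : Equiv.Perm (G ⧸ U)) fun q => F (Quotient.out q)

/-- open subgroups acting trivially -/
private theorem spe_open {k L M I : Type} [Field k] [Field L] [Algebra k L] [IsGalois k L]
    [AddCommGroup M] [Finite M] [Finite I] {ρ : Gal(L/k) → M → M} (hρ : ActL ρ) (y : I → L) :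
    ∃ E : IntermediateField k L, FiniteDimensional k E ∧
      (∀ g ∈ E.fixingSubgroup, ∀ i, g (y i) = y i) ∧ ∀ g ∈ E.fixingSubgroup, ∀ m, ρ g m = m := by
  have h1 : (⋂ m : M, {g : Gal(L/k) | ρ g m = m}) ∈ nhds (1 : Gal(L/k)) := by
    rw [Filter.iInter_mem]
    intro m
    exact ((hρ.loc m).isOpen_fiber m).mem_nhds (hρ.one m)
  have h2 : (⋂ i : I, {g : Gal(L/k) | g (y i) = y i}) ∈ nhds (1 : Gal(L/k)) := by
    rw [Filter.iInter_mem]
    intro i
    rw [krullTopology_mem_nhds_one_iff]
    have : FiniteDimensional k (IntermediateField.adjoin k {y i}) :=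
      IntermediateField.adjoin.finiteDimensional (Algebra.IsIntegral.isIntegral (y i))
    refine ⟨IntermediateField.adjoin k {y i}, this, fun g hg => ?_⟩
    exact (IntermediateField.mem_fixingSubgroup_iff _ _).1 hg _
      (IntermediateField.mem_adjoin_simple_self k (y i))
  obtain ⟨E, hE1, hE⟩ := (krullTopology_mem_nhds_one_iff k L _).1 (Filter.inter_mem h1 h2)
  exact ⟨E, hE1, fun g hg i => Set.mem_iInter.1 (hE hg).2 i, fun g hg m =>
    Set.mem_iInter.1 (hE hg).1 m⟩

theorem tSpe (h1 : S_Sac) : S_Spe := by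
  intro p _ k L _ _ _ _ _ _ I M _ _ _ _ B ρ hρ
  classical
  obtain ⟨hP1, -, -, hS, -⟩ := h1 p L I M B
  have hadd : ∀ (g : Gal(L/k)) (y y' : I → L), sac B (ρ g) g (y + y') =
      sac B (ρ g) g y + sac B (ρ g) g y' := fun g => (hS (ρ g) (hρ.add g) (g : L →+* L)).1
  have hsmul : ∀ (g : Gal(L/k)) (c : L) (y : I → L), sac B (ρ g) g (c • y) =
      g c • sac B (ρ g) g y := fun g => (hS (ρ g) (hρ.add g) (g : L →+* L)).2.1
  have hcomp : ∀ (g h : Gal(L/k)) (y : I → L), sac B (ρ g) g (sac B (ρ h) h y) =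
      sac B (ρ (g * h)) (g * h : Gal(L/k)) y := by
    intro g h y
    have h3 := (hS (ρ g) (hρ.add g) (g : L →+* L)).2.2.2.2.2 (ρ h) (hρ.add h) (h : L →+* L) y
    refine h3.trans ?_
    have h4 : (fun m => ρ g (ρ h m)) = ρ (g * h) := funext fun m => (hρ.mul g h m).symm
    rw [h4]
    rfl
  let S : Gal(L/k) → (I → L) →+ (I → L) := fun g => AddMonoidHom.mk' (sac B (ρ g) g) (hadd g)
  -- the fixed elements span
  have hspan : Submodule.span L {y : I → L | FxV B ρ y} = ⊤ := by
    by_contra hne
    obtain ⟨y, hy⟩ : ∃ y : I → L, y ∉ Submodule.span L {y : I → L | FxV B ρ y} := by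
      by_contra hc
      push Not at hc
      exact hne (Submodule.eq_top_iff'.2 hc)
    obtain ⟨l, hly, hl⟩ := Submodule.exists_le_ker_of_notMem hy
    obtain ⟨E, hE1, hE2, hE3⟩ := spe_open hρ y
    have hUo : IsOpen (E.fixingSubgroup : Set Gal(L/k)) := E.fixingSubgroup_isOpen
    have : Finite (Gal(L/k) ⧸ E.fixingSubgroup) := Subgroup.quotient_finite_of_isOpen _ hUo
    have : Fintype (Gal(L/k) ⧸ E.fixingSubgroup) := Fintype.ofFinite _
    have hyU : ∀ u ∈ E.fixingSubgroup, sac B (ρ u) u y = y := by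
      intro u hu
      have h3 : ρ u = fun m => m := funext fun m => hE3 u hu m
      have h4 : (fun k => u (y k)) = y := funext fun i => hE2 u hu i
      unfold sac
      rw [h3, h4]
      exact hP1.2.2.2.2.2.1 y
    have hzU : ∀ z : E, ∀ u ∈ E.fixingSubgroup, u (z : L) = z := by
      intro z u hu
      exact (IntermediateField.mem_fixingSubgroup_iff _ _).1 hu _ z.2
    have hfix : ∀ z : E, FxV B ρ (∑ q : Gal(L/k) ⧸ E.fixingSubgroup,
        sac B (ρ (Quotient.out q)) (Quotient.out q : Gal(L/k)) ((z : L) • y)) := by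
      intro z g
      have h3 : sac B (ρ g) g (∑ q : Gal(L/k) ⧸ E.fixingSubgroup,
          sac B (ρ (Quotient.out q)) (Quotient.out q : Gal(L/k)) ((z : L) • y)) =
          ∑ q : Gal(L/k) ⧸ E.fixingSubgroup,
          sac B (ρ (g * Quotient.out q)) (g * Quotient.out q : Gal(L/k)) ((z : L) • y) := by
        show S g (∑ q : Gal(L/k) ⧸ E.fixingSubgroup,
          sac B (ρ (Quotient.out q)) (Quotient.out q : Gal(L/k)) ((z : L) • y)) = _
        rw [map_sum]
        exact Finset.sum_congr rfl fun q _ => hcomp _ _ _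
      rw [h3]
      refine spe_shift (U := E.fixingSubgroup) (fun γ : Gal(L/k) =>
        sac B (ρ γ) γ ((z : L) • y)) ?_ g
      intro γ u hu
      show sac B (ρ (γ * u)) (γ * u : Gal(L/k)) ((z : L) • y) = sac B (ρ γ) γ ((z : L) • y)
      rw [← hcomp, hsmul u, hyU u hu, hzU z u hu]
    have hzero : ∀ z : E, ∑ q : Gal(L/k) ⧸ E.fixingSubgroup,
        l (sac B (ρ (Quotient.out q)) (Quotient.out q : Gal(L/k)) y) *
          (Quotient.out q : Gal(L/k)) (z : L) = 0 := by
      intro z
      have h3 := hl (Submodule.subset_span (hfix z))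
      rw [LinearMap.mem_ker, map_sum] at h3
      rw [← h3]
      refine Finset.sum_congr rfl fun q _ => ?_
      rw [hsmul, map_smul, smul_eq_mul, mul_comm]
    let φ : Gal(L/k) ⧸ E.fixingSubgroup → (E →* L) := fun q =>
      (((Quotient.out q : Gal(L/k)) : L →* L)).comp ((algebraMap E L : E →+* L) : E →* L)
    have hφ : Function.Injective φ := by
      intro q q' hqq
      have h3 : (Quotient.out q : Gal(L/k))⁻¹ * Quotient.out q' ∈ E.fixingSubgroup := by
        rw [IntermediateField.mem_fixingSubgroup_iff]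
        intro z hz
        have h4 := DFunLike.congr_fun hqq (⟨z, hz⟩ : E)
        have h5 : (Quotient.out q : Gal(L/k)) z = (Quotient.out q' : Gal(L/k)) z := h4
        rw [AlgEquiv.mul_apply, ← h5]
        exact (Quotient.out q : Gal(L/k)).symm_apply_apply z
      rw [← QuotientGroup.out_eq' q, ← QuotientGroup.out_eq' q']
      exact QuotientGroup.eq.2 h3
    have hli := (linearIndependent_monoidHom E L).comp φ hφ
    rw [Fintype.linearIndependent_iff] at hli
    have h6 := hli (fun q => l (sac B (ρ (Quotient.out q)) (Quotient.out q : Gal(L/k)) y)) (by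
      funext z
      rw [Finset.sum_apply]
      exact hzero z) ((1 : Gal(L/k)) : Gal(L/k) ⧸ E.fixingSubgroup)
    have h7 : (Quotient.out ((1 : Gal(L/k)) : Gal(L/k) ⧸ E.fixingSubgroup) : Gal(L/k)) ∈
        E.fixingSubgroup := by
      obtain ⟨u, hu⟩ := QuotientGroup.mk_out_eq_mul E.fixingSubgroup (1 : Gal(L/k))
      rw [hu, one_mul]
      exact u.2
    simp only [hyU _ h7] at h6
    exact hly h6
  constructor
  · let s : Set (I → L) := {y : I → L | FxV B ρ y}
    let b₀ := Module.Basis.ofSpan (K := L) (s := s) (by rw [hspan])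
    have hb₀ : ∀ i, FxV B ρ (b₀ i) := fun i =>
      Module.Basis.ofSpan_subset (K := L) (s := s) (by rw [hspan]) ⟨i, rfl⟩
    let e := b₀.indexEquiv (Pi.basisFun L I)
    let b₁ := b₀.reindex e
    have hb₁ : ∀ i, FxV B ρ (b₁ i) := by
      intro i
      rw [Module.Basis.reindex_apply]
      exact hb₀ _
    refine ⟨(Pi.basisFun L I).toMatrix b₁, b₁.toMatrix (Pi.basisFun L I), ?_, ?_, fun i => ?_⟩
    · exact Module.Basis.toMatrix_mul_toMatrix_flip _ _
    · exact Module.Basis.toMatrix_mul_toMatrix_flip _ _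
    · exact hb₁ i
  · intro P Q hPQ hP y
    have hQP : Q * P = 1 := mul_eq_one_comm.1 hPQ
    have hsum : ∀ (g : Gal(L/k)) (c : I → L),
        sac B (ρ g) g (∑ i, c i • fun a => P a i) = ∑ i, g (c i) • fun a => P a i := by
      intro g c
      show S g (∑ i, c i • fun a => P a i) = _
      rw [map_sum]
      refine Finset.sum_congr rfl fun i _ => ?_
      show sac B (ρ g) g (c i • fun a => P a i) = _
      rw [hsmul, hP i g]
    have hmv : ∀ c : I → L, (∑ i, c i • fun a => P a i) = P.mulVec c := by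
      intro c
      funext a
      rw [Finset.sum_apply]
      refine Finset.sum_congr rfl fun i _ => ?_
      rw [Pi.smul_apply, smul_eq_mul, mul_comm]
    constructor
    · intro hy
      have h3 : y = ∑ i, Q.mulVec y i • fun a => P a i := by
        rw [hmv, Matrix.mulVec_mulVec, hPQ, Matrix.one_mulVec]
      have h4 : ∀ g : Gal(L/k), ∀ i, g (Q.mulVec y i) = Q.mulVec y i := by
        intro g i
        have h5 := hy g
        rw [h3, hsum, hmv, hmv] at h5
        have h6 := congrArg Q.mulVec h5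
        rw [Matrix.mulVec_mulVec, Matrix.mulVec_mulVec, hQP, Matrix.one_mulVec,
          Matrix.one_mulVec] at h6
        exact congrFun h6 i
      have h5 : ∀ i, ∃ c : k, algebraMap k L c = Q.mulVec y i := fun i =>
        (InfiniteGalois.mem_range_algebraMap_iff_fixed _).2 fun g => h4 g i
      choose c hc using h5
      refine ⟨c, fun a => ?_⟩
      conv_lhs => rw [h3]
      rw [Finset.sum_apply]
      refine Finset.sum_congr rfl fun i _ => ?_
      rw [Pi.smul_apply, smul_eq_mul, mul_comm, hc]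
    · rintro ⟨c, hc⟩ g
      have h3 : y = ∑ i, algebraMap k L (c i) • fun a => P a i := by
        funext a
        rw [hc, Finset.sum_apply]
        refine Finset.sum_congr rfl fun i _ => ?_
        rw [Pi.smul_apply, smul_eq_mul, mul_comm]
      rw [h3, hsum]
      refine Finset.sum_congr rfl fun i _ => ?_
      rw [AlgEquiv.commutes]

end Pool.Agent.MP72G
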