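import Pool.Agent.Lib.MP_72e2e6_nt.P4.V.Spec

/-!
# MP_72e2e6_nt, theorem T4, part V: Trc, elements of trace one
-/

set_option autoImplicit false

namespace Pool.Agent.MP72G

open Finset Pool.Agent.MP72P IntermediateField

/-- The fixed field of an open normal subgroup is a finite Galois extension, and the trace is the
sum of the conjugates. -/
private theorem Trc_trace {K L : Type} [Field K] [Field L] [Algebra K L] [IsGalois K L]
    (U : Subgroup Gal(L/K)) (hU : IsOpen (U : Set Gal(L/K))) (hn : U.Normal) :
    FiniteDimensional K (fixedField U) ∧ IsGalois K (fixedField U) ∧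
    ∀ x : fixedField U, ∑ᶠ q : Gal(L/K) ⧸ U, (Quotient.out q : Gal(L/K)) (x : L) =
      algebraMap K L (Algebra.trace K (fixedField U) x) := by
  let H : ClosedSubgroup Gal(L/K) := ⟨U, U.isClosed_of_isOpen hU⟩
  have hH : (fixedField U).fixingSubgroup = U := InfiniteGalois.fixingSubgroup_fixedField H
  have hfin : FiniteDimensional K (fixedField U) := by
    refine (InfiniteGalois.isOpen_iff_finite (fixedField U)).1 ?_
    have : ((fixedField U).fixingSubgroup.carrier : Set Gal(L/K)) = (U : Set Gal(L/K)) := by
      rw [hH]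
      rfl
    rw [this]
    exact hU
  have hgal : IsGalois K (fixedField U) := inferInstance
  refine ⟨hfin, hgal, fun x => ?_⟩
  have hHn : H.Normal := hn
  let e : Gal(L/K) ⧸ H.1 ≃* Gal(fixedField H.1/K) := InfiniteGalois.normalAutEquivQuotient H
  have h1 : ∑ᶠ q : Gal(L/K) ⧸ U, (Quotient.out q : Gal(L/K)) (x : L) =
      ∑ᶠ σ : Gal(fixedField U/K), ((σ x : fixedField U) : L) := by
    refine finsum_eq_of_bijective (e : Gal(L/K) ⧸ U → Gal(fixedField U/K)) e.bijective ?_
    intro q
    have h2 : e q = AlgEquiv.restrictNormalHom (fixedField U) (Quotient.out q) := by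
      conv_lhs => rw [← QuotientGroup.out_eq' q]
      rfl
    have h3 : ((e q) x : L) = (Quotient.out q) (x : L) := by
      rw [h2]
      exact AlgEquiv.restrictNormalHom_apply (fixedField U) (Quotient.out q) x
    exact h3.symm
  rw [h1, finsum_eq_sum_of_fintype]
  have h4 := trace_eq_sum_automorphisms (K := K) (L := fixedField U) x
  have h5 : algebraMap K L (Algebra.trace K (fixedField U) x) =
      ((algebraMap K (fixedField U) (Algebra.trace K (fixedField U) x) : fixedField U) : L) := rfl
  rw [h5, h4]
  exact (map_sum (fixedField U).val _ _).symm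

/-- **Trc.** Elements of trace one in Galois extensions. -/
theorem tTrc : S_Trc := by
  intro k L _ _ _ _
  refine ⟨fun g x _ => Subring.mem_top _, fun U hU hn => ?_⟩
  obtain ⟨hfin, hgal, htr⟩ := Trc_trace U hU hn
  obtain ⟨x, hx⟩ := Algebra.trace_surjective k (fixedField U) 1
  refine ⟨x, Subring.mem_top _, fun g hg => x.2 ⟨g, hg⟩, ?_⟩
  rw [htr x, hx, map_one]

end Pool.Agent.MP72G
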