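import Pool.Agent.Lib.MP_72e2e6_nt.P4.V.Spec

/-!
# MP_72e2e6_nt, theorem T4, part V: Vaf, the value formula
-/

set_option autoImplicit false
set_option linter.unusedSectionVars false

namespace Pool.Agent.MP72G

open Finset Pool.Agent.MP72P IntermediateField

/-! ### The prime field -/

private theorem va_op (p : ℕ) [Fact p.Prime] (L : Type) [Field L] [CharP L p] (c : ZMod p) :
    op L c = ZMod.castHom (dvd_refl p) L c := by
  rw [op, ZMod.castHom_apply, ZMod.natCast_val]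

private theorem va_op_add (p : ℕ) [Fact p.Prime] (L : Type) [Field L] [CharP L p] (c d : ZMod p) :
    op L (c + d) = op L c + op L d := by
  rw [va_op, va_op, va_op, map_add]

private theorem va_op_mul (p : ℕ) [Fact p.Prime] (L : Type) [Field L] [CharP L p] (c d : ZMod p) :
    op L (c * d) = op L c * op L d := by
  rw [va_op, va_op, va_op, map_mul]

private theorem va_op_pow (p : ℕ) [Fact p.Prime] (L : Type) [Field L] [CharP L p] (c : ZMod p) :
    op L c ^ p = op L c := by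
  rw [va_op, ← map_pow, ZMod.pow_card]

private theorem va_op_zero (p : ℕ) [Fact p.Prime] (L : Type) [Field L] : op L (0 : ZMod p) = 0 := by
  rw [op, ZMod.val_zero, Nat.cast_zero]

private theorem va_op_map {p : ℕ} {L L' : Type} [Field L] [Field L'] (τ : L →+* L') (c : ZMod p) :
    τ (op L c) = op L' c := by
  rw [op, op, map_natCast]

/-! ### Semilinear algebra -/

section alg

variable {p : ℕ} [hp : Fact p.Prime] {L : Type} [Field L] [CharP L p] {I M : Type} [Fintype I]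
  [DecidableEq I] [AddCommGroup M] (B : M ≃+ (I → ZMod p))

private theorem va_em_add (m m' : M) : em B L (m + m') = em B L m + em B L m' := by
  funext i
  rw [Pi.add_apply, em, em, em, map_add, Pi.add_apply, va_op_add]

private theorem va_em_zero : em B L 0 = 0 := by
  have h := va_em_add (L := L) B 0 0
  rw [add_zero] at h
  exact left_eq_add.1 h

private theorem va_em_sub (m m' : M) : em B L (m - m') = em B L m - em B L m' := by
  rw [eq_sub_iff_add_eq, ← va_em_add, sub_add_cancel]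

private theorem va_em_smul (c : ZMod p) (m : M) : em B L (c.val • m) = op L c • em B L m := by
  funext i
  rw [Pi.smul_apply, smul_eq_mul, em, em, map_nsmul, Pi.smul_apply, nsmul_eq_mul,
    ZMod.natCast_zmod_val, va_op_mul]

private theorem va_fb_add (y y' : I → L) : fb p (y + y') = fb p y + fb p y' := by
  funext i
  rw [Pi.add_apply, fb, fb, fb, Pi.add_apply, add_pow_char]
  ring

private theorem va_fb_em (m : M) : fb p (em B L m) = 0 := by
  funext i
  rw [Pi.zero_apply, fb, em, va_op_pow, sub_self]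

private theorem va_fb_op (c : ZMod p) (y : I → L) : fb p (op L c • y) = op L c • fb p y := by
  funext i
  rw [Pi.smul_apply, smul_eq_mul, fb, fb, Pi.smul_apply, smul_eq_mul, mul_pow, va_op_pow]
  ring

private theorem va_fb_sub (y y' : I → L) : fb p (y - y') = fb p y - fb p y' := by
  rw [eq_sub_iff_add_eq, ← va_fb_add, sub_add_cancel]

private theorem va_sac_add (f : M → M) (σ : L → L) (hσ : ∀ x y, σ (x + y) = σ x + σ y)
    (y y' : I → L) : sac B f σ (y + y') = sac B f σ y + sac B f σ y' := by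
  funext i
  simp only [Pi.add_apply, sac, mpt, hσ, mul_add, Finset.sum_add_distrib]

private theorem va_sac_smul (f : M → M) (σ : L → L) (hσ : ∀ x y, σ (x * y) = σ x * σ y)
    (c : L) (y : I → L) : sac B f σ (c • y) = σ c • sac B f σ y := by
  funext i
  simp only [Pi.smul_apply, smul_eq_mul, sac, mpt, hσ, Finset.mul_sum]
  exact Finset.sum_congr rfl fun k _ => by ring

end alg

section gal

variable {p : ℕ} [hp : Fact p.Prime] {k L : Type} [Field k] [Field L] [Algebra k L] [CharP L p]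
  {I M : Type} [Fintype I] [DecidableEq I] [AddCommGroup M] (B : M ≃+ (I → ZMod p))
  (ρ : Gal(L/k) → M → M)

private theorem va_add (g : Gal(L/k)) (y y' : I → L) :
    sac B (ρ g) g (y + y') = sac B (ρ g) g y + sac B (ρ g) g y' :=
  va_sac_add B (ρ g) g (map_add g) y y'

private theorem va_smul (g : Gal(L/k)) (c : L) (y : I → L) :
    sac B (ρ g) g (c • y) = g c • sac B (ρ g) g y :=
  va_sac_smul B (ρ g) g (map_mul g) c y

private theorem va_sub (g : Gal(L/k)) (y y' : I → L) :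
    sac B (ρ g) g (y - y') = sac B (ρ g) g y - sac B (ρ g) g y' := by
  rw [eq_sub_iff_add_eq, ← va_add, sub_add_cancel]

private theorem va_em (h : S_Sac) (hρ : ∀ g x y, ρ g (x + y) = ρ g x + ρ g y) (g : Gal(L/k))
    (m : M) : sac B (ρ g) g (em B L m) = em B L (ρ g m) :=
  ((h p L I M B).2.2.2.1 (ρ g) (hρ g) ((g : L ≃ₐ[k] L) : L →+* L)).2.2.1 m

private theorem va_fb (h : S_Sac) (hρ : ∀ g x y, ρ g (x + y) = ρ g x + ρ g y) (g : Gal(L/k))
    (y : I → L) : fb p (sac B (ρ g) g y) = sac B (ρ g) g (fb p y) :=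
  ((h p L I M B).2.2.2.1 (ρ g) (hρ g) ((g : L ≃ₐ[k] L) : L →+* L)).2.2.2.1 y

private theorem va_pow (h : S_Sac) (hρ : ∀ g x y, ρ g (x + y) = ρ g x + ρ g y) (g : Gal(L/k))
    (y : I → L) : (fun i => sac B (ρ g) g y i ^ p) = sac B (ρ g) g fun i => y i ^ p :=
  ((h p L I M B).2.2.2.1 (ρ g) (hρ g) ((g : L ≃ₐ[k] L) : L →+* L)).2.2.2.2.1 y

private theorem va_mul (h : S_Sac) (hρ : ActL ρ) (g g' : Gal(L/k)) (y : I → L) :
    sac B (ρ (g * g')) (g * g' : Gal(L/k)) y = sac B (ρ g) g (sac B (ρ g') g' y) := by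
  have h1 := ((h p L I M B).2.2.2.1 (ρ g) (hρ.add g) ((g : L ≃ₐ[k] L) : L →+* L)).2.2.2.2.2
    (ρ g') (hρ.add g') ((g' : L ≃ₐ[k] L) : L →+* L) y
  refine Eq.trans ?_ h1.symm
  have h2 : ρ (g * g') = fun m => ρ g (ρ g' m) := funext (hρ.mul g g')
  rw [h2]
  rfl

private theorem va_opg (g : Gal(L/k)) (c : ZMod p) : g (op L c) = op L c :=
  va_op_map ((g : L ≃ₐ[k] L) : L →+* L) c

/-- The function `Y'`. -/
private noncomputable def va_Y (p : ℕ) {L I : Type} [Field L] (y₁ u : I → L) (ξ : L) : I → L :=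
  fb p y₁ + ξ • fb p u

/-- The function `yy`. -/
private noncomputable def va_yy {p : ℕ} {L I M : Type} [Field L] [Fintype I] [DecidableEq I]
    [AddCommGroup M] (B : M ≃+ (I → ZMod p)) (y₁ u : I → L) (ξ : L) (a a' : M) : I → L :=
  y₁ + em B L a' + ξ • (u + em B L a)

/-- The function `b`. -/
private noncomputable def va_b (c' : Gal(L/k) → M) (χ : Gal(L/k) → ZMod p) (u : I → L)
    (g : Gal(L/k)) : I → L :=
  em B L (c' g) - op L (χ g) • sac B (ρ g) g u

private theorem va_coc (h : S_Sac) (hρ : ActL ρ) {c : Gal(L/k) → M} {u : I → L}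
    (hu : RlM B ρ c u) {χ : Gal(L/k) → ZMod p} (hχ : ∀ g g', χ (g * g') = χ g + χ g')
    {c' : Gal(L/k) → M}
    (hc' : ∀ g g', c' (g * g') = c' g + ρ g (c' g') + (χ g).val • ρ g (c g'))
    (g g' : Gal(L/k)) :
    va_b B ρ c' χ u (g * g') = va_b B ρ c' χ u g + sac B (ρ g) g (va_b B ρ c' χ u g') := by
  have e1 : sac B (ρ (g * g')) (g * g' : Gal(L/k)) u =
      sac B (ρ g) g u + em B L (ρ g (c g')) := by
    rw [va_mul B ρ h hρ, hu g', va_add, va_em B ρ h hρ.add]
  have e2 : sac B (ρ g) g (sac B (ρ g') g' u) = sac B (ρ g) g u + em B L (ρ g (c g')) := by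
    rw [← va_mul B ρ h hρ, e1]
  unfold va_b
  rw [va_sub, va_em B ρ h hρ.add, va_smul, va_opg, e1, e2, hc', hχ, va_em_add, va_em_add,
    va_em_smul, va_op_add]
  module

private theorem va_fix (h : S_Sac) (hρ : ActL ρ) {u : I → L} (hfu : FxV B ρ (fb p u))
    {χ : Gal(L/k) → ZMod p} {c' : Gal(L/k) → M} {y₁ : I → L}
    (hy : ∀ g, sac B (ρ g) g y₁ = y₁ + va_b B ρ c' χ u g) {ξ : L}
    (hξ : ∀ g : Gal(L/k), g ξ = ξ + op L (χ g)) :
    FxV B ρ (va_Y p y₁ u ξ) := by
  intro g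
  unfold va_Y
  have e1 : sac B (ρ g) g (fb p y₁) = fb p y₁ - op L (χ g) • fb p u := by
    rw [← va_fb B ρ h hρ.add, hy g, va_fb_add]
    unfold va_b
    rw [va_fb_sub, va_fb_em, va_fb_op, va_fb B ρ h hρ.add, hfu g]
    module
  rw [va_add, e1, va_smul, hfu g, hξ g]
  module

private theorem va_loc (h : S_Sac) (hρ : ActL ρ) {c : Gal(L/k) → M} {u : I → L}
    (hu : RlM B ρ c u) {χ : Gal(L/k) → ZMod p} {c' : Gal(L/k) → M} {y₁ : I → L}
    (hy : ∀ g, sac B (ρ g) g y₁ = y₁ + va_b B ρ c' χ u g) {ξ : L}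
    (hξ : ∀ g : Gal(L/k), g ξ = ξ + op L (χ g)) {a a' : M} (hz : ∀ g, c g = a - ρ g a) :
    RlM B ρ (fun g => c' g - (a' - ρ g a') + (χ g).val • ρ g a)
      (va_yy B y₁ u ξ a a') := by
  intro g
  unfold va_yy
  have e1 : sac B (ρ g) g (u + em B L a) = u + em B L a := by
    rw [va_add, hu g, va_em B ρ h hρ.add, hz g, va_em_sub]
    module
  have e2 : sac B (ρ g) g u = u + em B L a - em B L (ρ g a) := by
    rw [hu g, hz g, va_em_sub]
    module
  rw [va_add, va_add, va_smul, e1, hy g, va_em B ρ h hρ.add, hξ g]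
  unfold va_b
  rw [e2, va_em_add, va_em_sub, va_em_sub, va_em_smul]
  module

private theorem va_wfix (h : S_Sac) (hρ : ActL ρ) {c : Gal(L/k) → M} {u : I → L}
    (hu : RlM B ρ c u) {a : M} (hz : ∀ g, c g = a - ρ g a) (g : Gal(L/k)) :
    sac B (ρ g) g (fun i => (u i + em B L a i) ^ p) = fun i => (u i + em B L a i) ^ p := by
  have e1 : sac B (ρ g) g (u + em B L a) = u + em B L a := by
    rw [va_add, hu g, va_em B ρ h hρ.add, hz g, va_em_sub]
    module
  have e2 := va_pow B ρ h hρ.add g (u + em B L a)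
  rw [e1] at e2
  exact e2.symm

end gal

section

variable {p : ℕ} [hp : Fact p.Prime] {L : Type} [Field L] [CharP L p] {I M : Type} [Fintype I]
  [DecidableEq I] [AddCommGroup M] (B : M ≃+ (I → ZMod p))

private theorem va_val (h : S_Sac) {u y₁ : I → L} {ξ x : L} (hξ : ξ ^ p - ξ = x) (a a' : M)
    (lam : M → L) (hlam : ∀ m m', lam (m + m') = lam m + lam m') :
    pr B lam (fb p (va_yy B y₁ u ξ a a')) = pr B lam (va_Y p y₁ u ξ) +
      x * pr B lam fun i => (u i + em B L a i) ^ p := by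
  have e0 : fb p (va_yy B y₁ u ξ a a') =
      va_Y p y₁ u ξ + x • fun i => (u i + em B L a i) ^ p := by
    unfold va_yy va_Y
    rw [va_fb_add, va_fb_add, va_fb_em, add_zero]
    funext i
    simp only [Pi.add_apply, Pi.smul_apply, smul_eq_mul, fb]
    have e1 : em B L a i ^ p = em B L a i := by
      rw [em, va_op_pow]
    rw [mul_pow, add_pow_char, e1]
    linear_combination (u i ^ p + em B L a i) * hξ
  have hl := (h p L I M B).2.2.1 lam hlam
  rw [e0, hl.1, hl.2.1]

private theorem va_tauY {L' : Type} [Field L'] (τ : L →+* L') (u y₁ : I → L) (ξ : L) :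
    va_Y p (fun i => τ (y₁ i)) (fun i => τ (u i)) (τ ξ) = fun i => τ (va_Y p y₁ u ξ i) := by
  funext i
  simp only [va_Y, Pi.add_apply, Pi.smul_apply, smul_eq_mul, fb, map_add, map_sub, map_mul,
    map_pow]

private theorem va_tau {k k' L' : Type} [Field k] [Field k'] [Field L'] [Algebra k L]
    [Algebra k' L'] (τ : L →+* L') (ρ : Gal(L/k) → M → M) (ρ' : Gal(L'/k') → M → M)
    (σ : Gal(L/k)) (g : Gal(L'/k')) (c₁ : Gal(L/k) → M) (c₂ : Gal(L'/k') → M)
    (χ₁ : Gal(L/k) → ZMod p) (χ₂ : Gal(L'/k') → ZMod p) (hc : c₂ g = c₁ σ) (hχ : χ₂ g = χ₁ σ)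
    (u y₁ : I → L)
    (hs : sac B (ρ' g) g (fun i => τ (u i)) = fun i => τ (sac B (ρ σ) σ u i)) :
    (fun i => τ ((y₁ + va_b B ρ c₁ χ₁ u σ) i)) =
      (fun i => τ (y₁ i)) + va_b B ρ' c₂ χ₂ (fun i => τ (u i)) g := by
  unfold va_b
  rw [hs, hc, hχ]
  funext i
  simp only [Pi.add_apply, Pi.sub_apply, Pi.smul_apply, smul_eq_mul, map_add, map_sub, map_mul,
    em, va_op_map]

private theorem va_mem {k : Type} [Field k] [Algebra k L] (O : Subring L)
    (hO : ∀ g : Gal(L/k), ∀ x ∈ O, g x ∈ O) (ρ : Gal(L/k) → M → M) (c' : Gal(L/k) → M)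
    (χ : Gal(L/k) → ZMod p) (u : I → L) (hu : ∀ i, u i ∈ O) (g : Gal(L/k)) (i : I) :
    va_b B ρ c' χ u g i ∈ O := by
  have hop : ∀ c : ZMod p, op L c ∈ O := fun c => natCast_mem _ _
  exact sub_mem (hop _) (mul_mem (hop _) (sum_mem fun k _ => mul_mem (hop _) (hO g _ (hu k))))

private theorem va_memY (O : Subring L) {u y₁ : I → L} {ξ : L} (hu : ∀ i, u i ∈ O)
    (hy : ∀ i, y₁ i ∈ O) (hξ : ξ ∈ O) (i : I) : va_Y p y₁ u ξ i ∈ O :=
  add_mem (sub_mem (pow_mem (hy i) p) (hy i)) (mul_mem hξ (sub_mem (pow_mem (hu i) p) (hu i)))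

private theorem va_b_one {k : Type} [Field k] [Algebra k L] (ρ : Gal(L/k) → M → M)
    (c' : Gal(L/k) → M) (χ : Gal(L/k) → ZMod p) (u : I → L) (g : Gal(L/k)) (h1 : c' g = 0)
    (h2 : χ g = 0) : va_b B ρ c' χ u g = 0 := by
  unfold va_b
  rw [h1, h2, va_em_zero, va_op_zero, zero_smul, sub_zero]

end

/-- An open subgroup on which two locally constant functions are constant. -/
private theorem va_open {k L : Type} [Field k] [Field L] [Algebra k L] {A : Type}
    (f : Gal(L/k) → A) (hf : IsLocallyConstant f) :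
    ∃ U : Subgroup Gal(L/k), IsOpen (U : Set Gal(L/k)) ∧ ∀ g ∈ U, f g = f 1 := by
  have h1 : f ⁻¹' {f 1} ∈ nhds (1 : Gal(L/k)) := (hf.isOpen_fiber (f 1)).mem_nhds rfl
  rw [krullTopology_mem_nhds_one_iff] at h1
  obtain ⟨E, hE, hEs⟩ := h1
  exact ⟨E.fixingSubgroup, IntermediateField.fixingSubgroup_isOpen E, fun g hg => hEs hg⟩

/-- The embedding of `OmS`. -/
private noncomputable def va_t (p : ℕ) {K : Type} [Field K] {J : Type}
    (av : J → AbsoluteValue K ℝ) (α : Kgs K) {v : AbsoluteValue K ℝ} (ι : Kgs K →ₐ[K] Kvs v) :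
    OmS p av α →+* Kvs v :=
  (ι : Kgs K →+* Kvs v).comp (algebraMap (OmS p av α) (Kgs K))

/-! ### The value formula -/

theorem tVaf (h1 : S_Dsc) (h2 : S_Has) (h3 : S_Hst) (h4 : S_Rgo) (h5 : S_Sac) (h6 : S_Oin)
    (h7 : S_Had) (h8 : S_Rlm) (h9 : S_Rls) : S_Vaf := by
  intro p _ K _ _ hK J av α h ι d T t w₀ e y b hT I M _ _ _ _ B ρ hρP η μ₀ lam hrep z hz
  have hs : HS p av α h := hT.hs
  obtain ⟨-, -, hgal, -, -, -, -, -, -, -, -, -, -, hHom, -, -⟩ := h3 p K hK J av α h hs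
  obtain ⟨-, -, -, -, -, -, hR⟩ := h4 p K hK J av α h hs
  have hcp : CharP (OmS p av α) p :=
    charP_of_injective_algebraMap (algebraMap K (OmS p av α)).injective p
  have hcj : ∀ j, CharP (Kvs (av j)) p := fun j =>
    charP_of_injective_algebraMap (algebraMap K (Kvs (av j))).injective p
  have hρ : ActL ρ := ⟨hρP.add, hρP.one, hρP.mul, hρP.loc⟩
  obtain ⟨o1, -, o3, -, o5⟩ := h6 p K hK J av α h hs
  obtain ⟨hcoc, hloc⟩ := hz
  have hRlm := h8 p K (OmS p av α) I M B ρ hρ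
  obtain ⟨u, huO, hu⟩ := hRlm.2.2.2.2.2.2 (OIn p av α) o5 z.1 hcoc
  have hfu : FxV B ρ (fb p u) := (hRlm.2.1 z.1 u hu).1
  -- the local objects
  have hL := fun j => h9 p K hK J av α h hs (av j) (hcj j) (ι j) I M B ρ hρ
  have huj : ∀ j, RlM B (fun g => ρ (rOm p av α (ι j) g)) (fun g => z.1 (rOm p av α (ι j) g))
      (fun i => va_t p av α (ι j) (u i)) := fun j => (hL j).2.2.2.1 z.1 u hu
  have hzj : ∀ j (g : Gal(Kvs (av j)/(av j).Completion)),
      z.1 (rOm p av α (ι j) g) = z.2 j - ρ (rOm p av α (ι j) g) (z.2 j) := fun j g =>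
    sub_eq_zero.1 (hloc j _ ⟨g, rfl⟩)
  have hex : ∀ j, ∃ s : (av j).Completion, algebraMap (av j).Completion (Kvs (av j)) s =
      pr B (fun m => ι j (lam m : Kgs K)) fun i =>
        (va_t p av α (ι j) (u i) + em B (Kvs (av j)) (z.2 j) i) ^ p := by
    intro j
    have := hcj j
    have h10 := (InfiniteGalois.mem_range_algebraMap_iff_fixed (k := (av j).Completion)
      (pr B (fun m => ι j (lam m : Kgs K)) fun i =>
        (va_t p av α (ι j) (u i) + em B (Kvs (av j)) (z.2 j) i) ^ p)).2 fun g => by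
      rw [((hL j).2.2.2.2 lam hrep.eqv).1 g]
      congr 1
      exact va_wfix B (fun g => ρ (rOm p av α (ι j) g)) h5 (hL j).1 (huj j) (hzj j) g
    exact h10
  choose s hsj using hex
  refine ⟨u, s, hu, hsj, ?_⟩
  intro x hx c' a' hc'l hc' htest
  obtain ⟨ξ, hξO, hξp⟩ := o3 _ (o1 x hx)
  have hχ := hHom x hx
  have hξ : ∀ g : GS p av α, g ξ = ξ + op (OmS p av α) (hS p av α x g) := by
    have h10 := h2 p K (OmS p av α) 1 1 one_ne_zero (by rw [one_pow, map_one])
    obtain ⟨c, hc⟩ := h10.2.1 x ξ (by rw [Ph, map_one, one_mul]; exact hξp)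
    intro g
    rw [hc g, h10.2.2.2.2.2 g, one_mul, sub_self, add_zero, mul_one]
    rfl
  have hχ1 : hS p av α x 1 = 0 := by
    have h10 := hχ.add 1 1
    rw [mul_one] at h10
    exact left_eq_add.1 h10
  have hc'1 : c' 1 = 0 := by
    have h10 := hc' 1 1
    rw [mul_one, hχ1, ZMod.val_zero, zero_smul, add_zero, hρ.one] at h10
    exact left_eq_add.1 h10
  obtain ⟨U, hU, hUf⟩ := va_open (fun g => (c' g, hS p av α x g)) (hc'l.prodMk hχ.loc)
  obtain ⟨y₁, hy₁O, hy₁⟩ := h7 p K (OmS p av α) (OIn p av α) o5 I M B ρ hρ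
    (va_b B ρ c' (hS p av α x) u)
    (va_mem B (OIn p av α) o5.stab ρ c' (hS p av α x) u huO)
    (va_coc B ρ h5 hρ hu hχ.add hc') ⟨U, hU, fun g hg => by
      have h10 := hUf g hg
      rw [Prod.mk.injEq, hc'1, hχ1] at h10
      exact va_b_one B ρ c' (hS p av α x) u g h10.1 h10.2⟩
  have hY := va_fix B ρ h5 hρ hfu hy₁ hξ
  obtain ⟨s₁, hs₁, hμs₁⟩ := hrep.glo (va_Y p y₁ u ξ) (va_memY (OIn p av α) huO hy₁O hξO) hY
  -- the local elements
  have hxij : ∀ j (g : Gal(Kvs (av j)/(av j).Completion)), g (va_t p av α (ι j) ξ) =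
      va_t p av α (ι j) ξ + op (Kvs (av j)) (hS p av α x (rOm p av α (ι j) g)) := by
    intro j g
    have e1 : g (va_t p av α (ι j) ξ) = va_t p av α (ι j) (rOm p av α (ι j) g ξ) :=
      (hR (av j) (ι j)).2.2.1 g ξ
    rw [e1, hξ, map_add, va_op_map]
  have hy₁j : ∀ j (g : Gal(Kvs (av j)/(av j).Completion)),
      sac B (ρ (rOm p av α (ι j) g)) g (fun i => va_t p av α (ι j) (y₁ i)) =
        (fun i => va_t p av α (ι j) (y₁ i)) + va_b B (fun g => ρ (rOm p av α (ι j) g))
          (fun g => c' (rOm p av α (ι j) g)) (fun g => hS p av α x (rOm p av α (ι j) g))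
          (fun i => va_t p av α (ι j) (u i)) g := by
    intro j g
    have e1 : sac B (ρ (rOm p av α (ι j) g)) g (fun i => va_t p av α (ι j) (y₁ i)) =
        fun i => va_t p av α (ι j) (sac B (ρ (rOm p av α (ι j) g)) (rOm p av α (ι j) g) y₁ i) :=
      (hL j).2.1 g y₁
    have e2 : sac B (ρ (rOm p av α (ι j) g)) g (fun i => va_t p av α (ι j) (u i)) =
        fun i => va_t p av α (ι j) (sac B (ρ (rOm p av α (ι j) g)) (rOm p av α (ι j) g) u i) :=
      (hL j).2.1 g u
    rw [e1, hy₁]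
    exact va_tau B (va_t p av α (ι j)) ρ (fun g => ρ (rOm p av α (ι j) g))
      (rOm p av α (ι j) g) g c' (fun g => c' (rOm p av α (ι j) g)) (hS p av α x)
      (fun g => hS p av α x (rOm p av α (ι j) g)) rfl rfl u y₁ e2
  obtain ⟨s', hs', hμs'⟩ := hrep.val
    (fun j => va_yy B (fun i => va_t p av α (ι j) (y₁ i)) (fun i => va_t p av α (ι j) (u i))
      (va_t p av α (ι j) ξ) (z.2 j) (a' j))
    (fun j g => c' (rOm p av α (ι j) g) - (a' j - ρ (rOm p av α (ι j) g) (a' j)) +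
      (hS p av α x (rOm p av α (ι j) g)).val • ρ (rOm p av α (ι j) g) (z.2 j))
    (fun j => by
      have := hcj j
      exact va_loc B (fun g => ρ (rOm p av α (ι j) g)) h5 (hL j).1 (huj j)
        (χ := fun g => hS p av α x (rOm p av α (ι j) g)) (c' := fun g => c' (rOm p av α (ι j) g))
        (hy₁j j) (hxij j) (hzj j))
    htest
  rw [← hμs']
  have hss : s' = (fun j => algebraMap K (av j).Completion s₁) +
      fun j => algebraMap K (av j).Completion x * s j := by
    funext j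
    have := hcj j
    refine (algebraMap (av j).Completion (Kvs (av j))).injective ?_
    have hlj : ∀ m m' : M, ι j (lam (m + m') : Kgs K) =
        ι j (lam m : Kgs K) + ι j (lam m' : Kgs K) := fun m m' => by
      rw [map_add]
      exact map_add (ι j) _ _
    have hxj : va_t p av α (ι j) ξ ^ p - va_t p av α (ι j) ξ = algebraMap K (Kvs (av j)) x := by
      rw [← map_pow, ← map_sub, hξp]
      exact (ι j).commutes x
    have e2 : pr B (fun m => ι j (lam m : Kgs K))
        (fun i => va_t p av α (ι j) (va_Y p y₁ u ξ i)) = algebraMap K (Kvs (av j)) s₁ := by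
      refine (((hL j).2.2.2.2 lam hrep.eqv).2 (va_Y p y₁ u ξ)).trans ?_
      rw [← hs₁]
      exact (ι j).commutes s₁
    rw [hs' j, va_val B h5 hxj (z.2 j) (a' j) _ hlj, va_tauY, e2, Pi.add_apply, map_add, map_mul,
      IsScalarTower.algebraMap_apply K (av j).Completion (Kvs (av j)) s₁,
      IsScalarTower.algebraMap_apply K (av j).Completion (Kvs (av j)) x, hsj j]
  rw [hss, map_add, hμs₁, zero_add]

end Pool.Agent.MP72G
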