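import Pool.Agent.Lib.MP_72e2e6_nt.P4.V.Defs

/-!
# MP_72e2e6_nt, theorem T4, part V: nondegeneracy for all finite modules, the axioms `Fz.Good`

The proofs are complete in the docstrings; every module is independent (used statements are
hypotheses): file `P4/V/<Name>.lean` (import this file only) with `theorem t<Name> : S_<Name>` or
`theorem t<Name> (h1 : S_X) (h2 : S_Y) .. : S_<Name>` (the used statements in the order of the
docstring), namespace `Pool.Agent.MP72G`, `open Pool.Agent.MP72P`, other declarations `private`. All types are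
in `Type`. The modules `P3/M/<Name>.lean` (Rlc, Rsl, Fnl, Fn2, Ndv, Nds, Bgl, Gdx, T3g) prove the case of rank one;
look at them.

Notation: `A = OS av`, `G = GS p av α`, `ω = omS p av α`, `K_j = (av j).Completion`, `L_j = Kvs (av j)`, `Γ_j` its Galois
group, `r_j = rOm p av α (ι j)`, `D_j = DS p av α ι j` the range of `r_j`, `T = tsH ..` the test system. `M` is a finite
group with `p M = 0` and the basis `B`; `M ⊗ L = (I → L)`, `φ` is the `p`-th power on the coefficients,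
`fb y = φ(y) - y`, `sac B (ρ g) g` is the semilinear action. For an additive `λ : M → L` `pr B λ` is its
linear extension. If `g (λ m) = λ (ρ g m)` then `g (pr B λ y) = pr B λ (sac B (ρ g) g y)`.
-/

namespace Pool.Agent.MP72G

open Finset Pool.Agent.MP72P IntermediateField

/-! ### 1. Semilinear algebra -/

/-- **Sac** (350 lines). The operations on `M ⊗ L`.

Proof. `c ↦ op L c` is an injective ring homomorphism `ZMod p → L`, its image are the roots of `x ^ p = x`, and every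
ring homomorphism commutes with it. `B (f m) i = ∑ k, B m k * B (f (bs B k)) i` for additive `f` (`m = ∑ (B m k).val • bs B k`).
All statements are computations with finite sums. -/
def S_Sac : Prop :=
  ∀ (p : ℕ) [Fact p.Prime] (L : Type) [Field L] [CharP L p] (I M : Type) [Fintype I]
    [DecidableEq I] [AddCommGroup M] (B : M ≃+ (I → ZMod p)),
    ((∀ m m', em B L (m + m') = em B L m + em B L m') ∧ (∀ m, em B L m = 0 → m = 0) ∧
      (∀ y : I → L, fb p y = 0 ↔ ∃ m, y = em B L m) ∧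
      (∀ y : I → L, y = ∑ k, y k • em B L (bs B k)) ∧
      (∀ y y' : I → L, fb p (y + y') = fb p y + fb p y') ∧
      (∀ y : I → L, mpt B B (fun m => m) y = y) ∧ ∀ m i, em B L m i ^ p = em B L m i) ∧
    (∀ (I' M' : Type) [Fintype I'] [DecidableEq I'] [AddCommGroup M'] (B' : M' ≃+ (I' → ZMod p))
      (f : M → M'), (∀ m m', f (m + m') = f m + f m') →
      (∀ y y' : I → L, mpt B B' f (y + y') = mpt B B' f y + mpt B B' f y') ∧
      (∀ (c : L) (y : I → L), mpt B B' f (c • y) = c • mpt B B' f y) ∧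
      (∀ m, mpt B B' f (em B L m) = em B' L (f m)) ∧
      (∀ y : I → L, fb p (mpt B B' f y) = mpt B B' f (fb p y)) ∧
      (∀ (y : I → L) i, mpt B B' f y i ^ p = mpt B B' f (fun k => y k ^ p) i) ∧
      (∀ (σ : L →+* L) (y : I → L), (fun i => σ (mpt B B' f y i)) = mpt B B' f fun k => σ (y k)) ∧
      (∀ (I'' M'' : Type) [Fintype I''] [DecidableEq I''] [AddCommGroup M'']
        (B'' : M'' ≃+ (I'' → ZMod p)) (f' : M' → M''), (∀ m m', f' (m + m') = f' m + f' m') →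
        ∀ y : I → L, mpt B' B'' f' (mpt B B' f y) = mpt B B'' (fun m => f' (f m)) y) ∧
      ∀ (lam : M' → L), (∀ m m', lam (m + m') = lam m + lam m') →
        ∀ y : I → L, pr B' lam (mpt B B' f y) = pr B (fun m => lam (f m)) y) ∧
    (∀ (lam : M → L), (∀ m m', lam (m + m') = lam m + lam m') →
      (∀ y y' : I → L, pr B lam (y + y') = pr B lam y + pr B lam y') ∧
      (∀ (c : L) (y : I → L), pr B lam (c • y) = c * pr B lam y) ∧
      (∀ m, pr B lam (em B L m) = lam m) ∧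
      ∀ (f : M → M), (∀ m m', f (m + m') = f m + f m') → ∀ σ : L →+* L,
        (∀ m, σ (lam m) = lam (f m)) → ∀ y : I → L, pr B lam (sac B f σ y) = σ (pr B lam y)) ∧
    (∀ (f : M → M), (∀ m m', f (m + m') = f m + f m') → ∀ σ : L →+* L,
      (∀ y y' : I → L, sac B f σ (y + y') = sac B f σ y + sac B f σ y') ∧
      (∀ (c : L) (y : I → L), sac B f σ (c • y) = σ c • sac B f σ y) ∧
      (∀ m, sac B f σ (em B L m) = em B L (f m)) ∧
      (∀ y : I → L, fb p (sac B f σ y) = sac B f σ (fb p y)) ∧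
      (∀ y : I → L, (fun i => sac B f σ y i ^ p) = sac B f σ fun i => y i ^ p) ∧
      ∀ (f' : M → M), (∀ m m', f' (m + m') = f' m + f' m') → ∀ (σ' : L →+* L) (y : I → L),
        sac B f σ (sac B f' σ' y) = sac B (fun m => f (f' m)) (fun x => σ (σ' x)) y) ∧
    ∀ (L' : Type) [Field L'] [CharP L' p] (τ : L →+* L'),
      (∀ m, (fun i => τ (em B L m i)) = em B L' m) ∧
      (∀ y : I → L, (fun i => τ (fb p y i)) = fb p fun i => τ (y i)) ∧
      (∀ (lam : M → L) (y : I → L), τ (pr B lam y) = pr B (fun m => τ (lam m)) fun i => τ (y i)) ∧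
      ∀ (f : M → M) (σ : L → L) (σ' : L' → L'), (∀ x, τ (σ x) = σ' (τ x)) →
        ∀ y : I → L, (fun i => τ (sac B f σ y i)) = sac B f σ' fun i => τ (y i)

/-- **Spe** (300 lines, uses `S_Sac`). Speiser's theorem.

Proof. `sac_g = sac B (ρ g) g` is a semilinear action on `L ^ I` (`S_Sac`). (1) Claim: the fixed elements span `L ^ I` over `L`.
Otherwise there is a linear form `ℓ ≠ 0` on `L ^ I` which vanishes on them, and `y` with `ℓ(y) ≠ 0`. Let `U` be an open normal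
subgroup which fixes the coordinates of `y` and acts trivially on `M` (finite; `ActL.loc`), `L₀ = L ^ U` (finite over `k`). For
`z ∈ L₀` the element `∑_{q ∈ Γ / U} sac_q (z y)` is well defined and fixed, so `0 = ∑_q q(z) ℓ(sac_q y)` for all `z ∈ L₀`. The
embeddings `q : L₀ → L` are distinct, so they are linearly independent over `L` (`linearIndependent_monoidHom`), and
`ℓ(sac_q y) = 0` for all `q`, in particular `ℓ(y) = 0`, a contradiction. (Or: choose a basis `z_i` of `L₀` over `k`; the matrix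
`(q(z_i))` is invertible, so `y` is a linear combination of the fixed elements `∑_q sac_q (z_i y)`.) Choose a basis of `L ^ I`
consisting of fixed elements, the columns of `P`; `Q = P⁻¹`. (2) `→`: let `c = Q y ∈ L ^ I`, `y = P c`. Applying `sac_g`:
`y = P g(c)`, so `g(c) = c` and `c ∈ k ^ I` (`IsGalois`). `←`: semilinearity. -/
def S_Spe : Prop :=
  ∀ (p : ℕ) [Fact p.Prime] (k L : Type) [Field k] [Field L] [Algebra k L] [CharP k p] [CharP L p]
    [IsGalois k L] (I M : Type) [Fintype I] [DecidableEq I] [AddCommGroup M] [Finite M]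
    (B : M ≃+ (I → ZMod p)) (ρ : Gal(L/k) → M → M), ActL ρ →
    (∃ P Q : Matrix I I L, P * Q = 1 ∧ Q * P = 1 ∧ ∀ i, FxV B ρ fun a => P a i) ∧
    ∀ P Q : Matrix I I L, P * Q = 1 → (∀ i, FxV B ρ fun a => P a i) →
      ∀ y : I → L, FxV B ρ y ↔ ∃ c : I → k, ∀ a, y a = ∑ i, P a i * algebraMap k L (c i)

/-- **Trc** (150 lines). Elements of trace one in Galois extensions.

Proof. `L₀ = L ^ U` is a finite Galois extension of `k` with the Galois group `Γ / U`; the trace `L₀ → k` is surjective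
(`Algebra.trace_surjective`), and it is the sum over the Galois group. See `P3/B/Sep.lean` (the property `tr` of
`ASMod`). -/
def S_Trc : Prop :=
  ∀ (k L : Type) [Field k] [Field L] [Algebra k L] [IsGalois k L], TrO (k := k) (⊤ : Subring L)

/-- **Oin** (250 lines, uses `S_Frc`, `S_Hst`, `S_Twb`, `S_Twt`). The ring `OIn`.

Proof. (1) clear. (2) `OS av` is integrally closed in `K` (`S_Hst`). (3) let `y ∈ Kgs K` with `y ^ p - y = x` (separable
polynomial); it is integral and in `OmS` by `S_Twb` (6). (4) `x` is algebraic over `K`, the fraction field of `OS av`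
(`S_Hst`): multiply by a common denominator of the coefficients of the minimal polynomial
(`exists_integral_multiple`). (5) `TrO.stab`: automorphisms preserve integrality. `TrO.tr`: as in `P3/B/Omi.lean`
(the property `tr` of `ASMod`, from `S_Twt`). -/
def S_Oin : Prop :=
  ∀ (p : ℕ) [Fact p.Prime] (K : Type) [Field K] [CharP K p], GFld p K →
    ∀ (J : Type) (av : J → AbsoluteValue K ℝ) (α : Kgs K) (h : K), HS p av α h →
    (∀ f ∈ OS av, algebraMap K (OmS p av α) f ∈ OIn p av α) ∧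
    (∀ f : K, algebraMap K (OmS p av α) f ∈ OIn p av α → f ∈ OS av) ∧
    (∀ x ∈ OIn p av α, ∃ θ ∈ OIn p av α, θ ^ p - θ = x) ∧
    (∀ x : OmS p av α, ∃ b ∈ OS av, b ≠ 0 ∧ algebraMap K (OmS p av α) b * x ∈ OIn p av α) ∧
    TrO (k := K) (OIn p av α)

/-- **Had** (250 lines, uses `S_Sac`). Hilbert 90 for `M ⊗ O`.

Proof. `Γ = Gal(L/k)` is compact. Let `U` be open and normal, contained in the given subgroup, acting trivially on `M`
(finite; `ActL.loc`), and `x ∈ O` as in `TrO.tr`. For `u ∈ U` `b (g u) = b g + sac_g (b u) = b g`, so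
`y = - ∑_{q ∈ Γ / U} (q x) • b q` is well defined, with coefficients in `O`. `sac_g (b q) = b (g q) - b g`, so
`sac_g y = - ∑_q (g q x) • (b (g q) - b g) = y + b g` (`∑_q (g q) x = g 1 = 1`). See (2) of `S_Ah`, `P3/B/Ah.lean`. -/
def S_Had : Prop :=
  ∀ (p : ℕ) [Fact p.Prime] (k L : Type) [Field k] [Field L] [Algebra k L] [CharP k p] [CharP L p]
    [IsGalois k L] (O : Subring L), TrO (k := k) O → ∀ (I M : Type) [Fintype I] [DecidableEq I]
    [AddCommGroup M] [Finite M] (B : M ≃+ (I → ZMod p)) (ρ : Gal(L/k) → M → M), ActL ρ →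
    ∀ b : Gal(L/k) → I → L, (∀ g i, b g i ∈ O) →
    (∀ g g' : Gal(L/k), b (g * g') = b g + sac B (ρ g) g (b g')) →
    (∃ U : Subgroup Gal(L/k), IsOpen (U : Set Gal(L/k)) ∧ ∀ g ∈ U, b g = 0) →
      ∃ y : I → L, (∀ i, y i ∈ O) ∧ ∀ g : Gal(L/k), sac B (ρ g) g y = y + b g

/-- **Rlm** (250 lines, uses `S_Sac`, `S_Had`). The relation `RlM`.

Proof. (1) `fb (sac_g y - y) = sac_g (fb y) - fb y = 0`, so `sac_g y - y = em (c g)` (`S_Sac`). (2) `fb (em _) = 0`;
`em (c (g h)) = sac_g (y + em (c h)) - y = em (c g + ρ g (c h))`; `c` is locally constant: the coordinates of `y` are fixed by an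
open subgroup `U` acting trivially on `M`, so `c = 0` on `U` and `c (g u) = c g`. (3) clear. (4) `y = em m`,
`em (c g) = em (ρ g m - m)`. (5), (6) clear (`em` is injective). (7) `S_Had` for `b g = em (c g)` (its coefficients are integers,
`c u = 0` on an open subgroup: `{g | c g = 0}` contains a neighbourhood of `1`). -/
def S_Rlm : Prop :=
  ∀ (p : ℕ) [Fact p.Prime] (k L : Type) [Field k] [Field L] [Algebra k L] [CharP k p] [CharP L p]
    [IsGalois k L] (I M : Type) [Fintype I] [DecidableEq I] [AddCommGroup M] [Finite M]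
    (B : M ≃+ (I → ZMod p)) (ρ : Gal(L/k) → M → M), ActL ρ →
    (∀ y : I → L, FxV B ρ (fb p y) → ∃ c, RlM B ρ c y) ∧
    (∀ c (y : I → L), RlM B ρ c y → FxV B ρ (fb p y) ∧ Coc ρ c) ∧
    (∀ c c' (y y' : I → L), RlM B ρ c y → RlM B ρ c' y' →
      RlM B ρ (c + c') (y + y') ∧ RlM B ρ (c - c') (y - y')) ∧
    (∀ c (y : I → L), RlM B ρ c y → fb p y = 0 → ∃ m : M, ∀ g, c g = ρ g m - m) ∧
    (∀ c (y : I → L), RlM B ρ c y → FxV B ρ y → c = 0) ∧
    (∀ y : I → L, FxV B ρ y → RlM B ρ 0 y) ∧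
    ∀ O : Subring L, TrO (k := k) O → ∀ c, Coc ρ c → ∃ y : I → L, (∀ i, y i ∈ O) ∧ RlM B ρ c y

/-- **Rls** (200 lines, uses `S_Hst`, `S_Rgo`, `S_Sac`). Restriction to a local Galois group.

Proof. `g (ι x) = ι (rOm ι g x)` for `x ∈ OmS` (`S_Rgo`), and `S_Sac` (the last part) for the ring homomorphism
`x ↦ ι x` from `OmS` to `Kvs v`; `rOm ι` is a continuous homomorphism. (5) `g (ι (λ m)) = ι (λ (ρ (rOm ι g) m))`. -/
def S_Rls : Prop :=
  ∀ (p : ℕ) [Fact p.Prime] (K : Type) [Field K] [CharP K p], GFld p K →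
    ∀ (J : Type) (av : J → AbsoluteValue K ℝ) (α : Kgs K) (h : K), HS p av α h →
    ∀ (v : AbsoluteValue K ℝ), CharP (Kvs v) p → ∀ (ι : Kgs K →ₐ[K] Kvs v)
      (I M : Type) [Fintype I] [DecidableEq I] [AddCommGroup M] [Finite M]
      (B : M ≃+ (I → ZMod p)) (ρ : GS p av α → M → M), ActL ρ →
    ActL (fun g => ρ (rOm p av α ι g)) ∧
    (∀ (g : Gal(Kvs v/v.Completion)) (y : I → OmS p av α),
      sac B (ρ (rOm p av α ι g)) g (fun i => ι (y i : Kgs K)) =
        fun i => ι ((sac B (ρ (rOm p av α ι g)) (rOm p av α ι g) y i : OmS p av α) : Kgs K)) ∧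
    (∀ y : I → OmS p av α, FxV B ρ y →
      FxV B (fun g => ρ (rOm p av α ι g)) fun i => ι (y i : Kgs K)) ∧
    (∀ c (y : I → OmS p av α), RlM B ρ c y →
      RlM B (fun g => ρ (rOm p av α ι g)) (fun g => c (rOm p av α ι g)) fun i =>
        ι (y i : Kgs K)) ∧
    ∀ lam : M →+ OmS p av α, (∀ g m, lam (ρ g m) = g (lam m)) →
      (∀ (g : Gal(Kvs v/v.Completion)) (y : I → Kvs v),
        g (pr B (fun m => ι (lam m : Kgs K)) y) =
          pr B (fun m => ι (lam m : Kgs K)) (sac B (ρ (rOm p av α ι g)) g y)) ∧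
      ∀ y : I → OmS p av α, pr B (fun m => ι (lam m : Kgs K)) (fun i => ι (y i : Kgs K)) =
        ι ((pr B (fun m => lam m) y : OmS p av α) : Kgs K)

/-! ### 2. The functional -/

/-- **Lcu** (150 lines, uses `S_UniF`, `S_Hst`, `S_Rgo`). Local crossed homomorphisms at `w₀` with the tests `0` and given
extra tests.

Proof. `S_UniF` for the group `Γ = Gal(Kvs (av w₀)/K_(w₀))`, `S = Empty`, `I = T w₀`, `o i = none`, `t = t w₀`, `Y = Fin d`,
`y i = Sum.inl (e i)`, the character `ω ∘ r` (`ChO` by `S_Hst`, `r` continuous), `H2Z`: `LTs.h2`, `LTs.conv`; a pair is `(c, a)` with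
`a : Empty → M`, so the hypothesis is `LTs.u0`. `ρ ∘ r` is of the type `ActP p (ω ∘ r)`. -/
def S_Lcu : Prop :=
  ∀ (p : ℕ) [Fact p.Prime] (K : Type) [Field K] [CharP K p], GFld p K →
    ∀ (J : Type) (av : J → AbsoluteValue K ℝ) (α : Kgs K) (h : K)
      (ι : ∀ j, Kgs K →ₐ[K] Kvs (av j)) (d : ℕ) (T : J → Type)
      (t : ∀ j, T j → Gal(Kvs (av j)/(av j).Completion)) (w₀ : J)
      (e : Fin d → Gal(Kvs (av w₀)/(av w₀).Completion)) (y : Fin (d + 1) → J) (b : J),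
      TsH p av α h ι t w₀ e y b →
    ∀ (M : Type) [AddCommGroup M] [Finite M] (r : ℕ), Nat.card M = p ^ r →
    ∀ ρ : GS p av α → M → M, ActP p (omS p av α) ρ → ∀ m : Fin d → M,
      ∃ f : Gal(Kvs (av w₀)/(av w₀).Completion) → M,
        Coc (fun g => ρ (rOm p av α (ι w₀) g)) f ∧ (∀ i, f (t w₀ i) = 0) ∧ ∀ i, f (e i) = m i

/-- **Fnm** (350 lines, uses `S_Uni2`, `S_Dsc`, `S_Sep`, `S_Hst`, `S_Rgo`, `S_Lin3`, `S_Sac`, `S_Rlm`, `S_Rls`). The
functional. See `P3/M/Fnl.lean`.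

Proof. `#M = p ^ #I`, `p M = 0`, `ActP` implies `ActL`. (a) For every `Y` there are `yy`, `f`, `ζ`: `fb` is surjective on
`L_j ^ I` (`S_Sep` (2) for `α = 1`), so there is `yy j` with `fb (yy j) = P_j (Y j)`, `P_j = ι_j(P)`; this element is fixed (`S_Rls`,
linearity, `Y j ∈ K_j ^ I`), so `f j` exists (`S_Rlm` (1)) and is a crossed homomorphism for `ρ ∘ r_j` (`S_Rlm` (2)). Only
finitely many `f j (t j i)` are `≠ 0` (`f j` is locally constant, `f j 1 = 0`, `LTs.conv`, `J` finite). By `S_Uni2` there is a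
pair `ζ` with these tests (and the coordinates `0`). (b) The value depends only on `Y`: for two choices let `f'`, `yy'`, `ζ'` be the
differences. `fb (yy' j) = 0`, so `f' j g = ρ (r_j g) (m j) - m j` (`S_Rlm` (3), (4)). The pair `ζ'' = ζ' - (0, m)` has
`psi ρ ζ'' j g = psi ρ ζ' j g + m j - ρ g (m j)`, so its tests are `0` and `ζ'' = Zs T ρ c` for its coordinates `c` (`S_Lin3` (2)); so
`η (extra tests of ζ'') = η (Ts T ρ c) = 0`, and the extra tests of `ζ''` are `psi ρ ζ' w₀ (r (e i)) - f' w₀ (e i)`. (c) Additivity: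
sums of choices (`S_Rlm` (3)). -/
def S_Fnm : Prop :=
  ∀ (p : ℕ) [Fact p.Prime] (K : Type) [Field K] [CharP K p], GFld p K →
    ∀ (J : Type) (av : J → AbsoluteValue K ℝ) (α : Kgs K) (h : K)
      (ι : ∀ j, Kgs K →ₐ[K] Kvs (av j)) (d : ℕ) (T : J → Type)
      (t : ∀ j, T j → Gal(Kvs (av j)/(av j).Completion)) (w₀ : J)
      (e : Fin d → Gal(Kvs (av w₀)/(av w₀).Completion)) (y : Fin (d + 1) → J) (b : J),
      TsH p av α h ι t w₀ e y b →
    ∀ (I M : Type) [Fintype I] [DecidableEq I] [AddCommGroup M] [Finite M]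
      (B : M ≃+ (I → ZMod p)) (ρ : GS p av α → M → M), ActP p (omS p av α) ρ →
    ∀ η : (Fin d → M) →+ ZMod p, (∀ c, η (Ts (tsH p av α ι t w₀ e y) ρ c) = 0) →
    ∀ P Q : Matrix I I (OmS p av α), P * Q = 1 → (∀ i, FxV B ρ fun a => P a i) →
      ∃ lam : (∀ j, I → (av j).Completion) →+ ZMod p, LamP av α ι t w₀ e B ρ η P lam

/-- **Fnp** (350 lines, uses `S_Dsc`, `S_Lc1`, `S_Sep`, `S_Hst`, `S_Rgo`, `S_Sac`, `S_Spe`, `S_Trc`, `S_Oin`, `S_Rlm`, `S_Rls`,
`S_Lcu`). Properties of the functional. See `P3/M/Fn2.lean`.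

Proof. (1) `P Y` has coefficients in `OIn` and is fixed. By `S_Oin` (3) there is `y'` with coefficients in `OIn` and
`fb y' = P Y`; let `c` be as in `S_Rlm` (1) (`RlM B ρ c y'`, a crossed homomorphism). By `S_Rls` `RlM .. (c ∘ r_j) (ι_j y')`. The pair
`ζ = (c, 0)` has `psi ρ ζ j (r_j g) = c (r_j g)`: the value is `0`. (2) Fix `j` and write `φ(P) = P U` with a matrix `U` with
coefficients in `K` (the columns of `φ(P)` are fixed, `S_Spe` (2)). Let `C ≥ 1` be a bound for the norms of the coefficients of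
`U` in `K_j`, `0 < r ≤ 1`, `C r ^ (p - 1) < 1`. If `‖Y i‖ ≤ r` for all `i` then `u = U φ(u) - Y` has a solution `u ∈ K_j ^ I` with
`‖u i‖ ≤ r`: the iteration `u_(n + 1) = U φ(u_n) - Y` stays in this ball and is a contraction (`K_j` is complete and
nonarchimedean, `S_Lc1`, `φ` is additive). `yy j = P_j u` is fixed and `fb (yy j) = P_j (U φ(u) - u) = P_j Y`, so
`RlM .. 0 (yy j)` (`S_Rlm` (6)). With `ζ = 0` the value is `0`. (3) Choose `m : Fin d → M` with `η m ≠ 0`, `f w₀ = f` as in `S_Lcu`,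
`f j = 0` for `j ≠ w₀`. By `S_Rlm` (7) (`O = ⊤`, `S_Trc`) there is `yy w₀` with `RlM .. f (yy w₀)`, and `fb (yy w₀)` is fixed
(`S_Rlm` (2)), so it is `P_(w₀) (Y w₀)` with `Y w₀ ∈ K_(w₀) ^ I` (`S_Spe` (2) for `P_(w₀)`, `Q_(w₀)`); `yy j = 0`, `Y j = 0` for the other `j`,
`ζ = 0`. The value is `η m`. -/
def S_Fnp : Prop :=
  ∀ (p : ℕ) [Fact p.Prime] (K : Type) [Field K] [CharP K p], GFld p K →
    ∀ (J : Type) (av : J → AbsoluteValue K ℝ) (α : Kgs K) (h : K)
      (ι : ∀ j, Kgs K →ₐ[K] Kvs (av j)) (d : ℕ) (T : J → Type)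
      (t : ∀ j, T j → Gal(Kvs (av j)/(av j).Completion)) (w₀ : J)
      (e : Fin d → Gal(Kvs (av w₀)/(av w₀).Completion)) (y : Fin (d + 1) → J) (b : J),
      TsH p av α h ι t w₀ e y b →
    ∀ (I M : Type) [Fintype I] [DecidableEq I] [AddCommGroup M] [Finite M]
      (B : M ≃+ (I → ZMod p)) (ρ : GS p av α → M → M), ActP p (omS p av α) ρ →
    ∀ (η : (Fin d → M) →+ ZMod p) (P Q : Matrix I I (OmS p av α)), P * Q = 1 →
      (∀ i, FxV B ρ fun a => P a i) →
    ∀ lam : (∀ j, I → (av j).Completion) →+ ZMod p, LamP av α ι t w₀ e B ρ η P lam →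
      (∀ Y : I → K, (∀ a, ∑ i, P a i * algebraMap K (OmS p av α) (Y i) ∈ OIn p av α) →
        lam (fun j i => algebraMap K (av j).Completion (Y i)) = 0) ∧
      (∃ r : ℝ, 0 < r ∧ ∀ Y : ∀ j, I → (av j).Completion, (∀ j i, ‖Y j i‖ ≤ r) → lam Y = 0) ∧
      (η ≠ 0 → lam ≠ 0)

/-- **Rep** (350 lines, uses `S_Dsc`, `S_Hst`, `S_Rgo`, `S_Rk1`, `S_Sac`, `S_Spe`, `S_Oin`, `S_Rlm`, `S_Rls`, `S_Fnm`, `S_Fnp`). The
functional in rank one form.

Proof. `P`, `Q` by `S_Spe`, `lam'` by `S_Fnm`. For `i ∈ I` let `b i ∈ A`, `b i ≠ 0`, with `b i * P a i ∈ OIn` for all `a` (`S_Oin` (4); the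
product of the denominators). `μ_i (y) = lam' (j ↦ Pi.single i (b i * y j))` satisfies `Fnc`: `con` by `S_Fnp` (2), `van` by `S_Fnp` (1)
(for `a ∈ A` the element `P (Pi.single i (b i a))` has coefficients `a (b i P _ i) ∈ OIn`).
`lam' Y = ∑ i, μ_i (j ↦ (b i)⁻¹ * Y j i)`, so some `μ_i ≠ 0` (`S_Fnp` (3)); let `μ₀` be this `μ_i`. By `S_Rk1`
`μ_i (y) = μ₀ (κ_i y)`, so `lam' Y = μ₀ (j ↦ ∑ i, κ' i * Y j i)`, `κ' i = κ_i (b i)⁻¹ ∈ K`. Let
`lam m = ∑ i, κ' i * (Q (em m)) i`, additive; `pr B lam y = ∑ i, κ' i * (Q y) i` (`S_Sac`). `eqv`: let `u = Q (em m)`, so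
`em m = P u` and `em (ρ g m) = sac_g (P u) = P g(u)`, `Q (em (ρ g m)) = g(u)`, `lam (ρ g m) = g (lam m)`. `val`: `fb (yy j)` is
fixed (`S_Rlm` (2)), so it is `P_j (Y j)` with `Y j ∈ K_j ^ I` (`S_Spe` (2)); let `s j = ∑ i, κ' i * Y j i`. As `P_j`, `Q_j` are inverse,
`pr B (ι_j ∘ lam) (P_j (Y j)) = s j`. `μ₀ s = lam' Y`, and `LamP` with `ζ = 0` gives the value. `glo`: `Y = P c`, `c ∈ K ^ I`
(`S_Spe` (2)), `s = ∑ i, κ' i * c i`, `μ₀ s = lam' c = 0` by `S_Fnp` (1). -/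
def S_Rep : Prop :=
  ∀ (p : ℕ) [Fact p.Prime] (K : Type) [Field K] [CharP K p], GFld p K →
    ∀ (J : Type) (av : J → AbsoluteValue K ℝ) (α : Kgs K) (h : K)
      (ι : ∀ j, Kgs K →ₐ[K] Kvs (av j)) (d : ℕ) (T : J → Type)
      (t : ∀ j, T j → Gal(Kvs (av j)/(av j).Completion)) (w₀ : J)
      (e : Fin d → Gal(Kvs (av w₀)/(av w₀).Completion)) (y : Fin (d + 1) → J) (b : J),
      TsH p av α h ι t w₀ e y b →
    ∀ (I M : Type) [Fintype I] [DecidableEq I] [AddCommGroup M] [Finite M]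
      (B : M ≃+ (I → ZMod p)) (ρ : GS p av α → M → M), ActP p (omS p av α) ρ →
    ∀ η : (Fin d → M) →+ ZMod p, η ≠ 0 →
      (∀ c, η (Ts (tsH p av α ι t w₀ e y) ρ c) = 0) →
      ∃ (μ₀ : (∀ j, (av j).Completion) →+ ZMod p) (lam : M →+ OmS p av α),
        RepP av α ι t w₀ e B ρ η μ₀ lam

/-! ### 3. The value -/

/-- **Vaf** (350 lines, uses `S_Dsc`, `S_Has`, `S_Hst`, `S_Rgo`, `S_Sac`, `S_Oin`, `S_Had`, `S_Rlm`, `S_Rls`). THE VALUE FORMULA.

Proof. Let `z = (c, a)`, `u` with coefficients in `OIn` and `RlM B ρ c u` (`S_Rlm` (7), `S_Oin`). For `j` let `w j = ι_j u + em (a j)`; for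
`g ∈ Γ_j` (write `g` for `r_j g` also) `sac_g (w j) = ι_j u + em (c g + ρ g (a j)) = w j` as `c g = a j - ρ g (a j)` on `D_j`. So `φ(w j)` is
fixed, and `pr B (ι_j ∘ lam) (φ(w j))` is fixed by `Γ_j` (`S_Rls` (5)), so it is `s j ∈ K_j`.
Let `x`, `c'`, `a'` be given and `ξ ∈ OIn` with `ξ ^ p - ξ = x`, `g ξ = ξ + op (hx g)`, `hx = hS p av α x` (`S_Oin` (3), `S_Has` (2),
`omc p 1 = 1`). (a) `b g = em (c' g) - op (hx g) • sac_g u` has coefficients in `OIn`, and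
`b (g g') = b g + sac_g (b g')`: the difference is
`op (hx g) • (em (ρ g (c g')) - sac_(g g') u + sac_g u) = op (hx g) • sac_g (em (c g') - sac_g' u + u) = 0`. `b = 0` on an open
subgroup: `c'` is locally constant, `c' 1 = 0` (from the relation for `g = g' = 1`: `c 1 = 0`, `ρ 1 = id`, `hx 1 = 0`). By `S_Had`
there is `y₁` with coefficients in `OIn` and `sac_g y₁ = y₁ + em (c' g) - op (hx g) • sac_g u`. (b) `Y' = fb y₁ + ξ • fb u` is fixed:
`sac_g (fb y₁) = fb y₁ - op (hx g) • sac_g (fb u)`, `sac_g (fb u) = fb u` (`S_Rlm` (2)), `sac_g (ξ • fb u) = (ξ + op (hx g)) • fb u`. Its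
coefficients are in `OIn`. (c) For `j` let `yy j = ι_j y₁ + em (a' j) + ι_j ξ • w j` and
`f j g = c' g - (a' j - ρ g (a' j)) + (hx g).val • ρ g (a j)` (`g` for `r_j g`). Then `sac_g (yy j) = yy j + em (f j g)`:
`sac_g (ι_j y₁) = ι_j y₁ + em (c' g) - op (hx g) • sac_g (ι_j u)`, `sac_g (em (a' j)) = em (ρ g (a' j))`,
`sac_g (ι_j ξ • w j) = (ι_j ξ + op (hx g)) • w j`, and `w j - sac_g (ι_j u) = sac_g (w j - ι_j u) = em (ρ g (a j))`. (d)
`fb (yy j) = ι_j (fb y₁) + (ι_j ξ) ^ p • φ(w j) - ι_j ξ • w j = ι_j (fb y₁) + ι_j ξ • fb (w j) + x • φ(w j) = ι_j Y' + x • φ(w j)`, as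
`fb (w j) = ι_j (fb u)`. (e) The `f j` vanish at the tests, so `RepP.val` gives `s'` with
`s' j = pr B (ι_j ∘ lam) (ι_j Y' + x • φ(w j)) = s₁ + x * s j`, where `s₁ ∈ K` is as in `RepP.glo` for `Y'` (`S_Rls` (5)). So
`η (i ↦ f w₀ (e i)) = μ₀ s' = μ₀ (x s)`. -/
def S_Vaf : Prop :=
  ∀ (p : ℕ) [Fact p.Prime] (K : Type) [Field K] [CharP K p], GFld p K →
    ∀ (J : Type) (av : J → AbsoluteValue K ℝ) (α : Kgs K) (h : K)
      (ι : ∀ j, Kgs K →ₐ[K] Kvs (av j)) (d : ℕ) (T : J → Type)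
      (t : ∀ j, T j → Gal(Kvs (av j)/(av j).Completion)) (w₀ : J)
      (e : Fin d → Gal(Kvs (av w₀)/(av w₀).Completion)) (y : Fin (d + 1) → J) (b : J),
      TsH p av α h ι t w₀ e y b →
    ∀ (I M : Type) [Fintype I] [DecidableEq I] [AddCommGroup M] [Finite M]
      (B : M ≃+ (I → ZMod p)) (ρ : GS p av α → M → M), ActP p (omS p av α) ρ →
    ∀ (η : (Fin d → M) →+ ZMod p) (μ₀ : (∀ j, (av j).Completion) →+ ZMod p)
      (lam : M →+ OmS p av α), RepP av α ι t w₀ e B ρ η μ₀ lam →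
    ∀ z ∈ Ker ρ (DS p av α ι), ∃ (u : I → OmS p av α) (s : ∀ j, (av j).Completion),
      RlM B ρ z.1 u ∧
      (∀ j, algebraMap (av j).Completion (Kvs (av j)) (s j) =
        pr B (fun m => ι j (lam m : Kgs K)) fun i =>
          (ι j (u i : Kgs K) + em B (Kvs (av j)) (z.2 j) i) ^ p) ∧
      ∀ x ∈ OS av, ∀ (c' : GS p av α → M) (a' : J → M), IsLocallyConstant c' →
        (∀ g g', c' (g * g') = c' g + ρ g (c' g') + (hS p av α x g).val • ρ g (z.1 g')) →
        (∀ j (i : T j), c' (rOm p av α (ι j) (t j i)) -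
          (a' j - ρ (rOm p av α (ι j) (t j i)) (a' j)) +
            (hS p av α x (rOm p av α (ι j) (t j i))).val •
              ρ (rOm p av α (ι j) (t j i)) (z.2 j) = 0) →
        μ₀ (fun j => algebraMap K (av j).Completion x * s j) =
          η fun i => c' (rOm p av α (ι w₀) (e i)) -
            (a' w₀ - ρ (rOm p av α (ι w₀) (e i)) (a' w₀)) +
            (hS p av α x (rOm p av α (ι w₀) (e i))).val •
              ρ (rOm p av α (ι w₀) (e i)) (z.2 w₀)

/-- **Ndx** (250 lines, uses `S_Lin3`, `S_Act3`). The first direction split off (abstract).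

Proof. Let `Z'` be the pair for `cons x δ` (`Zs`), and `c' g I' = Z'.1 g (insert 0 (I'.map succ))`,
`a' w I' = Z'.2 w (insert 0 (I'.map succ))`. By `S_Lin3` (4) for the map `f ↦ (I' ↦ f (I'.map succ))` (compatible with the
actions, see `S_The3` (1)) `Z'.1 g (I'.map succ) = Z.1 g I'`, `Z'.2 w (I'.map succ) = Z.2 w I'`, where `Z` is the pair for `δ`. For
`f` with `f₀ I' = f (I'.map succ)`, `f₁ I' = f (insert 0 (I'.map succ))`:
`(rV ρV (cons x δ) g f) (insert 0 (I'.map succ)) = (rV ρV δ g f₁) I' + (x g).val • (rV ρV δ g f₀) I'` (split the subsets `A` into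
`0 ∉ A` and `0 ∈ A`; integer multiples in `V` depend only on the class modulo `p`). The statements are the coefficients of
the crossed homomorphism relation, of the tests and of the extra tests of `Z'`; `univ = insert 0 (univ.map succ)`. -/
def S_Ndx : Prop :=
  ∀ (p : ℕ) [Fact p.Prime] (G : Type) [Group G] [TopologicalSpace G] [IsTopologicalGroup G]
    (S : Type) (d : ℕ) (ω : G → ZMod p) (D : S → Subgroup G) (T : Tst G S d), ChO p ω → H2Z p ω →
    T.Ok p ω D → ∀ (V : Type) [AddCommGroup V] [Finite V] (r : ℕ), Nat.card V = p ^ r →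
    (∀ v : V, p • v = 0) → ∀ ρV : G → V → V, ActP p ω ρV →
    ∀ (m : ℕ) (δ : Fin m → G → ZMod p), (∀ i, HomP p (δ i)) → ∀ x : G → ZMod p, HomP p x →
    ∀ c : Fin (d + 1) → V, ∀ Z, Z = Zs T (rV ρV δ) (fun k => sgE ∅ (c k)) →
    ∃ (c' : G → Finset (Fin m) → V) (a' : S → Finset (Fin m) → V), IsLocallyConstant c' ∧
      (∀ g g', c' (g * g') = c' g + rV ρV δ g (c' g') + (x g).val • rV ρV δ g (Z.1 g')) ∧
      (∀ i, c' (T.t i) - (a' (T.w i) - rV ρV δ (T.t i) (a' (T.w i))) +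
        (x (T.t i)).val • rV ρV δ (T.t i) (Z.2 (T.w i)) = 0) ∧
      ∀ j, (c' (T.e j) - (a' (T.u j) - rV ρV δ (T.e j) (a' (T.u j))) +
        (x (T.e j)).val • rV ρV δ (T.e j) (Z.2 (T.u j))) univ =
          Ts T (rV ρV (Fin.cons x δ : Fin (m + 1) → G → ZMod p)) (fun k => sgE ∅ (c k)) j univ

/-- **Ndm** (250 lines, uses `S_Dsc`, `S_Hst`, `S_Rk1`, `S_Lnz`, `S_Sac`, `S_Rls`). If all values are `0`.

Proof. `J` is finite and not empty (`TsH.hs`). The functional `μ (y) = μ₀ (j ↦ s j * y j)` satisfies `Fnc` (`con` with the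
radius `r / max (1, ‖s j‖)`; `van`: hypothesis), so by `S_Rk1` `μ (y) = μ₀ (κ y)` with `κ ∈ K`, i.e. `μ₀ ((s - κ) y) = 0` for all
`y`, and by `S_Lnz` (for `y = Pi.single j _`) `s j = κ` for all `j`. By the formula for `s j`, `φ(em m) = em m`, and `S_Rls` (5)
`ι_j κ = ι_j (pr B lam (φ(u)) + lam (z.2 j))`, so `pr B lam (φ(u)) + lam (z.2 j) = κ` in `OmS` for all `j`. Apply `g ∈ G`:
`g (pr B lam (φ(u))) = pr B lam (sac_g (φ(u))) = pr B lam (φ(u + em (z.1 g))) = pr B lam (φ(u)) + lam (z.1 g)`, `g κ = κ`, so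
`pr B lam (φ(u)) + lam (z.1 g + ρ g (z.2 j)) = κ` for all `g`, `j`. -/
def S_Ndm : Prop :=
  ∀ (p : ℕ) [Fact p.Prime] (K : Type) [Field K] [CharP K p], GFld p K →
    ∀ (J : Type) (av : J → AbsoluteValue K ℝ) (α : Kgs K) (h : K), HS p av α h →
    ∀ ι : ∀ j, Kgs K →ₐ[K] Kvs (av j),
    ∀ (I M : Type) [Fintype I] [DecidableEq I] [AddCommGroup M] [Finite M]
      (B : M ≃+ (I → ZMod p)) (ρ : GS p av α → M → M), ActP p (omS p av α) ρ →
    ∀ (μ₀ : (∀ j, (av j).Completion) →+ ZMod p) (lam : M →+ OmS p av α), Fnc p av μ₀ → μ₀ ≠ 0 →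
      (∀ g m, lam (ρ g m) = g (lam m)) →
    ∀ (z : (GS p av α → M) × (J → M)) (u : I → OmS p av α) (s : ∀ j, (av j).Completion),
      RlM B ρ z.1 u →
      (∀ j, algebraMap (av j).Completion (Kvs (av j)) (s j) =
        pr B (fun m => ι j (lam m : Kgs K)) fun i =>
          (ι j (u i : Kgs K) + em B (Kvs (av j)) (z.2 j) i) ^ p) →
      (∀ x ∈ OS av, μ₀ (fun j => algebraMap K (av j).Completion x * s j) = 0) →
      ∀ g j g' j', lam (dif ρ z g j - dif ρ z g' j') = 0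

/-- **Asm** (300 lines, uses `S_Hst`, `S_Has`, `S_Asl`). Equivariant maps on `V[t_j] / (t_j ^ 2)`.

Proof. Let `G' = {g | ∀ v, ρV g v = v}`, an open subgroup (`V` is finite, `ActP.loc`), `k` its fixed field in `L = OmS`
(`IsGalois k L`, and the elements of `L` fixed by `G'` are in `k`, `InfiniteGalois`). Let `ϑ j ∈ L` with
`ϑ j ^ p - ϑ j = δ j` and `g (ϑ j) = ϑ j + op (d_j g)`, `d_j = hS p av α (δ j)` (`S_Hst`, `S_Has` (2)). For `v ∈ V`, `I ⊆ Fin m` let
`L_I(v) = lam (sgE I v)`. For `g ∈ G'` `rV ρV d g (sgE I v) = ∑_{I' ⊇ I} (∏_{I' \ I} d_j g).val • sgE I' v`, so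
`g (L_I(v)) = ∑_{I' ⊇ I} (∏_{I' \ I} op (d_j g)) L_{I'}(v)`. Let `u_I(v) = ∑_{I' ⊇ I} (∏_{I' \ I} (- ϑ j)) L_{I'}(v)`. By
`Finset.prod_add` `g (u_I(v)) = u_I(v)` for `g ∈ G'`, so `u_I(v) ∈ k`, and `L_I(v) = ∑_{I' ⊇ I} (∏_{I' \ I} ϑ j) u_{I'}(v)`. For `D` with
`lam D = 0`: `0 = ∑_I L_I(D I) = ∑_A (∏_{j ∈ A} ϑ j) (∑_{I, I ∩ A = ∅} u_{I ∪ A}(D I))`. By `S_Asl` for `k`, `L` (the hypothesis
on the `δ j`: if `x ∈ k` and `x ^ p - x = ∑ (c j).val • δ j` then this sum is in `NV`, so `c = 0`) all coefficients are `0`. The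
coefficient for `A = univ` is `u_univ(D ∅) = L_univ(D ∅)`. -/
def S_Asm : Prop :=
  ∀ (p : ℕ) [Fact p.Prime] (K : Type) [Field K] [CharP K p], GFld p K →
    ∀ (J : Type) (av : J → AbsoluteValue K ℝ) (α : Kgs K) (h : K), HS p av α h →
    ∀ (V : Type) [AddCommGroup V] [Finite V] (ρV : GS p av α → V → V),
      ActP p (omS p av α) ρV → (∀ v : V, p • v = 0) →
    ∀ (m : ℕ) (δ : Fin m → OS av), Ipd p (NV p av α ρV) δ →
    ∀ lam : (Finset (Fin m) → V) →+ OmS p av α,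
      (∀ g f, lam (rV ρV (fun i => hS p av α (δ i : K)) g f) = g (lam f)) →
      ∀ D, lam D = 0 → lam (sgE univ (D ∅)) = 0

/-- **Bgz** (200 lines, uses `S_Hst`, `S_Bgl`). Many directions.

Proof. (a) The quotient of `NV` by `NS` is finite: for `x ∈ NV` let `y` be as in the definition; `g ↦ g y - y` is a
homomorphism from `G` to the prime field which is trivial on the open normal subgroup `G' = {g | ∀ v, ρV g v = v}`; so there
are at most `N` of these homomorphisms, and if the homomorphisms of `x`, `x'` are equal then `y - y' ∈ K` and `x - x' ∈ NS`. So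
`#(FS e ∩ NV) ≤ N #(FS e ∩ NS)`. (b) By `S_Bgl` for `N C` and some `b ∈ J` there is `e` with
`N C #(FS e ∩ BS ∩ NS) ≤ #(FS e ∩ BS)`. The group `(FS e ∩ BS) / (FS e ∩ BS ∩ NS)` is a subgroup of `FS e / (FS e ∩ NS)`, so
`N C #(FS e ∩ NS) ≤ #FS e` (`FS e` is finite by hypothesis). -/
def S_Bgz : Prop :=
  ∀ (p : ℕ) [Fact p.Prime] (K : Type) [Field K] [CharP K p], GFld p K →
    ∀ (J : Type) (av : J → AbsoluteValue K ℝ) (α : Kgs K) (h : K), HS p av α h →
    (∀ e, (FS av e : Set (OS av)).Finite) →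
    ∀ (V : Type) [AddCommGroup V] [Finite V] (ρV : GS p av α → V → V),
      ActP p (omS p av α) ρV → ∀ C : ℕ, ∃ e : ℕ,
        C * {x | x ∈ FS av e ∧ x ∈ NV p av α ρV}.ncard ≤ {x | x ∈ FS av e}.ncard

/-- **Bsx** (60 lines). Bases.

Proof. `M` is a finite dimensional vector space over `ZMod p` (`AddCommGroup.zmodModule`). -/
def S_Bsx : Prop :=
  ∀ (p : ℕ) [Fact p.Prime] (M : Type) [AddCommGroup M] [Finite M], (∀ m : M, p • m = 0) →
    ∃ n : ℕ, Nonempty (M ≃+ (Fin n → ZMod p))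

/-- **Cdx** (200 lines, uses `S_Lin3`, `S_Act3`, `S_The3`). Closed directions (abstract).

Proof. `ρ = rV ρV δ` (`ActP`, `S_Act3`). (1) By `S_The3` (5) `Ts T ρ C j univ = ∑_I Ts T ρ (sgE ∅ ∘ C_I) j (univ \ I)`,
`C_I k = C k I`. If `I ≠ univ` then `univ \ I ≠ ∅` and the term is `0`; the term for `I = univ` is
`Ts T ρ (sgE ∅ ∘ C_univ) j ∅ = Ts T ρV (C_univ) j` (`S_The3` (4)). (2) `Ts T ρ (sgE ∅ ∘ c) j = 0` (its coefficients at `I ≠ ∅` are `0`
by hypothesis, at `∅` it is `Ts T ρV c j`), so the pair is in `Ker` by `S_Lin3` (5) (surjectivity and (2)). (3) `S_Lin3` (4)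
for the map `f ↦ f ∅`: `(ρ g f) ∅ = ρV g (f ∅)`. -/
def S_Cdx : Prop :=
  ∀ (p : ℕ) [Fact p.Prime] (G : Type) [Group G] [TopologicalSpace G] [IsTopologicalGroup G]
    (S : Type) (d : ℕ) (ω : G → ZMod p) (D : S → Subgroup G) (T : Tst G S d), ChO p ω → H2Z p ω →
    T.Ok p ω D → ∀ (V : Type) [AddCommGroup V] [Finite V] (r : ℕ), Nat.card V = p ^ r →
    (∀ v : V, p • v = 0) → ∀ ρV : G → V → V, ActP p ω ρV →
    ∀ (m : ℕ) (δ : Fin m → G → ZMod p), (∀ i, HomP p (δ i)) →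
    (∀ (c : Fin (d + 1) → V) (j : Fin d) (I : Finset (Fin m)), I ≠ ∅ →
      Ts T (rV ρV δ) (fun k => sgE ∅ (c k)) j I = 0) →
      (∀ (C : Fin (d + 1) → Finset (Fin m) → V) (j : Fin d),
        Ts T (rV ρV δ) C j univ = Ts T ρV (fun k => C k univ) j) ∧
      (∀ c : Fin (d + 1) → V, (∀ j, Ts T ρV c j = 0) →
        Zs T (rV ρV δ) (fun k => sgE ∅ (c k)) ∈ Ker (rV ρV δ) D) ∧
      ∀ c : Fin (d + 1) → V,
        (∀ g, (Zs T (rV ρV δ) (fun k => sgE ∅ (c k))).1 g ∅ = (Zs T ρV c).1 g) ∧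
        (∀ w, (Zs T (rV ρV δ) (fun k => sgE ∅ (c k))).2 w ∅ = (Zs T ρV c).2 w) ∧
        ∀ g w, dif (rV ρV δ) (Zs T (rV ρV δ) fun k => sgE ∅ (c k)) g w ∅ = dif ρV (Zs T ρV c) g w

/-- **Nnz** (250 lines, uses `S_Hst`, `S_Rgo`, `S_Sac`, `S_Trc`, `S_Rlm`, `S_Rls`, `S_Lcu`, `S_Bsx`). The map `lam` is
not `0` on the submodules on which `η` is not `0`.

Proof. Let `m : Fin d → V`, `f : Γ_(w₀) → V` as in `S_Lcu` for `V`, `ρV`; `BV` a basis of `V` (`S_Bsx`) and `yV` with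
`RlM BV (ρV ∘ r) f yV` (`S_Rlm` (7) for `O = ⊤`, `S_Trc`; `S_Rls` (1)). Let `yy w₀ = mpt BV B ε yV`, `f' w₀ = ε ∘ f`, and `0` for the
other `j`. Then `RlM B .. (f' j) (yy j)`: `sac_g (mpt ε yV) = mpt (ρ g ∘ ε) (g yV) = mpt (ε ∘ ρV g) (g yV) = mpt ε (sac_g yV)
= mpt ε (yV + em (f g))` (`S_Sac`). The tests are `0`, and
`pr B (ι ∘ lam) (fb (yy w₀)) = pr B (ι ∘ lam) (mpt ε (fb yV)) = pr BV (ι ∘ lam ∘ ε) (fb yV) = 0` (`S_Sac`). So `s = 0` in
`RepP.val` (`algebraMap` is injective), and `0 = μ₀ 0 = η (ε ∘ m)`. -/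
def S_Nnz : Prop :=
  ∀ (p : ℕ) [Fact p.Prime] (K : Type) [Field K] [CharP K p], GFld p K →
    ∀ (J : Type) (av : J → AbsoluteValue K ℝ) (α : Kgs K) (h : K)
      (ι : ∀ j, Kgs K →ₐ[K] Kvs (av j)) (d : ℕ) (T : J → Type)
      (t : ∀ j, T j → Gal(Kvs (av j)/(av j).Completion)) (w₀ : J)
      (e : Fin d → Gal(Kvs (av w₀)/(av w₀).Completion)) (y : Fin (d + 1) → J) (b : J),
      TsH p av α h ι t w₀ e y b →
    ∀ (I M : Type) [Fintype I] [DecidableEq I] [AddCommGroup M] [Finite M]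
      (B : M ≃+ (I → ZMod p)) (ρ : GS p av α → M → M), ActP p (omS p av α) ρ →
    ∀ (η : (Fin d → M) →+ ZMod p) (μ₀ : (∀ j, (av j).Completion) →+ ZMod p)
      (lam : M →+ OmS p av α), RepP av α ι t w₀ e B ρ η μ₀ lam →
    ∀ (V : Type) [AddCommGroup V] [Finite V] (r : ℕ), Nat.card V = p ^ r →
      (∀ v : V, p • v = 0) → ∀ ρV : GS p av α → V → V, ActP p (omS p av α) ρV →
      ∀ ε : V →+ M, (∀ g v, ρ g (ε v) = ε (ρV g v)) → (∀ v, lam (ε v) = 0) →
        ∀ m : Fin d → V, η (fun i => ε (m i)) = 0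

/-- **Ndz** (350 lines, uses `S_Hst`, `S_Act3`, `S_Rep`, `S_Vaf`, `S_Ndx`, `S_Ndm`, `S_Asm`, `S_Bgz`, `S_Bsx`, `S_Cdx`, `S_Nnz`).
NONDEGENERACY.

Proof. `N0 = NV p av α ρV`; `p • x = 0` (characteristic `p`); bigness: `S_Bgz`. Let `δ`, `η`, `c` be as in `NdV`,
`d_i = hS p av α (δ i)`, `M = (Finset (Fin m) → V)`, `ρ = rV ρV d` (`ActP`, `S_Act3`), with a basis `B` (`S_Bsx`),
`η_M (m) = η (j ↦ m j univ)`, `T = tsH ..`. (a) `η_M (Ts T ρ C) = η (Ts T ρV (C_univ)) = 0` for all `C` (`S_Cdx` (1)), and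
`η_M ≠ 0` (take `sgE univ`). So `S_Rep` gives `μ₀`, `lam`. (b) `Z = Zs T ρ (sgE ∅ ∘ c) ∈ Ker` by `S_Cdx` (2). (c) Suppose
`η (Tx .. (cons x δ) c _ univ) = 0` for all `x ∈ A`. By `S_Vaf` (for `Z`) with `c'`, `a'` of `S_Ndx` (`T.t ⟨j, i⟩ = r_j (t j i)`,
`T.w ⟨j, i⟩ = j`, `T.u i = w₀`, `T.e i = r_(w₀) (e i)`; `(fun i => A.h ((cons x δ) i)) = cons (hS x) d`) `μ₀ (x s) = 0` for all
`x ∈ A`. By `S_Ndm` `lam` vanishes on the differences of `Z`. By `S_Asm` `lam (sgE univ (D ∅)) = 0` for these differences `D`, and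
`D ∅` are the differences of `Zs T ρV c` (`S_Cdx` (3)). So the additive map `v ↦ lam (sgE univ v)` vanishes on the
differences of `Zs T ρV c`, so it is `0` by `Gen` (its kernel is a subgroup which contains the generators of `spz`).
(d) `S_Nnz` for `ε v = sgE univ v` (`ρ g (sgE univ v) = sgE univ (ρV g v)`: only `A = ∅` contributes) gives
`η m = η_M (ε ∘ m) = 0` for all `m`, a contradiction to `η ≠ 0`. -/
def S_Ndz : Prop :=
  ∀ (p : ℕ) [Fact p.Prime] (K : Type) [Field K] [CharP K p], GFld p K →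
    ∀ (J : Type) (av : J → AbsoluteValue K ℝ) (α : Kgs K) (h : K)
      (ι : ∀ j, Kgs K →ₐ[K] Kvs (av j)) (d : ℕ) (T : J → Type)
      (t : ∀ j, T j → Gal(Kvs (av j)/(av j).Completion)) (w₀ : J)
      (e : Fin d → Gal(Kvs (av w₀)/(av w₀).Completion)) (y : Fin (d + 1) → J) (b : J),
      TsH p av α h ι t w₀ e y b → (∀ e, (FS av e : Set (OS av)).Finite) →
    ∀ (V : Type) [AddCommGroup V] [Finite V] (r : ℕ), Nat.card V = p ^ r →
      (∀ v : V, p • v = 0) → ∀ ρV : GS p av α → V → V, ActP p (omS p av α) ρV →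
      NdV (fzS p av α ι) (tsH p av α ι t w₀ e y) ρV

/-- **G3z** (150 lines, uses `S_Na`, `S_FiK`, `S_Has`, `S_Hst`, `S_Rgo`, `S_S0x`, `S_Lts`, `S_Ndz`; the main theorem of part V). The
axioms `Fz.Good`. See `P3/M/Gdx.lean`, `P3/M/T3g.lean`.

Proof. `av₀` and `b` as in `P3/M/T3g.lean`, the test system by `S_Lts`. `Good`: `om`, `hom`, `add`, `h2`: `S_Hst`; `fin`: `S_FiK`;
`mono`, `exh`: clear; `ok`: `TsH.ok`; `nd`: `S_Ndz`. -/
def S_G3z : Prop :=
  ∀ (p : ℕ) [Fact p.Prime] (K : Type) [Field K] [CharP K p], GFld p K → ∀ (α : Kgs K) (h : K),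
    h ≠ 0 → α ^ (p - 1) = algebraMap K (Kgs K) h →
    ∃ (m : ℕ) (av₀ : Fin m → AbsoluteValue K ℝ), Pls av₀ ∧
      ∀ (J : Type) [Fintype J] (av : J → AbsoluteValue K ℝ), Pls av →
        (∀ i, ∃ j, (av j).IsEquiv (av₀ i)) → HS p av α h ∧
        ∀ ι : ∀ j, Kgs K →ₐ[K] Kvs (av j), ∃ b : J, ∀ w₀ : J,
          ∃ (d : ℕ) (T : J → Type) (t : ∀ j, T j → Gal(Kvs (av j)/(av j).Completion))
            (e : Fin d → Gal(Kvs (av w₀)/(av w₀).Completion)) (y : Fin (d + 1) → J),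
            TsH p av α h ι t w₀ e y b ∧
            (fzS p av α ι).Good (tsH p av α ι t w₀ e y)

end Pool.Agent.MP72G
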