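import Pool.Agent.Lib.MP_72e2e6_nt.P4.Z.Spec
import Pool.Agent.Lib.MP_72e2e6_nt.P3.M.Spec

/-!
# MP_72e2e6_nt, theorem T4, part V (nondegeneracy for all finite modules): definitions

`M` is a finite group with `p M = 0` and a basis `B : M ≃+ (I → ZMod p)`; for a field `L` of characteristic
`p` the space `M ⊗ L` is `I → L`.
-/

namespace Pool.Agent.MP72G

open Finset Pool.Agent.MP72P IntermediateField

/-- The data of part Z for `GS`. -/
noncomputable def fzS (p : ℕ) {K : Type} [Field K] {J : Type} (av : J → AbsoluteValue K ℝ)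
    (α : Kgs K) (ι : ∀ j, Kgs K →ₐ[K] Kvs (av j)) : Fz p (GS p av α) J (OS av) where
  ω := omS p av α
  D := DS p av α ι
  h := fun x => hS p av α (x : K)
  F := FS av

/-- Locally constant actions by additive maps. -/
structure ActL {G M : Type} [Group G] [TopologicalSpace G] [AddCommGroup M] (ρ : G → M → M) :
    Prop where
  add : ∀ g x y, ρ g (x + y) = ρ g x + ρ g y
  one : ∀ x, ρ 1 x = x
  mul : ∀ g h x, ρ (g * h) x = ρ g (ρ h x)
  loc : ∀ x, IsLocallyConstant fun g => ρ g x

section

variable {p : ℕ} {I I' M M' : Type} [Fintype I] [DecidableEq I] [Fintype I'] [DecidableEq I']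
  [AddCommGroup M] [AddCommGroup M']

/-- The elements of the basis. -/
def bs (B : M ≃+ (I → ZMod p)) (i : I) : M := B.symm (Pi.single i 1)

/-- The element of `M ⊗ L` given by `m ∈ M`. -/
def em (B : M ≃+ (I → ZMod p)) (L : Type) [Field L] (m : M) (i : I) : L := op L (B m i)

/-- The linear extension of the additive map `f`. -/
def mpt (B : M ≃+ (I → ZMod p)) (B' : M' ≃+ (I' → ZMod p)) {L : Type} [Field L] (f : M → M')
    (y : I → L) (i : I') : L :=
  ∑ k, op L (B' (f (bs B k)) i) * y k

/-- The semilinear map `f ⊗ σ`. -/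
def sac (B : M ≃+ (I → ZMod p)) {L : Type} [Field L] (f : M → M) (σ : L → L) (y : I → L) :
    I → L :=
  mpt B B f fun k => σ (y k)

/-- The `p`-th power on the coefficients minus the identity. -/
def fb (p : ℕ) {I L : Type} [Field L] (y : I → L) (i : I) : L := y i ^ p - y i

/-- The linear extension of the additive map `f : M → L`. -/
def pr (B : M ≃+ (I → ZMod p)) {L : Type} [Field L] (f : M → L) (y : I → L) : L :=
  ∑ k, f (bs B k) * y k

/-- The elements of `M ⊗ L` which are fixed by the Galois group. -/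
def FxV (B : M ≃+ (I → ZMod p)) {k L : Type} [Field k] [Field L] [Algebra k L]
    (ρ : Gal(L/k) → M → M) (y : I → L) : Prop :=
  ∀ g : Gal(L/k), sac B (ρ g) g y = y

/-- The function `c : Gal(L/k) → M` is the coboundary of `y ∈ M ⊗ L`. -/
def RlM (B : M ≃+ (I → ZMod p)) {k L : Type} [Field k] [Field L] [Algebra k L]
    (ρ : Gal(L/k) → M → M) (c : Gal(L/k) → M) (y : I → L) : Prop :=
  ∀ g : Gal(L/k), sac B (ρ g) g y = y + em B L (c g)

end

/-- A subring `O` of `L` which is stable under the Galois group and has elements of trace one. -/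
structure TrO {k L : Type} [Field k] [Field L] [Algebra k L] (O : Subring L) : Prop where
  stab : ∀ g : Gal(L/k), ∀ x ∈ O, g x ∈ O
  tr : ∀ U : Subgroup Gal(L/k), IsOpen (U : Set Gal(L/k)) → U.Normal →
    ∃ x ∈ O, (∀ g ∈ U, g x = x) ∧ ∑ᶠ q : Gal(L/k) ⧸ U, (Quotient.out q : Gal(L/k)) x = 1

/-- The ring of the elements of `OmS` which are integral over `OS av`. -/
noncomputable def OIn (p : ℕ) {K : Type} [Field K] {J : Type} (av : J → AbsoluteValue K ℝ)
    (α : Kgs K) : Subring (OmS p av α) :=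
  (integralClosure (OS av) (Kgs K)).toSubring.comap (algebraMap (OmS p av α) (Kgs K))

/-- The functions in `OS av` of the form `y ^ p - y`, `y ∈ OmS` fixed by the kernel of the action on `V`. -/
def NV (p : ℕ) [Fact p.Prime] {K : Type} [Field K] [CharP K p] {J : Type}
    (av : J → AbsoluteValue K ℝ) (α : Kgs K) {V : Type} (ρV : GS p av α → V → V) :
    AddSubgroup (OS av) where
  carrier := {x | ∃ y : OmS p av α, (∀ g, (∀ v, ρV g v = v) → g y = y) ∧
    y ^ p - y = algebraMap K (OmS p av α) (x : K)}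
  add_mem' := fun {x x'} hx hx' => by
    have := charP_of_injective_algebraMap (algebraMap K (OmS p av α)).injective p
    obtain ⟨y, hy, hy'⟩ := hx
    obtain ⟨z, hz, hz'⟩ := hx'
    refine ⟨y + z, fun g hg => by rw [map_add, hy g hg, hz g hg], ?_⟩
    have h : ((x + x' : OS av) : K) = x + x' := rfl
    rw [h, map_add, ← hy', ← hz', add_pow_char]
    ring
  zero_mem' := ⟨0, fun g _ => map_zero g, by
    have h : ((0 : OS av) : K) = 0 := rfl
    rw [h, map_zero, zero_pow (Fact.out : p.Prime).ne_zero, sub_zero]⟩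
  neg_mem' := fun {x} hx => by
    have := charP_of_injective_algebraMap (algebraMap K (OmS p av α)).injective p
    obtain ⟨y, hy, hy'⟩ := hx
    refine ⟨-y, fun g hg => by rw [map_neg, hy g hg], ?_⟩
    have h : ((-x : OS av) : K) = -x := rfl
    have h' : (-y) ^ p = - y ^ p := by
      have := sub_pow_char (R := OmS p av α) (p := p) (x := 0) (y := y)
      rwa [zero_sub, zero_pow (Fact.out : p.Prime).ne_zero, zero_sub] at this
    rw [h, map_neg, ← hy', h']
    ring

/-- The test system of `TsH`. -/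
noncomputable abbrev tsH (p : ℕ) {K : Type} [Field K] {J : Type}
    (av : J → AbsoluteValue K ℝ) (α : Kgs K) (ι : ∀ j, Kgs K →ₐ[K] Kvs (av j)) {d : ℕ}
    {T : J → Type} (t : ∀ j, T j → Gal(Kvs (av j)/(av j).Completion)) (w₀ : J)
    (e : Fin d → Gal(Kvs (av w₀)/(av w₀).Completion)) (y : Fin (d + 1) → J) :
    Tst (GS p av α) J d :=
  tsL (fun j => rOm p av α (ι j)) t w₀ e fun k => Sum.inr (y k)

section

variable {p : ℕ} {K : Type} [Field K] {J : Type} (av : J → AbsoluteValue K ℝ)
  (α : Kgs K) (ι : ∀ j, Kgs K →ₐ[K] Kvs (av j)) {d : ℕ} {T : J → Type}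
  (t : ∀ j, T j → Gal(Kvs (av j)/(av j).Completion)) (w₀ : J)
  (e : Fin d → Gal(Kvs (av w₀)/(av w₀).Completion)) {I M : Type} [Fintype I] [DecidableEq I]
  [AddCommGroup M] (B : M ≃+ (I → ZMod p)) (ρ : GS p av α → M → M) (η : (Fin d → M) →+ ZMod p)

/-- The functional `lam`: the value at `Y` is `η` of the extra tests at `w₀` of local crossed
homomorphisms `f j` which belong to the elements `P (Y j)`, modified by a global pair with the same
tests. -/
def LamP (P : Matrix I I (OmS p av α)) (lam : (∀ j, I → (av j).Completion) →+ ZMod p) : Prop :=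
  ∀ (Y : ∀ j, I → (av j).Completion) (yy : ∀ j, I → Kvs (av j))
    (f : ∀ j, Gal(Kvs (av j)/(av j).Completion) → M) (ζ : (GS p av α → M) × (J → M)),
    (∀ j, RlM B (fun g => ρ (rOm p av α (ι j) g)) (f j) (yy j)) →
    (∀ j a, fb p (yy j) a =
      ∑ i, ι j (P a i : Kgs K) * algebraMap (av j).Completion (Kvs (av j)) (Y j i)) →
    Coc ρ ζ.1 →
    (∀ j (i : T j), psi ρ ζ j (rOm p av α (ι j) (t j i)) = f j (t j i)) →
    lam Y = η fun i => f w₀ (e i) - psi ρ ζ w₀ (rOm p av α (ι w₀) (e i))

/-- The functional is given by a functional `μ₀` on the product of the completions and an equivariant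
map `lam : M → OmS`. -/
structure RepP (μ₀ : (∀ j, (av j).Completion) →+ ZMod p) (lam : M →+ OmS p av α) : Prop where
  fnc : Fnc p av μ₀
  ne : μ₀ ≠ 0
  eqv : ∀ g m, lam (ρ g m) = g (lam m)
  val : ∀ (yy : ∀ j, I → Kvs (av j)) (f : ∀ j, Gal(Kvs (av j)/(av j).Completion) → M),
    (∀ j, RlM B (fun g => ρ (rOm p av α (ι j) g)) (f j) (yy j)) →
    (∀ j (i : T j), f j (t j i) = 0) → ∃ s : ∀ j, (av j).Completion,
      (∀ j, algebraMap (av j).Completion (Kvs (av j)) (s j) =
        pr B (fun m => ι j (lam m : Kgs K)) (fb p (yy j))) ∧ μ₀ s = η fun i => f w₀ (e i)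
  glo : ∀ Y : I → OmS p av α, (∀ i, Y i ∈ OIn p av α) → FxV B ρ Y →
    ∃ s : K, algebraMap K (OmS p av α) s = pr B lam Y ∧
      μ₀ (fun j => algebraMap K (av j).Completion s) = 0

end

end Pool.Agent.MP72G
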