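import Pool.Agent.Lib.MP_72e2e6_nt.P4.V.Spec

/-!
# MP_72e2e6_nt, theorem T4, part V: Lcu, local crossed homomorphisms with given extra tests
-/

namespace Pool.Agent.MP72G

open Finset Pool.Agent.MP72P IntermediateField

theorem tLcu (h1 : S_UniF) (h2 : S_Hst) (h3 : S_Rgo) : S_Lcu := by
  intro p _ K _ _ hG J av α h ι d T t w₀ e y b hT M _ _ r hc ρ hρ m
  obtain ⟨-, -, -, -, -, -, hch, -⟩ := h2 p K hG J av α h hT.hs
  obtain ⟨-, -, -, -, -, -, hR⟩ := h3 p K hG J av α h hT.hs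
  have hr : Continuous (rOm p av α (ι w₀)) := (hR (av w₀) (ι w₀)).1
  have hch' : ChO p (fun g => omS p av α (rOm p av α (ι w₀) g)) :=
    ⟨hch.loc.comp_continuous hr, by rw [map_one]; exact hch.one,
      fun a b => by rw [map_mul]; exact hch.mul _ _, fun a => hch.ne _⟩
  have hact : ActP p (fun g => omS p av α (rOm p av α (ι w₀) g))
      (fun g => ρ (rOm p av α (ι w₀) g)) :=
    ⟨fun g => hρ.add _, fun x => by rw [map_one]; exact hρ.one x,
      fun g g' x => by rw [map_mul]; exact hρ.mul _ _ x,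
      fun x => (hρ.loc x).comp_continuous hr, fun g => by
        obtain ⟨k, hk⟩ := hρ.uni (rOm p av α (ι w₀) g)
        exact ⟨k, fun x => by rw [map_pow]; exact hk x⟩⟩
  have key : ∀ v : T w₀ → ZMod p, {i | v i ≠ 0}.Finite → ∀ c : Fin d → ZMod p,
      ∃! z : (Gal(Kvs (av w₀)/(av w₀).Completion) → ZMod p) × (Empty → ZMod p),
        Coc (fun g (x : ZMod p) => omS p av α (rOm p av α (ι w₀) g) * x) z.1 ∧
        (∀ i, psO (fun g (x : ZMod p) => omS p av α (rOm p av α (ι w₀) g) * x) z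
          ((fun _ => none : T w₀ → Option Empty) i) (t w₀ i) = v i) ∧
        ∀ k, Sum.elim z.1 z.2 ((fun i => Sum.inl (e i) :
          Fin d → Gal(Kvs (av w₀)/(av w₀).Completion) ⊕ Empty) k) = c k := by
    intro v hv c
    obtain ⟨f, ⟨hf1, hf2, hf3⟩, hu⟩ := hT.lt.u0 v hv c
    refine ⟨(f, Empty.elim), ⟨hf1, fun i => ?_, fun k => hf3 k⟩, ?_⟩
    · change f (t w₀ i) - 0 = v i
      rw [sub_zero]
      exact hf2 i
    · rintro ⟨f', a'⟩ ⟨h4, h5, h6⟩
      refine Prod.ext (hu f' ⟨h4, fun i => ?_, fun k => h6 k⟩) (funext fun x => x.elim)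
      have h7 := h5 i
      change f' (t w₀ i) - 0 = v i at h7
      rwa [sub_zero] at h7
  obtain ⟨z, ⟨hz1, hz2, hz3⟩, -⟩ := h1 p Gal(Kvs (av w₀)/(av w₀).Completion) Empty (T w₀) (Fin d)
    (fun g => omS p av α (rOm p av α (ι w₀) g)) (fun _ => none) (t w₀) (fun i => Sum.inl (e i)) hch'
    (hT.lt.h2 w₀) (hT.lt.conv w₀) key M r hc _ hact 0
    (by
      have : {i : T w₀ | (0 : T w₀ → M) i ≠ 0} = ∅ := by
        ext i
        simp
      rw [this]
      exact Set.finite_empty) m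
  refine ⟨z.1, hz1, fun i => ?_, fun i => hz3 i⟩
  have h7 := hz2 i
  change z.1 (t w₀ i) - 0 = 0 at h7
  rwa [sub_zero] at h7

end Pool.Agent.MP72G
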