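import Pool.Agent.Lib.MP_72e2e6_nt.P4.V.Spec

/-!
# MP_72e2e6_nt, theorem T4, V/Sac: the operations on `M ⊗ L`
-/

set_option autoImplicit false
set_option linter.unusedSectionVars false

namespace Pool.Agent.MP72G

open Finset Pool.Agent.MP72P IntermediateField

/-! ### The prime field -/

section prime

variable {p : ℕ} [hp : Fact p.Prime] {L : Type} [Field L] [CharP L p]

private theorem sac_op (c : ZMod p) : op L c = ZMod.castHom (dvd_refl p) L c := by
  rw [op, ZMod.castHom_apply, ZMod.natCast_val]

private theorem sac_op_add (c d : ZMod p) : op L (c + d) = op L c + op L d := by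
  rw [sac_op, sac_op, sac_op, map_add]

private theorem sac_op_mul (c d : ZMod p) : op L (c * d) = op L c * op L d := by
  rw [sac_op, sac_op, sac_op, map_mul]

private theorem sac_op_zero : op L (0 : ZMod p) = 0 := by
  rw [sac_op, map_zero]

private theorem sac_op_one : op L (1 : ZMod p) = 1 := by
  rw [sac_op, map_one]

private theorem sac_op_sum {J : Type} (s : Finset J) (f : J → ZMod p) :
    op L (∑ j ∈ s, f j) = ∑ j ∈ s, op L (f j) := by
  rw [sac_op, map_sum]
  exact sum_congr rfl fun j _ => (sac_op _).symm

private theorem sac_op_pow (c : ZMod p) : op L c ^ p = op L c := by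
  rw [sac_op, ← map_pow, ZMod.pow_card]

private theorem sac_op_inj {c d : ZMod p} (h : op L c = op L d) : c = d := by
  rw [sac_op, sac_op] at h
  exact (ZMod.castHom (dvd_refl p) L).injective h

private theorem sac_fix (x : L) (hx : x ^ p = x) : ∃ c : ZMod p, x = op L c := by
  classical
  have hne0 : (Polynomial.X ^ p - Polynomial.X : Polynomial L) ≠ 0 :=
    FiniteField.X_pow_card_sub_X_ne_zero _ hp.out.one_lt
  let T : Finset L := (Polynomial.X ^ p - Polynomial.X : Polynomial L).roots.toFinset
  let S : Finset L := univ.image fun c : ZMod p => op L c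
  have hmT : ∀ y : L, y ∈ T ↔ y ^ p = y := by
    intro y
    simp only [T, Multiset.mem_toFinset]
    rw [Polynomial.mem_roots hne0, Polynomial.IsRoot.def, Polynomial.eval_sub, Polynomial.eval_pow,
      Polynomial.eval_X, sub_eq_zero]
  have hST : S ⊆ T := by
    intro y hy
    obtain ⟨c, -, rfl⟩ := Finset.mem_image.1 hy
    rw [hmT]
    exact sac_op_pow c
  have hcT : T.card ≤ S.card := by
    have h1 : S.card = p := by
      simp only [S]
      rw [Finset.card_image_of_injective _ fun c d h => sac_op_inj h, Finset.card_univ,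
        ZMod.card]
    rw [h1]
    refine (Multiset.toFinset_card_le _).trans ((Polynomial.card_roots' _).trans ?_)
    rw [FiniteField.X_pow_card_sub_X_natDegree_eq _ hp.out.one_lt]
  have hxS : x ∈ S := by
    rw [Finset.eq_of_subset_of_card_le hST hcT, hmT]
    exact hx
  obtain ⟨c, -, hc⟩ := Finset.mem_image.1 hxS
  exact ⟨c, hc.symm⟩

end prime

private theorem sac_map {p : ℕ} {L L' : Type} [Field L] [Field L'] (σ : L →+* L') (c : ZMod p) :
    σ (op L c) = op L' c := by
  rw [op, op, map_natCast]

/-! ### The basis -/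

section basis

variable {p : ℕ} [hp : Fact p.Prime] {I M : Type} [Fintype I] [DecidableEq I] [AddCommGroup M]
  (B : M ≃+ (I → ZMod p))

private theorem sac_bs (k i : I) : B (bs B k) i = if i = k then 1 else 0 := by
  rw [bs, AddEquiv.apply_symm_apply, Pi.single_apply]

private theorem sac_exp (m : M) : m = ∑ k, (B m k).val • bs B k := by
  apply B.injective
  rw [map_sum]
  funext i
  rw [Finset.sum_apply, Finset.sum_eq_single i]
  · rw [map_nsmul, Pi.smul_apply, sac_bs, if_pos rfl, nsmul_eq_mul, mul_one,
      ZMod.natCast_zmod_val]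
  · intro k _ hk
    rw [map_nsmul, Pi.smul_apply, sac_bs, if_neg (Ne.symm hk), smul_zero]
  · intro h
    exact absurd (Finset.mem_univ _) h

private theorem sac_add {X : Type} [AddCommGroup X] (f : M → X)
    (hf : ∀ m m', f (m + m') = f m + f m') (m : M) :
    f m = ∑ k, (B m k).val • f (bs B k) := by
  have h1 : ∀ x, (AddMonoidHom.mk' f hf) x = f x := fun _ => rfl
  conv_lhs => rw [← h1, sac_exp B m]
  rw [map_sum]
  refine sum_congr rfl fun k _ => ?_
  rw [map_nsmul, h1]

private theorem sac_mat {I' M' : Type} [Fintype I'] [DecidableEq I'] [AddCommGroup M']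
    (B' : M' ≃+ (I' → ZMod p)) (f : M → M') (hf : ∀ m m', f (m + m') = f m + f m') (m : M)
    (i : I') : B' (f m) i = ∑ k, B m k * B' (f (bs B k)) i := by
  rw [sac_add B f hf m, map_sum, Finset.sum_apply]
  refine sum_congr rfl fun k _ => ?_
  rw [map_nsmul, Pi.smul_apply, nsmul_eq_mul, ZMod.natCast_zmod_val]

private theorem sac_lam {L : Type} [Field L] (lam : M → L)
    (hl : ∀ m m', lam (m + m') = lam m + lam m') (m : M) :
    lam m = ∑ k, op L (B m k) * lam (bs B k) := by
  rw [sac_add B lam hl m]
  refine sum_congr rfl fun k _ => ?_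
  rw [nsmul_eq_mul, op]

end basis

/-! ### The operations -/

section ops

variable {p : ℕ} [hp : Fact p.Prime] {L : Type} [Field L] [CharP L p] {I M : Type} [Fintype I]
  [DecidableEq I] [AddCommGroup M] (B : M ≃+ (I → ZMod p)) {I' M' : Type} [Fintype I']
  [DecidableEq I'] [AddCommGroup M'] (B' : M' ≃+ (I' → ZMod p))

private theorem sac_fb_add (y y' : I → L) : fb p (y + y') = fb p y + fb p y' := by
  funext i
  change (y i + y' i) ^ p - (y i + y' i) = (y i ^ p - y i) + (y' i ^ p - y' i)
  rw [add_pow_char]
  ring

private theorem sac_mpt_add (f : M → M') (y y' : I → L) :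
    mpt B B' f (y + y') = mpt B B' f y + mpt B B' f y' := by
  funext i
  simp only [mpt, Pi.add_apply, mul_add, sum_add_distrib]

private theorem sac_mpt_smul (f : M → M') (c : L) (y : I → L) :
    mpt B B' f (c • y) = c • mpt B B' f y := by
  funext i
  simp only [mpt, Pi.smul_apply, smul_eq_mul, mul_sum]
  exact sum_congr rfl fun k _ => by ring

private theorem sac_mpt_em (f : M → M') (hf : ∀ m m', f (m + m') = f m + f m') (m : M) :
    mpt B B' f (em B L m) = em B' L (f m) := by
  funext i
  simp only [mpt, em]
  rw [sac_mat B B' f hf m i, sac_op_sum]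
  exact sum_congr rfl fun k _ => by rw [sac_op_mul, mul_comm]

private theorem sac_mpt_pow (f : M → M') (y : I → L) (i : I') :
    mpt B B' f y i ^ p = mpt B B' f (fun k => y k ^ p) i := by
  simp only [mpt]
  rw [sum_pow_char]
  exact sum_congr rfl fun k _ => by rw [mul_pow, sac_op_pow]

private theorem sac_mpt_fb (f : M → M') (y : I → L) :
    fb p (mpt B B' f y) = mpt B B' f (fb p y) := by
  funext i
  change mpt B B' f y i ^ p - mpt B B' f y i = _
  rw [sac_mpt_pow]
  simp only [mpt, fb]
  rw [← sum_sub_distrib]
  exact sum_congr rfl fun k _ => by ring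

private theorem sac_mpt_map {L' : Type} [Field L'] (f : M → M') (σ : L →+* L') (y : I → L) :
    (fun i => σ (mpt B B' f y i)) = mpt B B' f fun k => σ (y k) := by
  funext i
  simp only [mpt, map_sum, map_mul, sac_map]

private theorem sac_mpt_comp {I'' M'' : Type} [Fintype I''] [DecidableEq I''] [AddCommGroup M'']
    (B'' : M'' ≃+ (I'' → ZMod p)) (f : M → M') (f' : M' → M'')
    (hf' : ∀ m m', f' (m + m') = f' m + f' m') (y : I → L) :
    mpt B' B'' f' (mpt B B' f y) = mpt B B'' (fun m => f' (f m)) y := by
  funext i
  simp only [mpt, mul_sum]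
  rw [sum_comm]
  refine sum_congr rfl fun k _ => ?_
  rw [sac_mat B' B'' f' hf' (f (bs B k)) i, sac_op_sum, sum_mul]
  exact sum_congr rfl fun j _ => by rw [sac_op_mul]; ring

private theorem sac_pr_mpt (f : M → M') (lam : M' → L)
    (hl : ∀ m m', lam (m + m') = lam m + lam m') (y : I → L) :
    pr B' lam (mpt B B' f y) = pr B (fun m => lam (f m)) y := by
  simp only [pr, mpt, mul_sum]
  rw [sum_comm]
  refine sum_congr rfl fun k _ => ?_
  rw [sac_lam B' lam hl (f (bs B k)), sum_mul]
  exact sum_congr rfl fun j _ => by ring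

end ops

/-- The operations on `M ⊗ L`. -/
theorem tSac : S_Sac := by
  intro p hp L _ _ I M _ _ _ B
  refine ⟨⟨?_, ?_, ?_, ?_, sac_fb_add, ?_, fun m i => sac_op_pow _⟩, ?_, ?_, ?_, ?_⟩
  · intro m m'
    funext i
    change op L (B (m + m') i) = op L (B m i) + op L (B m' i)
    rw [map_add, Pi.add_apply, sac_op_add]
  · intro m hm
    apply B.injective
    rw [map_zero]
    funext i
    have h1 : op L (B m i) = 0 := congrFun hm i
    rw [← sac_op_zero (p := p) (L := L)] at h1
    exact sac_op_inj h1
  · intro y
    constructor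
    · intro hy
      have h1 : ∀ i, ∃ c : ZMod p, y i = op L c := fun i => by
        apply sac_fix
        have h2 : y i ^ p - y i = 0 := congrFun hy i
        exact sub_eq_zero.mp h2
      choose c hc using h1
      refine ⟨B.symm c, ?_⟩
      funext i
      rw [hc i, em, AddEquiv.apply_symm_apply]
    · rintro ⟨m, rfl⟩
      funext i
      change op L (B m i) ^ p - op L (B m i) = 0
      rw [sac_op_pow, sub_self]
  · intro y
    funext i
    rw [Finset.sum_apply, Finset.sum_eq_single i]
    · rw [Pi.smul_apply, em, sac_bs, if_pos rfl, sac_op_one, smul_eq_mul, mul_one]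
    · intro k _ hk
      rw [Pi.smul_apply, em, sac_bs, if_neg (Ne.symm hk), sac_op_zero, smul_zero]
    · intro h
      exact absurd (Finset.mem_univ _) h
  · intro y
    funext i
    rw [mpt, Finset.sum_eq_single i]
    · rw [sac_bs, if_pos rfl, sac_op_one, one_mul]
    · intro k _ hk
      rw [sac_bs, if_neg (Ne.symm hk), sac_op_zero, zero_mul]
    · intro h
      exact absurd (Finset.mem_univ _) h
  · intro I' M' _ _ _ B' f hf
    exact ⟨sac_mpt_add B B' f, sac_mpt_smul B B' f, sac_mpt_em B B' f hf, sac_mpt_fb B B' f,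
      sac_mpt_pow B B' f, fun σ y => sac_mpt_map B B' f σ y,
      fun I'' M'' _ _ _ B'' f' hf' y => sac_mpt_comp B B' B'' f f' hf' y,
      fun lam hl y => sac_pr_mpt B B' f lam hl y⟩
  · intro lam hl
    refine ⟨?_, ?_, ?_, ?_⟩
    · intro y y'
      simp only [pr, Pi.add_apply, mul_add, sum_add_distrib]
    · intro c y
      simp only [pr, Pi.smul_apply, smul_eq_mul, mul_sum]
      exact sum_congr rfl fun k _ => by ring
    · intro m
      rw [sac_lam B lam hl m]
      simp only [pr, em]
      exact sum_congr rfl fun k _ => mul_comm _ _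
    · intro f hf σ hσ y
      rw [sac, sac_pr_mpt B B f lam hl]
      simp only [pr, map_sum, map_mul, hσ]
  · intro f hf σ
    refine ⟨?_, ?_, ?_, ?_, ?_, ?_⟩
    · intro y y'
      have h1 : (fun k => σ ((y + y') k)) = (fun k => σ (y k)) + fun k => σ (y' k) := by
        funext k
        exact map_add σ _ _
      rw [sac, h1, sac_mpt_add]
      rfl
    · intro c y
      have h1 : (fun k => σ ((c • y) k)) = σ c • fun k => σ (y k) := by
        funext k
        exact map_mul σ _ _
      rw [sac, h1, sac_mpt_smul]
      rfl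
    · intro m
      have h1 : (fun k => σ (em B L m k)) = em B L m := by
        funext k
        exact sac_map σ _
      rw [sac, h1, sac_mpt_em B B f hf]
    · intro y
      have h1 : (fun k => σ (fb p y k)) = fb p fun k => σ (y k) := by
        funext k
        simp only [fb, map_sub, map_pow]
      rw [sac, sac, sac_mpt_fb, h1]
    · intro y
      funext i
      rw [sac, sac, sac_mpt_pow]
      simp only [map_pow]
    · intro f' hf' σ' y
      have h1 : (fun k => σ (sac B f' σ' y k)) = mpt B B f' fun k => σ (σ' (y k)) :=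
        sac_mpt_map B B f' σ _
      rw [sac, h1, sac_mpt_comp B B B f' f hf]
      rfl
  · intro L' _ _ τ
    refine ⟨?_, ?_, ?_, ?_⟩
    · intro m
      funext i
      exact sac_map τ _
    · intro y
      funext i
      simp only [fb, map_sub, map_pow]
    · intro lam y
      simp only [pr, map_sum, map_mul]
    · intro f σ σ' h y
      have h1 := sac_mpt_map B B f τ fun k => σ (y k)
      simp only [h] at h1
      exact h1

end Pool.Agent.MP72G
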